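import Mathlib

/-!
# The dominating number
-/

open Cardinal Filter

namespace Run7.h632

/-- The dominating number: the least size of a set `D` of functions `ℕ → ℕ` such that every
function `ℕ → ℕ` is bounded by some member of `D` at all but finitely many places. -/
noncomputable def dNum : Cardinal.{0} :=
  sInf {κ | ∃ D : Set (ℕ → ℕ), #D = κ ∧ ∀ f : ℕ → ℕ, ∃ g ∈ D, ∀ᶠ n in atTop, f n ≤ g n}

theorem aleph_one_le_dNum : ℵ₁ ≤ dNum := by
  apply le_csInf
  · exact ⟨_, Set.univ, rfl, fun f => ⟨f, Set.mem_univ f, Eventually.of_forall fun _ => le_rfl⟩⟩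
  · rintro κ ⟨D, rfl, hD⟩
    by_contra hcon
    have hc : D.Countable := by
      rw [← Cardinal.le_aleph0_iff_set_countable, ← Cardinal.lt_aleph_one_iff]
      exact not_le.mp hcon
    have hne : D.Nonempty := by
      obtain ⟨g, hg, _⟩ := hD (fun _ => 0)
      exact ⟨g, hg⟩
    obtain ⟨s, hs⟩ := hc.exists_eq_range hne
    obtain ⟨g, hg, hev⟩ := hD (fun n => (∑ k ∈ Finset.range (n + 1), s k n) + 1)
    rw [hs] at hg
    obtain ⟨k, rfl⟩ := hg
    obtain ⟨N, hN⟩ := eventually_atTop.mp hev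
    have h1 := hN (max N k) (le_max_left _ _)
    have h2 : s k (max N k) ≤ ∑ i ∈ Finset.range (max N k + 1), s i (max N k) := by
      apply Finset.single_le_sum (f := fun i => s i (max N k)) (fun i _ => Nat.zero_le _)
      rw [Finset.mem_range]
      exact Nat.lt_succ_of_le (le_max_right _ _)
    omega

theorem dNum_le {D : Set (ℕ → ℕ)} (hD : ∀ f : ℕ → ℕ, ∃ g ∈ D, ∀ n, f n ≤ g n) :
    dNum ≤ #D := by
  refine csInf_le' ⟨D, rfl, fun f => ?_⟩
  obtain ⟨g, hg, h⟩ := hD f
  exact ⟨g, hg, Eventually.of_forall h⟩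

end Run7.h632
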