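import Pool.Agent.Run7.h632.H4

/-!
# Large continuum together with diamond refutes universal narrow `θ⁺⁺`-Aronszajn trees
-/

open Ordinal Cardinal Set Order

universe u

namespace Run7.h632

theorem no_universal_pow {T : Type u} [PartialOrder T] {ρ : T → Ordinal.{u}}
    {θ : Cardinal.{u}} (hθ : ℵ₀ ≤ θ) (hT : NA (succ (succ θ)) T ρ)
    (h2 : (2 : Cardinal.{u}) ^ succ θ = succ (succ θ)) (h1 : succ θ < (2 : Cardinal.{u}) ^ ℵ₀) :
    ∃ (D : Set Ordinal.{u}) (g : Ordinal.{u} → Set T), LocChain (succ (succ θ)) ρ D g ∧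
      ∀ f : GT ρ D g → T, ¬ ∀ x y, x < y → f x < f y := by
  classical
  have hθ1 : ℵ₀ ≤ succ θ := hθ.trans (Order.le_succ θ)
  have hreg := reg_kappa hθ
  have hunc := unc_kappa hθ
  obtain ⟨G, hG⟩ := diamond hθ h2 (P := List T × T) (fun p => max (mx ρ p.1) (ρ p.2))
    (fun α hα => mk_lists hθ hT hα)
  -- the guessed unbounded sequences
  let Wit : Ordinal.{u} → (ℕ → List T) → (ℕ → T) → Prop := fun δ l t =>
    (∀ n, (l n, t n) ∈ G δ) ∧ (∀ n, Inc ρ (l n)) ∧ (∀ n, ∃ m, l (n + 1) = m ++ l n) ∧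
      (∀ n, top ρ (l n) < δ) ∧ (∀ β < δ, ∃ n, β < top ρ (l n)) ∧
      ¬ ∃ u, ρ u = δ ∧ ∀ n, t n < u
  let D : Set Ordinal.{u} :=
    {δ | δ < (succ (succ θ)).ord ∧ IsSuccLimit δ ∧ ∃ l t, Wit δ l t}
  have hch : ∀ δ : Ordinal.{u}, ∃ l, δ ∈ D → ∃ t, Wit δ l t := by
    intro δ
    by_cases hδ : δ ∈ D
    · obtain ⟨_, _, l, t, hl⟩ := hδ
      exact ⟨l, fun _ => ⟨t, hl⟩⟩
    · exact ⟨fun _ => [], fun h => absurd h hδ⟩
  choose L hL using hch
  let g : Ordinal.{u} → Set T := fun δ => limHL ρ (L δ)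
  have hg : LocChain (succ (succ θ)) ρ D g := by
    apply locChain_limHL hT.toRanked
    intro δ hδ
    obtain ⟨t, -, h4, h5, h6, h7, -⟩ := hL δ hδ
    exact ⟨hδ.1, hδ.2.1, L δ, h4, h5, h6, h7, rfl⟩
  refine ⟨D, g, hg, ?_⟩
  intro f hf
  have hS := na_GT hreg hunc hT hg
  obtain ⟨F, hF1, -, hF2⟩ := hS.toRanked.exists_level hT.toRanked f hf
  have hlim : IsSuccLimit (succ (succ θ)).ord := isSuccLimit_ord hreg.aleph0_le
  -- bounds for the sets `Pred F x`
  have hb : ∀ x : GT ρ D g, ∃ β < (succ (succ θ)).ord, ∀ u ∈ Pred F x, ρ u < β := by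
    intro x
    obtain ⟨β, hβ, hβ'⟩ := exists_bound hreg (pred_small hT hg F hF1 hF2 x)
      (fun u => ρ u.1) (fun u => hT.lt u.1)
    exact ⟨β, hβ, fun u hu => hβ' ⟨u, hu⟩⟩
  choose b hb1 hb2 using hb
  have hH : ∀ β : Ordinal.{u}, ∃ γ : Ordinal.{u}, β < (succ (succ θ)).ord →
      (γ < (succ (succ θ)).ord ∧ ∀ x : GT ρ D g, lv x = β → b x < γ) := by
    intro β
    by_cases hβ : β < (succ (succ θ)).ord
    · obtain ⟨γ, hγ, hγ'⟩ := exists_bound hreg (hS.small β hβ)
        (fun x => b x.1) (fun x => hb1 x.1)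
      exact ⟨γ, fun _ => ⟨hγ, fun x hx => hγ' ⟨x, hx⟩⟩⟩
    · exact ⟨0, fun h => absurd h hβ⟩
  choose H hH using hH
  -- the node of a list
  let nd : List T → GT ρ D g := fun l =>
    if h : Inc ρ l then ⟨HL ρ l, top ρ l, h.good⟩ else ⟨∅, 0, Good.zero⟩
  have hnd : ∀ l, Inc ρ l → (nd l).1 = HL ρ l := by
    intro l hl
    simp only [nd, dif_pos hl]
  have hndl : ∀ l, Inc ρ l → lv (nd l) = top ρ l := by
    intro l hl
    apply lv_eq hT.toRanked hg
    rw [hnd l hl]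
    exact hl.good
  have hΦ : ∀ l, Inc ρ l → ρ (F (nd l)) = top ρ l := fun l hl => by rw [hF1, hndl l hl]
  -- the guess
  obtain ⟨δ, hδC, ⟨d, hd, hd'⟩, hδG⟩ := hG {p | Inc ρ p.1 ∧ p.2 = F (nd p.1)} _
    (isClubIn_closure hreg hunc H (fun α hα => (hH α hα).1))
  obtain ⟨hδκ, hδlim, hδH⟩ := hδC
  have hmem : ∀ l, Inc ρ l → top ρ l < δ → (l, F (nd l)) ∈ G δ := by
    intro l hl hlδ
    rw [← hδG]
    refine ⟨⟨hl, rfl⟩, ?_⟩
    exact max_lt (hl.mx_le.trans_lt hlδ) (by rw [hΦ l hl]; exact hlδ)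
  have hmem' : ∀ l t, (l, t) ∈ G δ → Inc ρ l ∧ t = F (nd l) := by
    intro l t h
    rw [← hδG] at h
    exact h.1
  -- splitting
  have hsplit : ∀ (n : ℕ) (l : List T), ∃ p : T × T, Inc ρ l → top ρ l < δ →
      (top ρ l < ρ p.1 ∧ ρ p.1 < δ ∧ ρ p.2 = ρ p.1 ∧ d n < ρ p.1 ∧
        F (nd (p.1 :: l)) ≠ F (nd (p.2 :: l))) := by
    intro n l
    by_cases hl : Inc ρ l ∧ top ρ l < δ
    · obtain ⟨hl, hlδ⟩ := hl
      let γ := max (max (H (top ρ l)) (d n)) (top ρ l) + 1
      have hγ : γ < δ := hδlim.add_one_lt (max_lt (max_lt (hδH _ hlδ) (hd n)) hlδ)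
      have hγ1 : H (top ρ l) < γ :=
        ((le_max_left _ _).trans (le_max_left _ _)).trans_lt (lt_add_one _)
      have hγ2 : d n < γ := ((le_max_right _ _).trans (le_max_left _ _)).trans_lt (lt_add_one _)
      have hγ3 : top ρ l < γ := (le_max_right _ _).trans_lt (lt_add_one _)
      have hnp : ∀ u : T, ρ u = γ → F (nd (u :: l)) ≠ u := by
        intro u hu heq
        have hinc : Inc ρ (u :: l) := ⟨hl, by rw [hu]; exact hγ3⟩
        have hp : u ∈ Pred F (nd l) := by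
          refine ⟨by rw [hndl l hl, hu]; exact hγ3.le, nd (u :: l), ?_, heq⟩
          rw [hnd _ hinc, hnd _ hl, hndl _ hl]
          rfl
        have h3 := hb2 _ _ hp
        have h4 := (hH (top ρ l) (hlδ.trans hδκ)).2 (nd l) (hndl l hl)
        rw [hu] at h3
        exact lt_asymm (h3.trans h4) hγ1
      obtain ⟨u, hu⟩ := hT.ex γ (hγ.trans hδκ)
      have hinc : Inc ρ (u :: l) := ⟨hl, by rw [hu]; exact hγ3⟩
      have hu' : ρ (F (nd (u :: l))) = γ := by
        rw [hΦ _ hinc]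
        exact hu
      refine ⟨(u, F (nd (u :: l))), fun _ _ => ⟨?_, ?_, ?_, ?_, ?_⟩⟩
      · show top ρ l < ρ u
        rw [hu]
        exact hγ3
      · show ρ u < δ
        rw [hu]
        exact hγ
      · show ρ (F (nd (u :: l))) = ρ u
        rw [hu, hu']
      · show d n < ρ u
        rw [hu]
        exact hγ2
      · exact (hnp _ hu').symm
    · obtain ⟨t, _⟩ := hT.ex 0 hlim.bot_lt
      exact ⟨(t, t), fun h h' => absurd ⟨h, h'⟩ hl⟩
  choose sp hsp using hsplit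
  -- the lists along a branch of the Cantor tree
  let lb : (ℕ → Bool) → ℕ → List T := fun c n =>
    Nat.rec [] (fun n l => (if c n then (sp n l).1 else (sp n l).2) :: l) n
  have hlb0 : ∀ c, lb c 0 = [] := fun _ => rfl
  have hlbs : ∀ c n, lb c (n + 1) =
      (if c n then (sp n (lb c n)).1 else (sp n (lb c n)).2) :: lb c n := fun _ _ => rfl
  have hlb : ∀ c n, Inc ρ (lb c n) ∧ top ρ (lb c n) < δ := by
    intro c n
    induction n with
    | zero => exact ⟨trivial, hδlim.bot_lt⟩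
    | succ n ih =>
      obtain ⟨h3, h4, h5, h6, h7⟩ := hsp n _ ih.1 ih.2
      rw [hlbs]
      by_cases hc : c n
      · rw [if_pos hc]
        exact ⟨⟨ih.1, h3⟩, h4⟩
      · rw [if_neg hc]
        refine ⟨⟨ih.1, by rw [h5]; exact h3⟩, ?_⟩
        show ρ _ < δ
        rw [h5]
        exact h4
  have hlbd : ∀ c n, d n < top ρ (lb c (n + 1)) := by
    intro c n
    obtain ⟨h3, h4, h5, h6, h7⟩ := hsp n _ (hlb c n).1 (hlb c n).2
    rw [hlbs]
    by_cases hc : c n
    · rw [if_pos hc]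
      exact h6
    · rw [if_neg hc]
      show d n < ρ _
      rw [h5]
      exact h6
  -- some branch is unbounded
  have hδD : δ ∈ D := by
    by_contra hcon
    have hall : ∀ c : ℕ → Bool, ∃ u, ρ u = δ ∧ ∀ n, F (nd (lb c n)) < u := by
      intro c
      by_contra hno
      apply hcon
      refine ⟨hδκ, hδlim, lb c, fun n => F (nd (lb c n)), ?_, fun n => (hlb c n).1, ?_,
        fun n => (hlb c n).2, ?_, hno⟩
      · intro n
        exact hmem _ (hlb c n).1 (hlb c n).2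
      · intro n
        exact ⟨[_], hlbs c n⟩
      · intro β hβ
        obtain ⟨n, hn⟩ := hd' β hβ
        exact ⟨n + 1, hn.trans (hlbd c n)⟩
    choose U hU1 hU2 using hall
    have hinj : Function.Injective (fun c => (⟨U c, hU1 c⟩ : {t | ρ t = δ})) := by
      intro c c' h
      have hUU : U c = U c' := congrArg Subtype.val h
      by_contra hne
      have hex : ∃ n, c n ≠ c' n := by
        by_contra h3
        push Not at h3
        exact hne (funext h3)
      let n := Nat.find hex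
      have hn : c n ≠ c' n := Nat.find_spec hex
      have hlt : ∀ m < n, c m = c' m := fun m hm => not_not.mp (Nat.find_min hex hm)
      have heq : ∀ m ≤ n, lb c m = lb c' m := by
        intro m
        induction m with
        | zero => exact fun _ => rfl
        | succ m ih =>
          intro hm
          rw [hlbs, hlbs, ih (Nat.le_of_succ_le hm), hlt m hm]
      obtain ⟨h3, h4, h5, h6, h7⟩ := hsp n _ (hlb c n).1 (hlb c n).2
      have h8 : F (nd (lb c (n + 1))) ≤ U c := (hU2 c (n + 1)).le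
      have h9 : F (nd (lb c' (n + 1))) ≤ U c := by rw [hUU]; exact (hU2 c' (n + 1)).le
      have hr : ρ (F (nd (lb c (n + 1)))) = ρ (F (nd (lb c' (n + 1)))) := by
        rw [hΦ _ (hlb c (n + 1)).1, hΦ _ (hlb c' (n + 1)).1, hlbs, hlbs, ← heq n le_rfl]
        show ρ (if c n then (sp n (lb c n)).1 else (sp n (lb c n)).2) =
          ρ (if c' n then (sp n (lb c n)).1 else (sp n (lb c n)).2)
        split_ifs <;> simp [h5]
      have h10 := hT.eq_of h8 h9 hr
      rw [hlbs, hlbs, ← heq n le_rfl] at h10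
      cases hcn : c n <;> cases hcn' : c' n <;> simp [hcn, hcn'] at hn h10
      · exact h7 h10.symm
      · exact h7 h10
    have hle := Cardinal.mk_le_of_injective (α := ULift.{u} (ℕ → Bool)) (β := {t | ρ t = δ})
      (f := fun c => ⟨U c.down, hU1 c.down⟩)
      (fun c c' h => ULift.ext _ _ (hinj h))
    have hcc : #(ULift.{u} (ℕ → Bool)) = 2 ^ ℵ₀ := by simp
    rw [hcc] at hle
    exact absurd (h1.trans_le hle) (not_lt.mpr (Order.lt_succ_iff.mp (hT.small δ hδκ)))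
  -- contradiction
  obtain ⟨t, h3, h4, h5, h6, h7, h8⟩ := hL δ hδD
  apply h8
  have hgood : Good ρ D g (∅ ∪ {v | v ∈ g δ ∧ 0 ≤ ρ v}) δ :=
    Good.lim Good.zero hδlim.bot_lt hδD
  let y : GT ρ D g := ⟨_, δ, hgood⟩
  have hy : lv y = δ := lv_eq hT.toRanked hg hgood
  refine ⟨F y, by rw [hF1, hy], ?_⟩
  intro n
  rw [(hmem' _ _ (h3 n)).2]
  apply hF2
  refine lt_of_le_of_ne ?_ ?_
  · intro v hv
    rw [hnd _ (h4 n)] at hv
    refine Or.inr ⟨?_, bot_le⟩
    exact ⟨n, hv⟩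
  · intro h
    have h9 := hndl _ (h4 n)
    rw [h, hy] at h9
    exact absurd (h6 n) (by rw [← h9]; exact lt_irrefl _)

end Run7.h632
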