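import Pool.Agent.Run7.h632.Diag

/-!
# Abstract systems of transversals and the diagonalisation theorem for them
-/

open Ordinal Cardinal Set Order

universe u

namespace Run7.h632

/-- `G x α` says that `x` is an admissible transversal of the levels below `α`. -/
structure GoodSys {T : Type u} [PartialOrder T] (κ : Cardinal.{u}) (ρ : T → Ordinal.{u})
    (G : Set T → Ordinal.{u} → Prop) : Prop where
  trans : ∀ {x : Set T} {α : Ordinal.{u}}, G x α → (∀ v ∈ x, ρ v < α) ∧
    (∀ ξ < α, ∃ v ∈ x, ρ v = ξ) ∧ (∀ v ∈ x, ∀ v' ∈ x, ρ v = ρ v' → v = v')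
  restr : ∀ {x : Set T} {α : Ordinal.{u}}, G x α → ∀ {ξ : Ordinal.{u}}, ξ ≤ α →
    G {v | v ∈ x ∧ ρ v < ξ} ξ
  node : ∀ {x : Set T} {β : Ordinal.{u}}, G x β → ∀ {u : T}, β ≤ ρ u →
    G (x ∪ {v | v < u ∧ β ≤ ρ v}) (ρ u)
  lt : ∀ {x : Set T} {α : Ordinal.{u}}, G x α → α < κ.ord
  small : ∀ α < κ.ord, #{x : Set T | G x α} < κ

/-- The tree of an abstract system of transversals. -/
abbrev AT {T : Type u} (G : Set T → Ordinal.{u} → Prop) : Type u :=
  {x : Set T // ∃ α, G x α}

/-- The level of a transversal. -/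
noncomputable def lw {T : Type u} {G : Set T → Ordinal.{u} → Prop} (x : AT G) : Ordinal.{u} :=
  Classical.choose x.2

section

variable {T : Type u} [PartialOrder T] {κ : Cardinal.{u}} {ρ : T → Ordinal.{u}}
  {G : Set T → Ordinal.{u} → Prop}

theorem lw_spec (x : AT G) : G x.1 (lw x) :=
  Classical.choose_spec x.2

theorem lw_eq (hG : GoodSys κ ρ G) {x : AT G} {α : Ordinal.{u}} (h : G x.1 α) : lw x = α := by
  have h' := lw_spec x
  rcases lt_trichotomy (lw x) α with h1 | h1 | h1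
  · obtain ⟨v, hv, hv'⟩ := (hG.trans h).2.1 _ h1
    exact absurd ((hG.trans h').1 v hv) (by rw [hv']; exact lt_irrefl _)
  · exact h1
  · obtain ⟨v, hv, hv'⟩ := (hG.trans h').2.1 _ h1
    exact absurd ((hG.trans h).1 v hv) (by rw [hv']; exact lt_irrefl _)

theorem ranked_AT (hG : GoodSys κ ρ G) : Ranked (AT G) (lw (G := G)) where
  mono := by
    intro x y hxy
    have hx := hG.trans (lw_spec x)
    have hy := hG.trans (lw_spec y)
    by_contra hcon
    push Not at hcon
    have hsub : x.1 ⊆ y.1 := hxy.le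
    have : y.1 ⊆ x.1 := by
      intro v hv
      obtain ⟨v', hv', h1⟩ := hx.2.1 (ρ v) ((hy.1 v hv).trans_le hcon)
      have := hy.2.2 v' (hsub hv') v hv h1
      rw [← this]
      exact hv'
    exact absurd hxy (not_lt_of_ge this)
  chain := by
    intro x y z hx hy
    have hx' := hG.trans (lw_spec x)
    have hy' := hG.trans (lw_spec y)
    have hz' := hG.trans (lw_spec z)
    rcases le_total (lw x) (lw y) with h | h
    · left
      intro v hv
      obtain ⟨v', hv', h1⟩ := hy'.2.1 (ρ v) ((hx'.1 v hv).trans_le h)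
      have := hz'.2.2 v' (hy hv') v (hx hv) h1
      rw [← this]
      exact hv'
    · right
      intro v hv
      obtain ⟨v', hv', h1⟩ := hx'.2.1 (ρ v) ((hy'.1 v hv).trans_le h)
      have := hz'.2.2 v' (hx hv') v (hy hv) h1
      rw [← this]
      exact hv'
  pred := by
    intro y α hα
    have hr := hG.restr (lw_spec y) hα.le
    let x : AT G := ⟨_, α, hr⟩
    have hx : lw x = α := lw_eq hG hr
    refine ⟨x, lt_of_le_of_ne ?_ ?_, hx⟩
    · intro v hv
      exact hv.1
    · intro h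
      rw [← h, hx] at hα
      exact lt_irrefl _ hα

theorem small_AT (hG : GoodSys κ ρ G) (α : Ordinal.{u}) (hα : α < κ.ord) :
    #{x : AT G | lw x = α} < κ := by
  refine lt_of_le_of_lt ?_ (hG.small α hα)
  refine Cardinal.mk_le_of_injective (f := fun x => ⟨x.1.1, ?_⟩) ?_
  · have := lw_spec x.1
    rw [x.2] at this
    exact this
  · intro x y hxy
    have := congrArg Subtype.val hxy
    exact Subtype.ext (Subtype.ext this)

/-- The union of a large chain of transversals. -/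
theorem union_AT (hG : GoodSys κ ρ G) (c : Set (AT G)) (hc : ∀ x ∈ c, ∀ y ∈ c, x ≤ y ∨ y ≤ x)
    (hcard : κ ≤ #c) : ∃ s : Set T, ∀ ξ < κ.ord, G {v | v ∈ s ∧ ρ v < ξ} ξ := by
  have hR := ranked_AT hG
  have hunb : ∀ α < κ.ord, ∃ x ∈ c, α ≤ lw x := fun α hα =>
    hR.unbounded_of_large hc hcard hα
  refine ⟨{v | ∃ x ∈ c, v ∈ x.1}, ?_⟩
  intro ξ hξ
  obtain ⟨x, hx, hx'⟩ := hunb ξ hξ
  have h1 := hG.restr (lw_spec x) hx'
  convert h1 using 1
  ext v
  simp only [Set.mem_ofPred_eq]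
  constructor
  · rintro ⟨⟨y, hy, hvy⟩, hv⟩
    refine ⟨?_, hv⟩
    rcases hc x hx y hy with h2 | h2
    · obtain ⟨v', hv', h3⟩ := (hG.trans (lw_spec x)).2.1 (ρ v) (hv.trans_le hx')
      have := (hG.trans (lw_spec y)).2.2 v' (h2 hv') v hvy h3
      rw [← this]
      exact hv'
    · exact h2 hvy
  · rintro ⟨hv, hv'⟩
    exact ⟨⟨x, hx, hv⟩, hv'⟩

end

end Run7.h632
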