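import Pool.Agent.Run7.h632.Abs

/-!
# The diagonalisation theorem for abstract systems of transversals
-/

open Ordinal Cardinal Set Order

universe u

namespace Run7.h632

section

variable {T : Type u} [PartialOrder T] {κ : Cardinal.{u}} {ρ : T → Ordinal.{u}}
  {G : Set T → Ordinal.{u} → Prop}

/-- The nodes `u` which are predicted by `F` from their own predecessors above the level of the
transversal `x`. -/
def PredA (ρ : T → Ordinal.{u}) (F : AT G → T) (x : AT G) : Set T :=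
  {u | lw x ≤ ρ u ∧ ∃ y : AT G, y.1 = x.1 ∪ {v | v < u ∧ lw x ≤ ρ v} ∧ F y = u}

theorem predA_aux (hT : Ranked T ρ) (hG : GoodSys κ ρ G) (F : AT G → T)
    (hF1 : ∀ x, ρ (F x) = lw x) (hF2 : ∀ x y, x < y → F x < F y) (x : AT G) {u w : T}
    (hu : u ∈ PredA ρ F x) (hwu : w ≤ u) (hw : lw x ≤ ρ w) : w ∈ PredA ρ F x := by
  obtain ⟨h1, y, hy, hyu⟩ := hu
  rcases hwu.eq_or_lt with rfl | hlt
  · exact ⟨h1, y, hy, hyu⟩
  have hgood := hG.node (lw_spec x) hw
  let z : AT G := ⟨_, _, hgood⟩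
  have hz : lw z = ρ w := lw_eq hG hgood
  have hyl : lw y = ρ u := by rw [← hF1 y, hyu]
  have hzy : z < y := by
    refine lt_of_le_of_ne ?_ ?_
    · intro v hv
      rw [hy]
      rcases hv with hv | hv
      · exact Or.inl hv
      · exact Or.inr ⟨hv.1.trans hlt, hv.2⟩
    · intro h
      have := hT.mono hlt
      rw [← hz, h, hyl] at this
      exact lt_irrefl _ this
  refine ⟨hw, z, rfl, ?_⟩
  have h3 := hF2 z y hzy
  rw [hyu] at h3
  exact hT.eq_of h3.le hlt.le (by rw [hF1, hz])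

theorem predA_unique (hT : Ranked T ρ) (hG : GoodSys κ ρ G) (F : AT G → T)
    (hF1 : ∀ x, ρ (F x) = lw x) (hF2 : ∀ x y, x < y → F x < F y) (x : AT G) :
    ∀ (α : Ordinal.{u}) (u w : T), u ∈ PredA ρ F x → w ∈ PredA ρ F x → ρ u = α → ρ w = α →
      u = w := by
  intro α
  induction α using WellFoundedLT.induction with
  | _ α ih =>
    intro u w hu hw hu' hw'
    have half : ∀ u w : T, u ∈ PredA ρ F x → w ∈ PredA ρ F x → ρ u = α → ρ w = α →
        {v | v < u ∧ lw x ≤ ρ v} ⊆ {v | v < w ∧ lw x ≤ ρ v} := by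
      rintro u w hu hw hu' hw' v ⟨hv, hv'⟩
      have h1 : ρ v < ρ w := by rw [hw', ← hu']; exact hT.mono hv
      obtain ⟨v', h2, h3⟩ := hT.pred h1
      have h4 := predA_aux hT hG F hF1 hF2 x hu hv.le hv'
      have h5 := predA_aux hT hG F hF1 hF2 x hw h2.le (by rw [h3]; exact hv')
      have := ih (ρ v) (by rw [← hw']; exact h1) v v' h4 h5 rfl h3
      rw [this]
      exact ⟨h2, by rw [h3]; exact hv'⟩
    have hset := Set.Subset.antisymm (half u w hu hw hu' hw') (half w u hw hu hw' hu')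
    obtain ⟨_, y, hy, hyu⟩ := hu
    obtain ⟨_, z, hz, hzw⟩ := hw
    have : y = z := Subtype.ext (by rw [hy, hz, hset])
    rw [← hyu, ← hzw, this]

theorem predA_small (hT : NA κ T ρ) (hG : GoodSys κ ρ G) (F : AT G → T)
    (hF1 : ∀ x, ρ (F x) = lw x) (hF2 : ∀ x y, x < y → F x < F y) (x : AT G) :
    #(PredA ρ F x) < κ := by
  apply hT.nochain
  have key : ∀ u ∈ PredA ρ F x, ∀ w ∈ PredA ρ F x, ρ u ≤ ρ w → u ≤ w := by
    intro u hu w hw huw
    have hw' : ∃ w' ≤ w, ρ w' = ρ u := by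
      rcases huw.eq_or_lt with h | h
      · exact ⟨w, le_rfl, h.symm⟩
      · obtain ⟨w', h1, h2⟩ := hT.pred h
        exact ⟨w', h1.le, h2⟩
    obtain ⟨w', h1, h2⟩ := hw'
    have h3 := predA_aux hT.toRanked hG F hF1 hF2 x hw h1 (by rw [h2]; exact hu.1)
    rw [predA_unique hT.toRanked hG F hF1 hF2 x (ρ u) u w' hu h3 rfl h2]
    exact h1
  intro u hu w hw
  rcases le_total (ρ u) (ρ w) with h | h
  · exact Or.inl (key u hu w hw h)
  · exact Or.inr (key w hw u hu h)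

/-- **Diagonalisation.** For every strictly increasing map `f` from the tree of an abstract system
of transversals to `T` there is a club `C` of limit ordinals such that every transversal `x` has a
node `u` on its level such that `x` is, on no final segment of any `γ ∈ C` below its level, equal
to the branch of `u`. -/
theorem diagA (hκ : κ.IsRegular) (hκ' : ℵ₀ < κ) (hT : NA κ T ρ) (hG : GoodSys κ ρ G)
    (f : AT G → T) (hf : ∀ x y, x < y → f x < f y) :
    ∃ C : Set Ordinal.{u}, IsClubIn κ.ord C ∧ (∀ γ ∈ C, IsSuccLimit γ) ∧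
      ∀ y : AT G, ∃ u, ρ u = lw y ∧ ∀ γ ∈ C, γ < lw y → ∀ η < γ,
        ¬ ∀ v, η ≤ ρ v → ρ v < γ → (v ∈ y.1 ↔ v < u) := by
  have hS := ranked_AT hG
  obtain ⟨F, hF1, -, hF2⟩ := hS.exists_level hT.toRanked f hf
  have hb : ∀ x : AT G, ∃ β < κ.ord, ∀ u ∈ PredA ρ F x, ρ u < β := by
    intro x
    obtain ⟨β, hβ, hβ'⟩ := exists_bound hκ (predA_small hT hG F hF1 hF2 x)
      (fun u => ρ u.1) (fun u => hT.lt u.1)
    exact ⟨β, hβ, fun u hu => hβ' ⟨u, hu⟩⟩
  choose b hb1 hb2 using hb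
  have hH : ∀ β : Ordinal.{u}, ∃ γ : Ordinal.{u}, β < κ.ord →
      (γ < κ.ord ∧ ∀ x : AT G, lw x = β → b x < γ) := by
    intro β
    by_cases hβ : β < κ.ord
    · obtain ⟨γ, hγ, hγ'⟩ := exists_bound hκ (small_AT hG β hβ)
        (fun x => b x.1) (fun x => hb1 x.1)
      exact ⟨γ, fun _ => ⟨hγ, fun x hx => hγ' ⟨x, hx⟩⟩⟩
    · exact ⟨0, fun h => absurd h hβ⟩
  choose H hH using hH
  refine ⟨_, isClubIn_closure hκ hκ' H (fun α hα => (hH α hα).1), fun γ hγ => hγ.2.1, ?_⟩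
  intro y
  refine ⟨F y, hF1 y, ?_⟩
  intro γ hγ hγδ η hη hagree
  have hx := hG.restr (lw_spec y) (hη.trans hγδ).le
  let x : AT G := ⟨_, η, hx⟩
  have hxl : lw x = η := lw_eq hG hx
  have hz := hG.restr (lw_spec y) hγδ.le
  let z : AT G := ⟨_, γ, hz⟩
  have hzl : lw z = γ := lw_eq hG hz
  have hzy : z < y := by
    refine lt_of_le_of_ne (fun v hv => hv.1) ?_
    intro h
    rw [← hzl, h] at hγδ
    exact lt_irrefl _ hγδ
  have hFz := hF2 z y hzy
  have hFzl : ρ (F z) = γ := by rw [hF1, hzl]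
  have hmem : F z ∈ PredA ρ F x := by
    refine ⟨by rw [hxl, hFzl]; exact hη.le, z, ?_, rfl⟩
    rw [hxl]
    ext v
    simp only [z, x, Set.mem_union, Set.mem_ofPred_eq]
    constructor
    · rintro ⟨hv, hv'⟩
      by_cases hc : ρ v < η
      · exact Or.inl ⟨hv, hc⟩
      · push Not at hc
        have h1 := (hagree v hc hv').mp hv
        exact Or.inr ⟨hT.lt_of h1.le hFz.le (by rw [hFzl]; exact hv'), hc⟩
    · rintro (⟨hv, hv'⟩ | ⟨hv, hv'⟩)
      · exact ⟨hv, hv'.trans hη⟩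
      · have h1 : ρ v < γ := by rw [← hFzl]; exact hT.mono hv
        exact ⟨(hagree v hv' h1).mpr (hv.trans hFz), h1⟩
  have h1 := hb2 x (F z) hmem
  rw [hFzl] at h1
  have h2 := (hH η (hη.trans (hγδ.trans (hG.lt (lw_spec y))))).2 x hxl
  have h3 := hγ.2.2 η hη
  exact absurd (h1.trans (h2.trans h3)) (lt_irrefl _)

end

end Run7.h632
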