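import Pool.Agent.Run7.h632.CG

/-!
# Transversals made of at most `θ` many pieces
-/

open Ordinal Cardinal Set Order

universe u

namespace Run7.h632

section

variable {θ : Cardinal.{u}} {T : Type u} [PartialOrder T] {ρ : T → Ordinal.{u}}
  {C : Ordinal.{u} → (succ θ).ord.ToType → Ordinal.{u}}
  {W : θ.ord.ToType → Ordinal.{u} → Ordinal.{u} → T}

/-- The least element of the ladder of `δ` above `ξ`. -/
noncomputable def nx (C : Ordinal.{u} → (succ θ).ord.ToType → Ordinal.{u})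
    (δ ξ : Ordinal.{u}) : Ordinal.{u} :=
  sInf {x | ∃ i, C δ i = x ∧ ξ < x}

theorem nx_spec {δ : Ordinal.{u}} (h : IsLad θ δ (C δ)) {ξ : Ordinal.{u}} (hξ : ξ < δ) :
    ∃ i, C δ i = nx C δ ξ ∧ ξ < nx C δ ξ := by
  have hA : {x | ∃ i, C δ i = x ∧ ξ < x}.Nonempty := by
    obtain ⟨i, hi⟩ := h.cof ξ hξ
    exact ⟨_, i, rfl, hi⟩
  exact csInf_mem hA

theorem nx_le {δ ξ : Ordinal.{u}} {i : (succ θ).ord.ToType} (h : ξ < C δ i) :
    nx C δ ξ ≤ C δ i :=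
  csInf_le' ⟨i, rfl, h⟩

theorem lt_nx {δ : Ordinal.{u}} (h : IsLad θ δ (C δ)) {ξ : Ordinal.{u}} (hξ : ξ < δ) :
    ξ < nx C δ ξ :=
  (nx_spec h hξ).choose_spec.2

theorem nx_lt {δ : Ordinal.{u}} (h : IsLad θ δ (C δ)) {ξ : Ordinal.{u}} (hξ : ξ < δ) :
    nx C δ ξ < δ := by
  obtain ⟨i, hi, _⟩ := nx_spec h hξ
  rw [← hi]
  exact h.lt i

theorem nx_mono {δ : Ordinal.{u}} (h : IsLad θ δ (C δ)) {ξ ζ : Ordinal.{u}} (hξζ : ξ ≤ ζ)
    (hζ : ζ < δ) : nx C δ ξ ≤ nx C δ ζ := by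
  obtain ⟨i, hi, hi'⟩ := nx_spec h hζ
  rw [← hi]
  exact nx_le (by rw [hi]; exact hξζ.trans_lt hi')

/-- The transversal which follows the node `W j δ a` between the ladder points. -/
def gg (ρ : T → Ordinal.{u}) (C : Ordinal.{u} → (succ θ).ord.ToType → Ordinal.{u})
    (W : θ.ord.ToType → Ordinal.{u} → Ordinal.{u} → T) (j : θ.ord.ToType)
    (δ : Ordinal.{u}) : Set T :=
  {v | ρ v < δ ∧ v < W j δ (nx C δ (ρ v))}

/-- `W` chooses nodes on the right levels. -/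
def WOK (ρ : T → Ordinal.{u}) (C : Ordinal.{u} → (succ θ).ord.ToType → Ordinal.{u})
    (W : θ.ord.ToType → Ordinal.{u} → Ordinal.{u} → T) : Prop :=
  ∀ δ < (succ (succ θ)).ord, IsLad θ δ (C δ) → ∀ j i, ρ (W j δ (C δ i)) = C δ i

theorem rho_W (hW : WOK ρ C W) {δ : Ordinal.{u}} (hδ : δ < (succ (succ θ)).ord)
    (h : IsLad θ δ (C δ)) (j : θ.ord.ToType) {ξ : Ordinal.{u}} (hξ : ξ < δ) :
    ρ (W j δ (nx C δ ξ)) = nx C δ ξ := by
  obtain ⟨i, hi, _⟩ := nx_spec h hξ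
  rw [← hi]
  exact hW δ hδ h j i

theorem gg_ex (hT : Ranked T ρ) (hW : WOK ρ C W) {δ : Ordinal.{u}}
    (hδ : δ < (succ (succ θ)).ord) (h : IsLad θ δ (C δ)) (j : θ.ord.ToType) {ξ : Ordinal.{u}}
    (hξ : ξ < δ) : ∃ v ∈ gg ρ C W j δ, ρ v = ξ := by
  have h1 : ξ < ρ (W j δ (nx C δ ξ)) := by
    rw [rho_W hW hδ h j hξ]
    exact lt_nx h hξ
  obtain ⟨v, hv, hv'⟩ := hT.pred h1
  refine ⟨v, ⟨by rw [hv']; exact hξ, ?_⟩, hv'⟩
  rw [hv']
  exact hv

theorem gg_uniq (hT : Ranked T ρ) {δ : Ordinal.{u}} {j : θ.ord.ToType} {v v' : T}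
    (hv : v ∈ gg ρ C W j δ) (hv' : v' ∈ gg ρ C W j δ) (h : ρ v = ρ v') : v = v' := by
  have h1 := hv.2
  rw [h] at h1
  exact hT.eq_of h1.le hv'.2.le h

/-- Pieces: final parts of branches of nodes and of the transversals `gg`. -/
def IsPiece (ρ : T → Ordinal.{u}) (C : Ordinal.{u} → (succ θ).ord.ToType → Ordinal.{u})
    (W : θ.ord.ToType → Ordinal.{u} → Ordinal.{u} → T) (p : Set T) : Prop :=
  (∃ w β, p = {v | v < w ∧ β ≤ ρ v}) ∨
    ∃ δ j β, δ < (succ (succ θ)).ord ∧ IsLad θ δ (C δ) ∧ p = {v | v ∈ gg ρ C W j δ ∧ β ≤ ρ v}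

theorem IsPiece.restr (hθ : ℵ₀ ≤ θ) (hT : Ranked T ρ) (hW : WOK ρ C W) {p : Set T}
    (hp : IsPiece ρ C W p) (ξ : Ordinal.{u}) :
    ∃ Q : Set (Set T), #Q ≤ θ ∧ (∀ q ∈ Q, IsPiece ρ C W q) ∧ {v | v ∈ p ∧ ρ v < ξ} = ⋃₀ Q := by
  have h1θ : (1 : Cardinal.{u}) ≤ θ := Cardinal.one_lt_aleph0.le.trans hθ
  have same : (∀ v ∈ p, ρ v < ξ) → ∃ Q : Set (Set T), #Q ≤ θ ∧ (∀ q ∈ Q, IsPiece ρ C W q) ∧
      {v | v ∈ p ∧ ρ v < ξ} = ⋃₀ Q := by
    intro h
    refine ⟨{p}, ?_, ?_, ?_⟩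
    · rw [Cardinal.mk_singleton]
      exact h1θ
    · intro q hq
      rw [Set.mem_singleton_iff] at hq
      rw [hq]
      exact hp
    · rw [Set.sUnion_singleton]
      ext v
      exact ⟨fun hv => hv.1, fun hv => ⟨hv, h v hv⟩⟩
  rcases hp with ⟨w, β, rfl⟩ | ⟨δ, j, β, hδ, hC, rfl⟩
  · by_cases hc : ρ w ≤ ξ
    · exact same (fun v hv => (hT.mono hv.1).trans_le hc)
    · push Not at hc
      obtain ⟨w', hw', hw''⟩ := hT.pred hc
      refine ⟨{{v | v < w' ∧ β ≤ ρ v}}, ?_, ?_, ?_⟩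
      · rw [Cardinal.mk_singleton]
        exact h1θ
      · intro q hq
        rw [Set.mem_singleton_iff] at hq
        exact Or.inl ⟨w', β, hq⟩
      · rw [Set.sUnion_singleton]
        ext v
        simp only [Set.mem_ofPred_eq]
        constructor
        · rintro ⟨⟨hv1, hv2⟩, hv3⟩
          exact ⟨hT.lt_of hv1.le hw'.le (by rw [hw'']; exact hv3), hv2⟩
        · rintro ⟨hv1, hv2⟩
          exact ⟨⟨hv1.trans hw', hv2⟩, by rw [← hw'']; exact hT.mono hv1⟩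
  · by_cases hc : δ ≤ ξ
    · exact same (fun v hv => hv.1.1.trans_le hc)
    · push Not at hc
      let I : Set (succ θ).ord.ToType := {i | C δ i < nx C δ ξ + 1}
      let q : I → Set T := fun i =>
        {v | v ∈ gg ρ C W j δ ∧ β ≤ ρ v ∧ ρ v < ξ ∧ nx C δ (ρ v) = C δ i}
      refine ⟨Set.range q, ?_, ?_, ?_⟩
      · refine Cardinal.mk_range_le.trans ?_
        exact hC.small _ (hC.add_one_lt (nx_lt hC hc))
      · rintro _ ⟨⟨i, hi⟩, rfl⟩
        by_cases hne : ∃ ζ, β ≤ ζ ∧ ζ < ξ ∧ nx C δ ζ = C δ i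
        · have hζ0 := csInf_mem (s := {ζ | β ≤ ζ ∧ ζ < ξ ∧ nx C δ ζ = C δ i}) hne
          set ζ0 := sInf {ζ | β ≤ ζ ∧ ζ < ξ ∧ nx C δ ζ = C δ i} with hζ0def
          have hw : ∃ w' ≤ W j δ (C δ i), ρ w' = min ξ (C δ i) := by
            have h3 := hW δ hδ hC j i
            rcases (min_le_right ξ (C δ i)).eq_or_lt with h4 | h4
            · exact ⟨_, le_rfl, by rw [h3, h4]⟩
            · obtain ⟨w', h5, h6⟩ := hT.pred (t := W j δ (C δ i)) (by rw [h3]; exact h4)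
              exact ⟨w', h5.le, h6⟩
          obtain ⟨w', hw1, hw2⟩ := hw
          refine Or.inl ⟨w', ζ0, ?_⟩
          ext v
          simp only [q, Set.mem_ofPred_eq]
          constructor
          · rintro ⟨hv1, hv2, hv3, hv4⟩
            have h5 : v < W j δ (C δ i) := by rw [← hv4]; exact hv1.2
            have h6 : ρ v < C δ i := by rw [← hv4]; exact lt_nx hC hv1.1
            refine ⟨hT.lt_of h5.le hw1 (by rw [hw2]; exact lt_min hv3 h6), ?_⟩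
            exact csInf_le' ⟨hv2, hv3, hv4⟩
          · rintro ⟨hv1, hv2⟩
            have h5 : ρ v < min ξ (C δ i) := by rw [← hw2]; exact hT.mono hv1
            have h6 : ρ v < ξ := h5.trans_le (min_le_left _ _)
            have h7 : ρ v < C δ i := h5.trans_le (min_le_right _ _)
            have h8 : nx C δ (ρ v) = C δ i := by
              apply le_antisymm (nx_le h7)
              rw [← hζ0.2.2]
              exact nx_mono hC hv2 (h6.trans hc)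
            refine ⟨⟨h6.trans hc, ?_⟩, hζ0.1.trans hv2, h6, h8⟩
            rw [h8]
            exact hv1.trans_le hw1
        · have hemp : q ⟨i, hi⟩ = ∅ := by
            rw [Set.eq_empty_iff_forall_notMem]
            rintro v ⟨_, hv2, hv3, hv4⟩
            exact hne ⟨ρ v, hv2, hv3, hv4⟩
          refine Or.inl ⟨W j δ (C δ i), C δ i, ?_⟩
          rw [hemp]
          symm
          rw [Set.eq_empty_iff_forall_notMem]
          rintro v ⟨hv1, hv2⟩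
          have h3 := hT.mono hv1
          rw [hW δ hδ hC j i] at h3
          exact absurd h3 (not_lt.mpr hv2)
      · ext v
        simp only [Set.mem_ofPred_eq, Set.mem_sUnion, Set.mem_range]
        constructor
        · rintro ⟨⟨hv1, hv2⟩, hv3⟩
          obtain ⟨i, hi, _⟩ := nx_spec hC hv1.1
          refine ⟨_, ⟨⟨i, ?_⟩, rfl⟩, hv1, hv2, hv3, hi.symm⟩
          show C δ i < nx C δ ξ + 1
          rw [hi]
          exact Order.lt_add_one_iff.mpr (nx_mono hC hv3.le hc)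
        · rintro ⟨_, ⟨⟨i, hi⟩, rfl⟩, hv1, hv2, hv3, _⟩
          exact ⟨⟨hv1, hv2⟩, hv3⟩

end

end Run7.h632
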