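import Pool.Agent.Run7.h632.BT

/-!
# Transversals made of at most `θ` many pieces form a narrow system
-/

open Ordinal Cardinal Set Order

universe u

namespace Run7.h632

section

variable {θ : Cardinal.{u}} {T : Type u} [PartialOrder T] {ρ : T → Ordinal.{u}}
  {C : Ordinal.{u} → (succ θ).ord.ToType → Ordinal.{u}}
  {W : θ.ord.ToType → Ordinal.{u} → Ordinal.{u} → T}

/-- The admissible transversals: those which are unions of at most `θ` many pieces. -/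
def GB (ρ : T → Ordinal.{u}) (C : Ordinal.{u} → (succ θ).ord.ToType → Ordinal.{u})
    (W : θ.ord.ToType → Ordinal.{u} → Ordinal.{u} → T) (x : Set T) (α : Ordinal.{u}) : Prop :=
  α < (succ (succ θ)).ord ∧ ((∀ v ∈ x, ρ v < α) ∧ (∀ ξ < α, ∃ v ∈ x, ρ v = ξ) ∧
    (∀ v ∈ x, ∀ v' ∈ x, ρ v = ρ v' → v = v')) ∧
    ∃ Q : Set (Set T), #Q ≤ θ ∧ (∀ p ∈ Q, IsPiece ρ C W p) ∧ x = ⋃₀ Q

theorem GB.restr (hθ : ℵ₀ ≤ θ) (hT : Ranked T ρ) (hW : WOK ρ C W) {x : Set T}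
    {α : Ordinal.{u}} (h : GB ρ C W x α) {ξ : Ordinal.{u}} (hξ : ξ ≤ α) :
    GB ρ C W {v | v ∈ x ∧ ρ v < ξ} ξ := by
  obtain ⟨hα, ⟨h1, h2, h3⟩, Q, hQ1, hQ2, hQ3⟩ := h
  refine ⟨hξ.trans_lt hα, ⟨fun v hv => hv.2, ?_, ?_⟩, ?_⟩
  · intro ζ hζ
    obtain ⟨v, hv, hv'⟩ := h2 ζ (hζ.trans_le hξ)
    exact ⟨v, ⟨hv, by rw [hv']; exact hζ⟩, hv'⟩
  · intro v hv v' hv' hvv
    exact h3 v hv.1 v' hv'.1 hvv
  · choose R hR1 hR2 hR3 using fun p : Q => (hQ2 p.1 p.2).restr hθ hT hW ξ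
    refine ⟨⋃ p : Q, R p, ?_, ?_, ?_⟩
    · refine (Cardinal.mk_iUnion_le _).trans ?_
      calc #Q * ⨆ p, #(R p) ≤ θ * θ := by
            refine mul_le_mul' hQ1 ?_
            exact ciSup_le' hR1
        _ = θ := Cardinal.mul_eq_self hθ
    · intro q hq
      obtain ⟨p, hp⟩ := Set.mem_iUnion.mp hq
      exact hR2 p q hp
    · ext v
      simp only [Set.mem_ofPred_eq, hQ3, Set.mem_sUnion, Set.mem_iUnion]
      constructor
      · rintro ⟨⟨p, hp, hv⟩, hv'⟩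
        have h4 : v ∈ {v | v ∈ p ∧ ρ v < ξ} := ⟨hv, hv'⟩
        rw [hR3 ⟨p, hp⟩] at h4
        obtain ⟨q, hq, hvq⟩ := h4
        exact ⟨q, ⟨⟨p, hp⟩, hq⟩, hvq⟩
      · rintro ⟨q, ⟨p, hp⟩, hvq⟩
        have h4 : v ∈ ⋃₀ R p := ⟨q, hp, hvq⟩
        rw [← hR3 p] at h4
        exact ⟨⟨p.1, p.2, h4.1⟩, h4.2⟩

theorem GB.node (hθ : ℵ₀ ≤ θ) (hT : Ranked T ρ) (hlt : ∀ t, ρ t < (succ (succ θ)).ord)
    {x : Set T} {β : Ordinal.{u}} (h : GB ρ C W x β) {u : T} (hu : β ≤ ρ u) :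
    GB ρ C W (x ∪ {v | v < u ∧ β ≤ ρ v}) (ρ u) := by
  obtain ⟨hα, ⟨h1, h2, h3⟩, Q, hQ1, hQ2, hQ3⟩ := h
  refine ⟨hlt u, ⟨?_, ?_, ?_⟩, Q ∪ {{v | v < u ∧ β ≤ ρ v}}, ?_, ?_, ?_⟩
  · rintro v (hv | hv)
    · exact (h1 v hv).trans_le hu
    · exact hT.mono hv.1
  · intro ξ hξ
    by_cases hc : ξ < β
    · obtain ⟨v, hv, hv'⟩ := h2 ξ hc
      exact ⟨v, Or.inl hv, hv'⟩
    · push Not at hc
      obtain ⟨v, hv, hv'⟩ := hT.pred hξ
      exact ⟨v, Or.inr ⟨hv, by rw [hv']; exact hc⟩, hv'⟩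
  · rintro v (hv | hv) v' (hv' | hv') hvv
    · exact h3 v hv v' hv' hvv
    · exact absurd (h1 v hv) (not_lt.mpr (by rw [hvv]; exact hv'.2))
    · exact absurd (h1 v' hv') (not_lt.mpr (by rw [← hvv]; exact hv.2))
    · exact hT.eq_of hv.1.le hv'.1.le hvv
  · refine (Cardinal.mk_union_le _ _).trans ?_
    rw [Cardinal.mk_singleton]
    calc #Q + 1 ≤ θ + θ := add_le_add hQ1 (Cardinal.one_lt_aleph0.le.trans hθ)
      _ = θ := Cardinal.add_eq_self hθ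
  · rintro p (hp | hp)
    · exact hQ2 p hp
    · rw [Set.mem_singleton_iff] at hp
      exact Or.inl ⟨u, β, hp⟩
  · rw [Set.sUnion_union, Set.sUnion_singleton, ← hQ3]

/-- There are at most `θ⁺` many pieces below a level. -/
theorem mk_pieces (hθ : ℵ₀ ≤ θ) (hT : NA (succ (succ θ)) T ρ) (hW : WOK ρ C W)
    {α : Ordinal.{u}} (hα : α < (succ (succ θ)).ord) :
    #{p : Set T | IsPiece ρ C W p ∧ ∀ v ∈ p, ρ v < α} ≤ succ θ := by
  classical
  have hθ' : ℵ₀ ≤ succ θ := hθ.trans (Order.le_succ θ)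
  have hreg := reg_kappa hθ
  have hα1 : α + 1 < (succ (succ θ)).ord := (isSuccLimit_ord hreg.aleph0_le).add_one_lt hα
  let A := (α + 1).ToType
  let o : A → Ordinal.{u} := fun i => ((Ordinal.ToType.mk.symm i : Iio (α + 1)) : Ordinal)
  have ho : ∀ β, β ≤ α → ∃ i : A, o i = β := by
    intro β hβ
    refine ⟨Ordinal.ToType.mk ⟨β, Order.lt_add_one_iff.mpr hβ⟩, ?_⟩
    simp [o]
  have hA : #A ≤ succ θ := Order.lt_succ_iff.mp (mk_toType_lt hα1)
  have hlev : #{w : T | ρ w < α + 1} ≤ succ θ := by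
    have hsub : {w : T | ρ w < α + 1} ⊆ ⋃ i : A, {w | ρ w = o i} := by
      intro w hw
      obtain ⟨i, hi⟩ := ho (ρ w) (Order.lt_add_one_iff.mp hw)
      exact Set.mem_iUnion.mpr ⟨i, hi.symm⟩
    refine (Cardinal.mk_le_mk_of_subset hsub).trans ?_
    refine (Cardinal.mk_iUnion_le _).trans ?_
    calc #A * ⨆ i : A, #{w | ρ w = o i} ≤ succ θ * succ θ := by
          refine mul_le_mul' hA (ciSup_le' fun i => ?_)
          apply Order.lt_succ_iff.mp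
          apply hT.small
          have : o i < α + 1 := (Ordinal.ToType.mk.symm i).2
          exact this.trans hα1
      _ = succ θ := Cardinal.mul_eq_self hθ'
  let F1 : {w : T | ρ w < α + 1} × A → Set T := fun p => {v | v < p.1.1 ∧ o p.2 ≤ ρ v}
  let F2 : A × θ.ord.ToType × A → Set T :=
    fun p => {v | v ∈ gg ρ C W p.2.1 (o p.1) ∧ o p.2.2 ≤ ρ v}
  have hsub : {p : Set T | IsPiece ρ C W p ∧ ∀ v ∈ p, ρ v < α} ⊆
      ({∅} ∪ Set.range F1) ∪ Set.range F2 := by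
    rintro p ⟨hp, hpα⟩
    rcases Set.eq_empty_or_nonempty p with hem | ⟨v0, hv0⟩
    · exact Or.inl (Or.inl hem)
    rcases hp with ⟨w, β, rfl⟩ | ⟨δ, j, β, hδ, hC, rfl⟩
    · left
      right
      have hβ : β ≤ α := hv0.2.trans (hpα v0 hv0).le
      have hw : ρ w < α + 1 := by
        by_contra hcon
        have h1 : α < ρ w := Order.add_one_le_iff.mp (not_lt.mp hcon)
        obtain ⟨v, hv, hv'⟩ := hT.pred h1
        have := hpα v ⟨hv, by rw [hv']; exact hβ⟩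
        rw [hv'] at this
        exact lt_irrefl _ this
      obtain ⟨i, hi⟩ := ho β hβ
      exact ⟨⟨⟨w, hw⟩, i⟩, by simp only [F1, hi]⟩
    · right
      have hβ : β ≤ α := hv0.2.trans (hpα v0 hv0).le
      have hδα : δ ≤ α := by
        by_contra hcon
        push Not at hcon
        obtain ⟨v, hv, hv'⟩ := gg_ex hT.toRanked hW hδ hC j hcon
        have := hpα v ⟨hv, by rw [hv']; exact hβ⟩
        rw [hv'] at this
        exact lt_irrefl _ this
      obtain ⟨i, hi⟩ := ho β hβ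
      obtain ⟨k, hk⟩ := ho δ hδα
      exact ⟨⟨k, j, i⟩, by simp only [F2, hi, hk]⟩
  refine (Cardinal.mk_le_mk_of_subset hsub).trans ?_
  have hsum : succ θ + succ θ = succ θ := Cardinal.add_eq_self hθ'
  have hmul : succ θ * succ θ = succ θ := Cardinal.mul_eq_self hθ'
  have hΘ : #θ.ord.ToType ≤ succ θ := by
    rw [Cardinal.mk_ord_toType]
    exact Order.le_succ θ
  have e1 : #(Set.range F1) ≤ succ θ := by
    refine Cardinal.mk_range_le.trans ?_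
    rw [Cardinal.mk_prod, Cardinal.lift_id, Cardinal.lift_id]
    exact (mul_le_mul' hlev hA).trans hmul.le
  have e2 : #(Set.range F2) ≤ succ θ := by
    refine Cardinal.mk_range_le.trans ?_
    rw [Cardinal.mk_prod, Cardinal.lift_id, Cardinal.lift_id, Cardinal.mk_prod, Cardinal.lift_id,
      Cardinal.lift_id]
    refine (mul_le_mul' hA ((mul_le_mul' hΘ hA).trans hmul.le)).trans hmul.le
  have e0 : #({∅} : Set (Set T)) ≤ succ θ := by
    rw [Cardinal.mk_singleton]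
    exact Cardinal.one_lt_aleph0.le.trans hθ'
  refine (Cardinal.mk_union_le _ _).trans ?_
  refine (add_le_add ((Cardinal.mk_union_le _ _).trans ((add_le_add e0 e1).trans hsum.le)) e2).trans
    hsum.le

end

end Run7.h632
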