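import Pool.Agent.Run7.h632.BT2

/-!
# The tree of transversals made of at most `θ` many pieces is Aronszajn
-/

open Ordinal Cardinal Set Order

universe u

namespace Run7.h632

section

variable {θ : Cardinal.{u}} {T : Type u} [PartialOrder T] {ρ : T → Ordinal.{u}}
  {C : Ordinal.{u} → (succ θ).ord.ToType → Ordinal.{u}}
  {W : θ.ord.ToType → Ordinal.{u} → Ordinal.{u} → T}

theorem small_GB (hθ : ℵ₀ ≤ θ) (h2 : (2 : Cardinal.{u}) ^ θ = succ θ)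
    (hT : NA (succ (succ θ)) T ρ) (hW : WOK ρ C W) {α : Ordinal.{u}}
    (hα : α < (succ (succ θ)).ord) : #{x : Set T | GB ρ C W x α} < succ (succ θ) := by
  have hθ' : ℵ₀ ≤ succ θ := hθ.trans (Order.le_succ θ)
  let P : Set (Set T) := {p : Set T | IsPiece ρ C W p ∧ ∀ v ∈ p, ρ v < α}
  have hP : #P ≤ succ θ := mk_pieces hθ hT hW hα
  have hex : ∀ x : {x : Set T | GB ρ C W x α}, ∃ Q : Set (Set T), (Q ⊆ P ∧ #Q ≤ θ) ∧
      x.1 = ⋃₀ Q := by
    rintro ⟨x, _, ⟨h1, _, _⟩, Q, hQ1, hQ2, hQ3⟩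
    refine ⟨Q, ⟨?_, hQ1⟩, hQ3⟩
    intro p hp
    refine ⟨hQ2 p hp, ?_⟩
    intro v hv
    apply h1
    rw [hQ3]
    exact ⟨p, hp, hv⟩
  choose Q hQ1 hQ2 using hex
  have hinj : Function.Injective (fun x => (⟨Q x, hQ1 x⟩ : {t : Set (Set T) // t ⊆ P ∧ #t ≤ θ})) := by
    intro x y hxy
    have h3 : Q x = Q y := congrArg Subtype.val hxy
    apply Subtype.ext
    rw [hQ2 x, hQ2 y, h3]
  refine (Cardinal.mk_le_of_injective hinj).trans_lt ?_
  refine (Cardinal.mk_bounded_subset_le P θ).trans_lt ?_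
  rw [Order.lt_succ_iff]
  calc max #P ℵ₀ ^ θ ≤ succ θ ^ θ := Cardinal.power_le_power_right (max_le hP hθ')
    _ = succ θ := by
      rw [← h2, ← Cardinal.power_mul, Cardinal.mul_eq_self hθ]

theorem goodSys_GB (hθ : ℵ₀ ≤ θ) (h2 : (2 : Cardinal.{u}) ^ θ = succ θ)
    (hT : NA (succ (succ θ)) T ρ) (hW : WOK ρ C W) :
    GoodSys (succ (succ θ)) ρ (GB ρ C W) where
  trans := fun h => h.2.1
  restr := fun h _ hξ => h.restr hθ hT.toRanked hW hξ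
  node := fun h _ hu => h.node hθ hT.toRanked hT.lt hu
  lt := fun h => h.1
  small := fun _α hα => small_GB hθ h2 hT hW hα

theorem GB_empty : GB ρ C W (∅ : Set T) 0 ↔ (0 : Ordinal.{u}) < (succ (succ θ)).ord := by
  constructor
  · exact fun h => h.1
  · intro h
    refine ⟨h, ⟨fun v hv => hv.elim, fun ξ hξ => absurd hξ not_lt_bot, fun v hv => hv.elim⟩,
      ∅, ?_, ?_, ?_⟩
    · rw [Cardinal.mk_eq_zero]
      exact bot_le
    · exact fun p hp => hp.elim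
    · rw [Set.sUnion_empty]

theorem GB_gg (hθ : ℵ₀ ≤ θ) (hT : NA (succ (succ θ)) T ρ) (hW : WOK ρ C W) {δ : Ordinal.{u}}
    (hδ : δ < (succ (succ θ)).ord) (hC : IsLad θ δ (C δ)) (j : θ.ord.ToType) :
    GB ρ C W (gg ρ C W j δ) δ := by
  refine ⟨hδ, ⟨fun v hv => hv.1, ?_, ?_⟩, {gg ρ C W j δ}, ?_, ?_, ?_⟩
  · intro ξ hξ
    obtain ⟨v, hv, hv'⟩ := gg_ex hT.toRanked hW hδ hC j hξ
    exact ⟨v, hv, hv'⟩
  · intro v hv v' hv' h
    exact gg_uniq hT.toRanked hv hv' h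
  · rw [Cardinal.mk_singleton]
    exact Cardinal.one_lt_aleph0.le.trans hθ
  · intro p hp
    rw [Set.mem_singleton_iff] at hp
    refine Or.inr ⟨δ, j, 0, hδ, hC, ?_⟩
    rw [hp]
    ext v
    simp
  · rw [Set.sUnion_singleton]

/-- A transversal of the levels below `δ` with `δ` of cofinality `θ⁺` ends with one piece. -/
theorem GB.last_piece (hθ : ℵ₀ ≤ θ) {x : Set T} {δ : Ordinal.{u}} (h : GB ρ C W x δ)
    {c : (succ θ).ord.ToType → Ordinal.{u}} (hc : IsLad θ δ c) :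
    ∃ p, IsPiece ρ C W p ∧ p ⊆ x ∧ ∀ ζ < δ, ∃ v ∈ p, ζ ≤ ρ v := by
  obtain ⟨hα, ⟨h1, h2, h3⟩, Q, hQ1, hQ2, hQ3⟩ := h
  by_contra hcon
  push Not at hcon
  have hQx : ∀ p ∈ Q, p ⊆ x := fun p hp => by
    rw [hQ3]
    exact Set.subset_sUnion_of_mem hp
  choose b hb1 hb2 using fun p : Q => hcon p.1 (hQ2 p.1 p.2) (hQx p.1 p.2)
  obtain ⟨β, hβ, hβ'⟩ := hc.bound hθ hQ1 b hb1
  obtain ⟨v, hv, hv'⟩ := h2 β hβ
  rw [hQ3] at hv
  obtain ⟨p, hp, hvp⟩ := hv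
  have h4 := (hb2 ⟨p, hp⟩ v hvp).trans (hβ' ⟨p, hp⟩)
  rw [hv'] at h4
  exact lt_irrefl _ h4

theorem nx_const {δ : Ordinal.{u}} (hC : IsLad θ δ (C δ)) {e η ζ : Ordinal.{u}} (he : e < δ)
    (hne : ∀ i, C δ i ≠ e) (hη : ∀ i, C δ i < e → C δ i ≤ η) (h1 : η ≤ ζ) (h2 : ζ < e) :
    nx C δ ζ = nx C δ e := by
  apply le_antisymm (nx_mono hC h2.le he)
  obtain ⟨i, hi, hi'⟩ := nx_spec hC (h2.trans he)
  have h3 : e < C δ i := by
    rcases lt_trichotomy (C δ i) e with h4 | h4 | h4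
    · have h5 := (hη i h4).trans h1
      rw [← hi] at hi'
      exact absurd hi' (not_lt.mpr h5)
    · exact absurd h4 (hne i)
    · exact h4
  rw [← hi]
  exact nx_le h3

theorem nochain_GB (hθ : ℵ₀ ≤ θ) (h2θ : (2 : Cardinal.{u}) ^ θ = succ θ)
    (hT : NA (succ (succ θ)) T ρ) (hW : WOK ρ C W) (c : Set (AT (GB ρ C W)))
    (hc : ∀ x ∈ c, ∀ y ∈ c, x ≤ y ∨ y ≤ x) : #c < succ (succ θ) := by
  by_contra hcard
  push Not at hcard
  have hreg := reg_kappa hθ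
  have hunc := unc_kappa hθ
  have hlim : IsSuccLimit (succ (succ θ)).ord := isSuccLimit_ord hreg.aleph0_le
  have hG := goodSys_GB hθ h2θ hT hW
  obtain ⟨s, hs⟩ := union_AT hG c hc hcard
  have hnc : ∀ β : Ordinal.{u}, ∃ p : T × T, β < (succ (succ θ)).ord → (p.1 ∈ s ∧ p.2 ∈ s ∧
      β ≤ ρ p.1 ∧ β ≤ ρ p.2 ∧ ¬ (p.1 ≤ p.2 ∨ p.2 ≤ p.1)) := by
    intro β
    by_cases hβ : β < (succ (succ θ)).ord
    swap
    · obtain ⟨t, _⟩ := hT.ex 0 hlim.bot_lt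
      exact ⟨(t, t), fun h => absurd h hβ⟩
    by_contra hcon
    have hch : ∀ v ∈ {v | v ∈ s ∧ β ≤ ρ v}, ∀ w ∈ {v | v ∈ s ∧ β ≤ ρ v}, v ≤ w ∨ w ≤ v := by
      rintro v ⟨hv, hv'⟩ w ⟨hw, hw'⟩
      by_contra h
      exact hcon ⟨(v, w), fun _ => ⟨hv, hw, hv', hw', h⟩⟩
    have h1 := hT.nochain _ hch
    have h2 : succ (succ θ) ≤ #{v | v ∈ s ∧ β ≤ ρ v} := by
      apply large_of_unbounded hreg hT.lt
      intro α hα
      have hmax : max α β < (succ (succ θ)).ord := max_lt hα hβ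
      obtain ⟨v, hv, hv'⟩ := (hG.trans (hs _ (hlim.add_one_lt hmax))).2.1
        (max α β) (lt_add_one _)
      exact ⟨v, ⟨hv.1, by rw [hv']; exact le_max_right _ _⟩, by rw [hv']; exact le_max_left _ _⟩
    exact absurd h1 (not_lt.mpr h2)
  choose p hp using hnc
  let H : Ordinal.{u} → Ordinal.{u} := fun β => max (ρ (p β).1) (ρ (p β).2)
  have hA := isClubIn_closure hreg hunc H (fun α _ => max_lt (hT.lt _) (hT.lt _))
  obtain ⟨E', hE', hsub, hgap⟩ := exists_gap hθ hA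
  obtain ⟨α, hαE, -, lad, hlad⟩ := exists_lad_mem hθ hE' hlim.bot_lt
  have hα : α < (succ (succ θ)).ord := hE'.lt _ hαE
  have hαA := hsub hαE
  have hx := hs α hα
  have hxtr := hG.trans hx
  obtain ⟨q, hq, hqx, hqc⟩ := hx.last_piece hθ hlad
  have hβα : ∀ β, (∀ v ∈ q, β ≤ ρ v) → β < α := by
    intro β hβ
    obtain ⟨v, hv, _⟩ := hqc 0 hαA.2.1.bot_lt
    exact (hβ v hv).trans_lt (hxtr.1 v (hqx hv))
  rcases hq with ⟨w, β, rfl⟩ | ⟨δ, j, β, hδ, hC, rfl⟩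
  · have hβ := hβα β (fun v hv => hv.2)
    obtain ⟨h1, h2, h3, h4, h5⟩ := hp β (hβ.trans hα)
    have hH : H β < α := hαA.2.2 β hβ
    have key : ∀ a ∈ s, β ≤ ρ a → ρ a < α → a < w := by
      intro a ha ha1 ha2
      obtain ⟨v, hv, hv'⟩ := hqc (ρ a) ha2
      obtain ⟨a', ha', ha''⟩ := hT.pred (hv'.trans_lt (hT.mono hv.1))
      have h6 : a' ∈ {v | v ∈ s ∧ ρ v < α} := hqx ⟨ha', by rw [ha'']; exact ha1⟩
      rw [hxtr.2.2 a ⟨ha, ha2⟩ a' h6 ha''.symm]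
      exact ha'
    have k1 := key _ h1 h3 ((le_max_left _ _).trans_lt hH)
    have k2 := key _ h2 h4 ((le_max_right _ _).trans_lt hH)
    exact h5 (hT.chain k1.le k2.le)
  · have hβ := hβα β (fun v hv => hv.2)
    have hδα : δ = α := by
      rcases lt_trichotomy δ α with h1 | h1 | h1
      · obtain ⟨v, hv, hv'⟩ := hqc δ h1
        exact absurd hv.1.1 (not_lt.mpr hv')
      · exact h1
      · obtain ⟨v, hv, hv'⟩ := gg_ex hT.toRanked hW hδ hC j h1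
        have := hxtr.1 v (hqx ⟨hv, by rw [hv']; exact hβ.le⟩)
        rw [hv'] at this
        exact absurd this (lt_irrefl _)
    subst hδα
    obtain ⟨e, heA, hβe, heα, hne, η, hη, hη'⟩ := hgap δ hαE _ hC β hβ
    have hη1 : max η β < e := max_lt hη hβe
    obtain ⟨h1, h2, h3, h4, h5⟩ := hp (max η β) (hη1.trans (heα.trans hα))
    have hH : H (max η β) < e := heA.2.2 _ hη1
    have key : ∀ a ∈ s, max η β ≤ ρ a → ρ a < e → a < W j δ (nx C δ e) := by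
      intro a ha ha1 ha2
      obtain ⟨a', ha', ha''⟩ := gg_ex hT.toRanked hW hδ hC j (ha2.trans heα)
      have h6 : a' ∈ {v | v ∈ s ∧ ρ v < δ} :=
        hqx ⟨ha', by rw [ha'']; exact (le_max_right _ _).trans ha1⟩
      have h7 := hxtr.2.2 a ⟨ha, ha2.trans heα⟩ a' h6 ha''.symm
      have h8 := ha'.2
      rw [ha'', nx_const hC heα hne hη' ((le_max_left _ _).trans ha1) ha2, ← h7] at h8
      exact h8
    have k1 := key _ h1 h3 ((le_max_left _ _).trans_lt hH)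
    have k2 := key _ h2 h4 ((le_max_right _ _).trans_lt hH)
    exact h5 (hT.chain k1.le k2.le)

theorem isAronszajn_GB (hθ : ℵ₀ ≤ θ) (h2θ : (2 : Cardinal.{u}) ^ θ = succ θ)
    (hT : NA (succ (succ θ)) T ρ) (hW : WOK ρ C W) :
    IsAronszajn (succ (succ θ)) (AT (GB ρ C W)) := by
  have hreg := reg_kappa hθ
  have hlim : IsSuccLimit (succ (succ θ)).ord := isSuccLimit_ord hreg.aleph0_le
  have hG := goodSys_GB hθ h2θ hT hW
  have hzero : GB ρ C W (∅ : Set T) 0 := GB_empty.mpr hlim.bot_lt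
  have hna : NA (succ (succ θ)) (AT (GB ρ C W)) (lw (G := GB ρ C W)) := by
    refine ⟨ranked_AT hG, fun x => hG.lt (lw_spec x), ?_, fun α hα => small_AT hG α hα,
      fun c hc => nochain_GB hθ h2θ hT hW c hc⟩
    intro α hα
    obtain ⟨u, hu⟩ := hT.ex α hα
    have h1 := hG.node hzero (u := u) bot_le
    refine ⟨⟨_, _, h1⟩, ?_⟩
    rw [lw_eq hG h1, hu]
  exact hna.isAronszajn ⟨⟨∅, 0, hzero⟩, fun x => Set.empty_subset x.1⟩

end

end Run7.h632
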