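import Pool.Agent.Run7.h632.Lad

/-!
# Club guessing on the points of cofinality `θ⁺` below `θ⁺⁺` (Shelah)
-/

open Ordinal Cardinal Set Order

universe u

namespace Run7.h632

section

variable {κ : Cardinal.{u}}

theorem club_countable_inter (hκ : κ.IsRegular) (hκ' : ℵ₀ < κ) (E : ℕ → Set Ordinal.{u})
    (hE : ∀ n, IsClubIn κ.ord (E n)) : ∃ E' : Set Ordinal.{u}, IsClubIn κ.ord E' ∧
      (∀ δ ∈ E', IsSuccLimit δ) ∧ ∀ n, E' ⊆ E n := by
  have hN : ∀ (n : ℕ) (β : Ordinal.{u}), ∃ γ, β < κ.ord → (γ ∈ E n ∧ β < γ) := by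
    intro n β
    by_cases hβ : β < κ.ord
    · obtain ⟨γ, h1, h2⟩ := (hE n).unbounded β hβ
      exact ⟨γ, fun _ => ⟨h1, h2⟩⟩
    · exact ⟨0, fun h => absurd h hβ⟩
  choose N hN using hN
  have hH : ∀ β : Ordinal.{u}, ∃ γ, β < κ.ord → (γ < κ.ord ∧ ∀ n, N n β < γ) := by
    intro β
    by_cases hβ : β < κ.ord
    · obtain ⟨γ, h1, h2⟩ := exists_bound hκ (ι := ULift.{u} ℕ) (by simpa using hκ')
        (fun n => N n.down β) (fun n => (hE _).lt _ (hN n.down β hβ).1)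
      exact ⟨γ, fun _ => ⟨h1, fun n => h2 ⟨n⟩⟩⟩
    · exact ⟨0, fun h => absurd h hβ⟩
  choose H hH using hH
  refine ⟨_, isClubIn_closure hκ hκ' H (fun α hα => (hH α hα).1), fun δ hδ => hδ.2.1, ?_⟩
  intro n δ hδ
  apply (hE n).closed δ hδ.1 hδ.2.1.ne_bot
  intro α hα
  have h1 := hN n α (hα.trans hδ.1)
  have h2 := (hH α (hα.trans hδ.1)).2 n
  exact ⟨N n α, h1.1, h1.2, h2.trans (hδ.2.2 α hα)⟩

theorem club_inter (hκ : κ.IsRegular) (hκ' : ℵ₀ < κ) {E E' : Set Ordinal.{u}}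
    (hE : IsClubIn κ.ord E) (hE' : IsClubIn κ.ord E') : IsClubIn κ.ord (E ∩ E') where
  lt := fun γ hγ => hE.lt γ hγ.1
  unbounded := by
    intro α hα
    obtain ⟨E'', h1, _, h3⟩ := club_countable_inter hκ hκ' (fun n => if n = 0 then E else E')
      (by
        intro n
        by_cases hn : n = 0
        · simp [hn, hE]
        · simp [hn, hE'])
    obtain ⟨γ, hγ, hγ'⟩ := h1.unbounded α hα
    refine ⟨γ, ⟨?_, ?_⟩, hγ'⟩
    · simpa using h3 0 hγ
    · simpa using h3 1 hγ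
  closed := by
    intro δ hδ h0 h
    refine ⟨hE.closed δ hδ h0 ?_, hE'.closed δ hδ h0 ?_⟩
    · intro α hα
      obtain ⟨γ, h1, h2⟩ := h α hα
      exact ⟨γ, h1.1, h2⟩
    · intro α hα
      obtain ⟨γ, h1, h2⟩ := h α hα
      exact ⟨γ, h1.2, h2⟩

/-- The supremum of `E ∩ α`. -/
noncomputable def gl (E : Set Ordinal.{u}) (α : Ordinal.{u}) : Ordinal.{u} :=
  sSup {x | x ∈ E ∧ x < α}

theorem gl_bdd (E : Set Ordinal.{u}) (α : Ordinal.{u}) : BddAbove {x | x ∈ E ∧ x < α} :=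
  ⟨α, fun _ hx => hx.2.le⟩

theorem gl_le (E : Set Ordinal.{u}) (α : Ordinal.{u}) : gl E α ≤ α :=
  csSup_le' (fun _ hx => hx.2.le)

theorem le_gl {E : Set Ordinal.{u}} {α x : Ordinal.{u}} (hx : x ∈ E) (h : x < α) : x ≤ gl E α :=
  le_csSup (gl_bdd E α) ⟨hx, h⟩

theorem gl_mono (E : Set Ordinal.{u}) {α β : Ordinal.{u}} (h : α ≤ β) : gl E α ≤ gl E β :=
  csSup_le' (fun _ hx => le_gl hx.1 (hx.2.trans_le h))

theorem gl_anti {E E' : Set Ordinal.{u}} (h : E' ⊆ E) (α : Ordinal.{u}) : gl E' α ≤ gl E α :=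
  csSup_le' (fun _ hx => le_gl (h hx.1) hx.2)

theorem gl_mem {Ω : Ordinal.{u}} {E : Set Ordinal.{u}} (hE : IsClubIn Ω E) {α : Ordinal.{u}}
    (hα : α < Ω) (hne : ∃ x ∈ E, x < α) : gl E α ∈ E := by
  by_cases hmax : ∃ x ∈ E, x < α ∧ gl E α ≤ x
  · obtain ⟨x, hx, hxα, hle⟩ := hmax
    rw [le_antisymm hle (le_gl hx hxα)]
    exact hx
  · push Not at hmax
    apply hE.closed
    · exact (gl_le E α).trans_lt hα
    · obtain ⟨x, hx, hxα⟩ := hne
      exact ((bot_le : (⊥ : Ordinal.{u}) ≤ x).trans_lt (hmax x hx hxα)).ne'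
    · intro β hβ
      obtain ⟨x, hx, hβx⟩ := exists_lt_of_lt_csSup (s := {x | x ∈ E ∧ x < α}) (by
        obtain ⟨x, hx, hxα⟩ := hne
        exact ⟨x, hx, hxα⟩) hβ
      exact ⟨x, hx.1, hβx, hmax x hx.1 hx.2⟩

end

section

variable {θ : Cardinal.{u}}

/-- All values of `C δ` form a ladder whenever `δ` has one. -/
def Valid (θ : Cardinal.{u}) (C : Ordinal.{u} → (succ θ).ord.ToType → Ordinal.{u}) : Prop :=
  ∀ δ, (∃ c, IsLad θ δ c) → IsLad θ δ (C δ)

/-- `C δ` guesses `E` at unboundedly many points of `C δ` which are isolated from below. -/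
def Guess (C : Ordinal.{u} → (succ θ).ord.ToType → Ordinal.{u}) (E : Set Ordinal.{u})
    (δ : Ordinal.{u}) : Prop :=
  ∀ β < δ, ∃ i, C δ i ∈ E ∧ β < C δ i ∧ ∃ η < C δ i, ∀ j, C δ j < C δ i → C δ j ≤ η

open Classical in
/-- Ladders pulled down to a club. -/
noncomputable def pullD (C : Ordinal.{u} → (succ θ).ord.ToType → Ordinal.{u})
    (E : Set Ordinal.{u}) (δ : Ordinal.{u}) (i : (succ θ).ord.ToType) : Ordinal.{u} :=
  if ∀ β < δ, ∃ x ∈ E, β < x ∧ x < δ then gl E (C δ i) else C δ i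

theorem exists_base (θ : Cardinal.{u}) :
    ∃ C : Ordinal.{u} → (succ θ).ord.ToType → Ordinal.{u}, Valid θ C := by
  classical
  refine ⟨fun δ => if h : ∃ c, IsLad θ δ c then Classical.choose h else fun _ => 0, ?_⟩
  intro δ h
  have := Classical.choose_spec h
  simpa [h] using this

theorem valid_pullD {C : Ordinal.{u} → (succ θ).ord.ToType → Ordinal.{u}} (hC : Valid θ C)
    (E : Set Ordinal.{u}) : Valid θ (pullD C E) := by
  intro δ hδ
  have h := hC δ hδ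
  by_cases hacc : ∀ β < δ, ∃ x ∈ E, β < x ∧ x < δ
  · refine ⟨?_, ?_, ?_⟩
    · intro i
      simp only [pullD, if_pos hacc]
      exact (gl_le _ _).trans_lt (h.lt i)
    · intro β hβ
      obtain ⟨x, hx, hβx, hxδ⟩ := hacc β hβ
      obtain ⟨i, hi⟩ := h.cof x hxδ
      refine ⟨i, ?_⟩
      simp only [pullD, if_pos hacc]
      exact hβx.trans_le (le_gl hx hi)
    · intro ξ hξ
      obtain ⟨x, hx, hξx, hxδ⟩ := hacc ξ hξ
      refine (Cardinal.mk_le_mk_of_subset ?_).trans (h.small (x + 1) (h.add_one_lt hxδ))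
      intro i hi
      have hi' : pullD C E δ i < ξ := hi
      simp only [pullD, if_pos hacc] at hi'
      show C δ i < x + 1
      by_contra hcon
      have h1 : x < C δ i := Order.add_one_le_iff.mp (not_lt.mp hcon)
      have h2 := le_gl hx h1
      exact absurd (h2.trans_lt hi') (not_lt.mpr hξx.le)
  · have : pullD C E δ = C δ := by
      funext i
      simp only [pullD, if_neg hacc]
    rw [this]
    exact h

/-- The key step: many points of the limit club lie in gaps of the ladder. -/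
theorem exists_gap (hθ : ℵ₀ ≤ θ) {E : Set Ordinal.{u}} (hE : IsClubIn (succ (succ θ)).ord E) :
    ∃ E' : Set Ordinal.{u}, IsClubIn (succ (succ θ)).ord E' ∧ E' ⊆ E ∧
      ∀ δ ∈ E', ∀ c, IsLad θ δ c → ∀ β < δ, ∃ e ∈ E, β < e ∧ e < δ ∧ (∀ j, c j ≠ e) ∧
        ∃ η < e, ∀ j, c j < e → c j ≤ η := by
  have hreg := reg_kappa hθ
  have hunc := unc_kappa hθ
  have hN : ∀ β : Ordinal.{u}, ∃ γ, β < (succ (succ θ)).ord → (γ ∈ E ∧ β < γ) := by
    intro β
    by_cases hβ : β < (succ (succ θ)).ord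
    · obtain ⟨γ, h1, h2⟩ := hE.unbounded β hβ
      exact ⟨γ, fun _ => ⟨h1, h2⟩⟩
    · exact ⟨0, fun h => absurd h hβ⟩
  choose N hN using hN
  have ha : ∀ β : Ordinal.{u}, ∃ a : (succ θ).ord.ToType → Ordinal.{u},
      β < (succ (succ θ)).ord → ((∀ l, a l ∈ E) ∧ (∀ l, β < a l) ∧
        ∀ l' l, l' < l → N (a l') < a l ∧ a l' < a l) := by
    intro β
    by_cases hβ : β < (succ (succ θ)).ord
    · obtain ⟨a, ha⟩ := exists_seq hθ hE N (fun α hα => hE.lt _ (hN α hα).1) hβ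
      exact ⟨a, fun _ => ha⟩
    · exact ⟨fun _ => 0, fun h => absurd h hβ⟩
  choose a ha using ha
  have hcl := isClubIn_closure hreg hunc (fun β => ⨆ l, a β l) (fun β hβ =>
    (seq_sup hθ hE (a β) (ha β hβ).1 (fun l' l h => ((ha β hβ).2.2 l' l h).2)).1)
  refine ⟨_, club_inter hreg hunc hE hcl, fun x hx => hx.1, ?_⟩
  rintro δ ⟨hδE, hδκ, hδlim, hδ⟩ c hc β hβ
  have hβκ := hβ.trans hδκ
  obtain ⟨h1, h2, h3⟩ := ha β hβκ
  obtain ⟨-, -, h4, -⟩ := seq_sup hθ hE (a β) h1 (fun l' l h => (h3 l' l h).2)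
  have hsup := hδ β hβ
  by_contra hcon
  push Not at hcon
  -- every point `N (a l)` is reached by the ladder from above `a l`
  have hbad : ∀ l, ∃ j, a β l < c j ∧ c j ≤ N (a β l) := by
    intro l
    have hal : a β l < (succ (succ θ)).ord := hE.lt _ (h1 l)
    obtain ⟨l', hl'⟩ := exists_gt_L hθ l
    have hNδ : N (a β l) < δ := ((h3 l l' hl').1.trans (h4 l')).trans hsup
    by_cases hj : ∃ j, c j = N (a β l)
    · obtain ⟨j, hj⟩ := hj
      exact ⟨j, by rw [hj]; exact (hN _ hal).2, hj.le⟩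
    · push Not at hj
      obtain ⟨j, hj1, hj2⟩ := hcon (N (a β l)) (hN _ hal).1 ((h2 l).trans (hN _ hal).2) hNδ hj
        (a β l) (hN _ hal).2
      exact ⟨j, hj2, hj1.le⟩
  choose j hj1 hj2 using hbad
  have hinj : Function.Injective (fun l => (⟨j l, (hj2 l).trans_lt (by
      obtain ⟨l', hl'⟩ := exists_gt_L hθ l
      exact (h3 l l' hl').1.trans (h4 l'))⟩ : {i | c i < ⨆ l, a β l})) := by
    intro l l' hll
    have hll' : j l = j l' := congrArg Subtype.val hll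
    by_contra hne
    rcases lt_or_gt_of_ne hne with h5 | h5
    · have h6 := (hj2 l).trans_lt ((h3 l l' h5).1.trans (hj1 l'))
      rw [hll'] at h6
      exact lt_irrefl _ h6
    · have h6 := (hj2 l').trans_lt ((h3 l' l h5).1.trans (hj1 l))
      rw [hll'] at h6
      exact lt_irrefl _ h6
  have h7 := Cardinal.mk_le_of_injective hinj
  rw [Cardinal.mk_ord_toType] at h7
  exact absurd (h7.trans (hc.small _ hsup)) (not_le.mpr (Order.lt_succ θ))

theorem club_Iio {κ : Cardinal.{u}} (hκ : ℵ₀ ≤ κ) : IsClubIn κ.ord (Set.Iio κ.ord) where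
  lt := fun _ h => h
  unbounded := fun α hα => ⟨α + 1, (isSuccLimit_ord hκ).add_one_lt hα, lt_add_one α⟩
  closed := fun _ hδ _ _ => hδ

/-- **Club guessing** (Shelah). There are ladders `C δ` of length `θ⁺` such that every club of
`θ⁺⁺` is guessed at unboundedly many isolated points of some `C δ`. -/
theorem club_guess (hθ : ℵ₀ ≤ θ) :
    ∃ C : Ordinal.{u} → (succ θ).ord.ToType → Ordinal.{u}, Valid θ C ∧
      ∀ E, IsClubIn (succ (succ θ)).ord E → ∃ δ ∈ E, (∃ c, IsLad θ δ c) ∧ Guess C E δ := by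
  have hreg := reg_kappa hθ
  have hunc := unc_kappa hθ
  by_contra hcon
  push Not at hcon
  obtain ⟨C0, hC0⟩ := exists_base θ
  choose B hB1 hB2 using fun E : Set Ordinal.{u} => hcon (pullD C0 E) (valid_pullD hC0 E)
  let E : ℕ → Set Ordinal.{u} := fun n =>
    Nat.rec (Set.Iio (succ (succ θ)).ord) (fun _ X => X ∩ B X) n
  have hE0 : E 0 = Set.Iio (succ (succ θ)).ord := rfl
  have hES : ∀ n, E (n + 1) = E n ∩ B (E n) := fun _ => rfl
  have hE : ∀ n, IsClubIn (succ (succ θ)).ord (E n) := by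
    intro n
    induction n with
    | zero =>
      rw [hE0]
      exact club_Iio hreg.aleph0_le
    | succ n ih =>
      rw [hES]
      exact club_inter hreg hunc ih (hB1 _)
  have hanti : ∀ n, E (n + 1) ⊆ E n := fun n x hx => by
    rw [hES] at hx
    exact hx.1
  obtain ⟨E', hE', -, hsub⟩ := club_countable_inter hreg hunc E hE
  obtain ⟨E'', hE'', hsub', hgap⟩ := exists_gap hθ hE'
  obtain ⟨δ, hδ, -, hlad⟩ := exists_lad_mem hθ hE'' (isSuccLimit_ord hreg.aleph0_le).bot_lt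
  have hδκ : δ < (succ (succ θ)).ord := hE''.lt _ hδ
  have hC := hC0 δ hlad
  have hacc : ∀ n, ∀ β < δ, ∃ x ∈ E n, β < x ∧ x < δ := by
    intro n β hβ
    obtain ⟨e, he, h1, h2, _⟩ := hgap δ hδ _ hC β hβ
    exact ⟨e, hsub n he, h1, h2⟩
  have hpull : ∀ n i, pullD C0 (E n) δ i = gl (E n) (C0 δ i) := by
    intro n i
    simp only [pullD, if_pos (hacc n)]
  have hP : ∀ β < δ, ∃ n i, pullD C0 (E n) δ i ∈ E (n + 1) ∧ β < pullD C0 (E n) δ i ∧
      ∃ η < pullD C0 (E n) δ i, ∀ j, pullD C0 (E n) δ j < pullD C0 (E n) δ i →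
        pullD C0 (E n) δ j ≤ η := by
    intro β hβ
    obtain ⟨e, he, hβe, heδ, hne, η, hη, hη'⟩ := hgap δ hδ _ hC β hβ
    have hA : {x | ∃ i, C0 δ i = x ∧ e < x}.Nonempty := by
      obtain ⟨i, hi⟩ := hC.cof e heδ
      exact ⟨_, i, rfl, hi⟩
    obtain ⟨i, hi, hαe⟩ := csInf_mem hA
    set α := sInf {x | ∃ i, C0 δ i = x ∧ e < x} with hα
    have hmin : ∀ j, e < C0 δ j → α ≤ C0 δ j := fun j hj => csInf_le' ⟨j, rfl, hj⟩
    have hst : ∃ n, gl (E n) α = gl (E (n + 1)) α := by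
      by_contra hno
      push Not at hno
      have hdec : ∀ n, gl (E (n + 1)) α < gl (E n) α := fun n =>
        lt_of_le_of_ne (gl_anti (hanti n) α) (hno n).symm
      exact (RelEmbedding.natGT (fun n => gl (E n) α) hdec).not_wellFounded
        Ordinal.lt_wf
    obtain ⟨n, hn⟩ := hst
    have hαδ : α < δ := by rw [← hi]; exact hC.lt i
    have hb : e ≤ gl (E n) α := le_gl (hsub n he) hαe
    refine ⟨n, i, ?_, ?_, η, ?_, ?_⟩
    · rw [hpull, hi, hn]
      exact gl_mem (hE (n + 1)) (hαδ.trans hδκ) ⟨e, hsub (n + 1) he, hαe⟩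
    · rw [hpull, hi]
      exact hβe.trans_le hb
    · rw [hpull, hi]
      exact hη.trans_le hb
    · intro j hj
      rw [hpull, hpull, hi] at hj
      rw [hpull]
      have h1 : C0 δ j < α := by
        by_contra h
        exact absurd hj (not_lt.mpr (gl_mono (E n) (not_lt.mp h)))
      have h2 : C0 δ j ≤ e := by
        by_contra h
        exact absurd h1 (not_lt.mpr (hmin j (not_le.mp h)))
      exact (gl_le _ _).trans (hη' j (lt_of_le_of_ne h2 (hne j)))
  -- pigeonhole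
  have hbad : ∀ n, ∃ β < δ, ∀ i, pullD C0 (E n) δ i ∈ B (E n) → β < pullD C0 (E n) δ i →
      ∀ η < pullD C0 (E n) δ i, ∃ j, pullD C0 (E n) δ j < pullD C0 (E n) δ i ∧
        η < pullD C0 (E n) δ j := by
    intro n
    have hmem : δ ∈ B (E n) := by
      have := hsub (n + 1) (hsub' hδ)
      rw [hES] at this
      exact this.2
    have h := hB2 (E n) δ hmem hlad
    unfold Guess at h
    push Not at h
    exact h
  choose b hb1 hb2 using hbad
  obtain ⟨β, hβ, hβ'⟩ := hC.bound hθ (ι := ULift.{u} ℕ) (by simpa using hθ)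
    (fun n => b n.down) (fun n => hb1 n.down)
  obtain ⟨n, i, h1, h2, η, h3, h4⟩ := hP β hβ
  rw [hES] at h1
  obtain ⟨j, hj1, hj2⟩ := hb2 n i h1.2 ((hβ' ⟨n⟩).trans h2) η h3
  exact absurd (h4 j hj1) (not_le.mpr hj2)

end

end Run7.h632
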