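import Pool.Agent.Run7.h632.Defs

/-!
# Closure clubs
-/

open Ordinal Cardinal Set Order

universe u

namespace Run7.h632

theorem exists_bound {κ : Cardinal.{u}} (hκ : κ.IsRegular) {ι : Type u} (hι : #ι < κ)
    (f : ι → Ordinal.{u}) (hf : ∀ i, f i < κ.ord) : ∃ β < κ.ord, ∀ i, f i < β := by
  have hlim : IsSuccLimit κ.ord := isSuccLimit_ord hκ.aleph0_le
  refine ⟨⨆ i, (f i + 1), ?_, ?_⟩
  · apply Ordinal.iSup_lt_of_lt_cof
    · rwa [hκ.cof_ord]
    · intro i
      exact hlim.add_one_lt (hf i)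
  · intro i
    have h1 : f i < f i + 1 := lt_add_one _
    exact h1.trans_le (Ordinal.le_iSup (fun i => f i + 1) i)

theorem mk_toType_lt {κ : Cardinal.{u}} {α : Ordinal.{u}} (h : α < κ.ord) :
    #(α.ToType) < κ := by
  rw [Cardinal.mk_toType]
  exact Cardinal.lt_ord.mp h

theorem exists_bound_below {κ : Cardinal.{u}} (hκ : κ.IsRegular) {α : Ordinal.{u}}
    (hα : α < κ.ord) (f : Ordinal.{u} → Ordinal.{u}) (hf : ∀ γ < α, f γ < κ.ord) :
    ∃ β < κ.ord, ∀ γ < α, f γ < β := by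
  obtain ⟨β, hβ, hβ'⟩ := exists_bound hκ (mk_toType_lt hα)
    (fun i : α.ToType => f ((Ordinal.ToType.mk.symm i : Iio α) : Ordinal))
    (fun i => hf _ (Ordinal.ToType.mk.symm i).2)
  refine ⟨β, hβ, fun γ hγ => ?_⟩
  have := hβ' (Ordinal.ToType.mk ⟨γ, hγ⟩)
  simpa using this

theorem isSuccLimit_of {δ : Ordinal.{u}} (h0 : δ ≠ 0) (h : ∀ α < δ, α + 1 < δ) :
    IsSuccLimit δ := by
  rw [Ordinal.isSuccLimit_iff]
  refine ⟨h0, ?_⟩
  rw [isSuccPrelimit_iff_succ_lt]
  intro a ha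
  exact h a ha

/-- The set of limit ordinals below `κ.ord` which are closed under `H` is closed unbounded. -/
theorem isClubIn_closure {κ : Cardinal.{u}} (hκ : κ.IsRegular) (hκ' : ℵ₀ < κ)
    (H : Ordinal.{u} → Ordinal.{u}) (hH : ∀ α < κ.ord, H α < κ.ord) :
    IsClubIn κ.ord {δ | δ < κ.ord ∧ IsSuccLimit δ ∧ ∀ α < δ, H α < δ} where
  lt := fun γ hγ => hγ.1
  unbounded := by
    intro α hα
    have hlim : IsSuccLimit κ.ord := isSuccLimit_ord hκ.aleph0_le
    have key : ∀ a : Ordinal.{u}, ∃ b : Ordinal.{u}, a < κ.ord →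
        (b < κ.ord ∧ a < b ∧ ∀ γ ≤ a, H γ < b) := by
      intro a
      by_cases ha : a < κ.ord
      · obtain ⟨β, hβ, hβ'⟩ := exists_bound_below hκ (hlim.add_one_lt ha)
          (fun γ => max (H γ) γ)
          (fun γ hγ => max_lt (hH γ (hγ.trans (hlim.add_one_lt ha))) (hγ.trans (hlim.add_one_lt ha)))
        refine ⟨β, fun _ => ⟨hβ, ?_, ?_⟩⟩
        · exact (le_max_right _ _).trans_lt (hβ' a (lt_add_one a))
        · intro γ hγ
          exact (le_max_left _ _).trans_lt (hβ' γ (Order.lt_add_one_iff.mpr hγ))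
      · exact ⟨0, fun h => absurd h ha⟩
    choose N hN using key
    let a : ℕ → Ordinal.{u} := fun n => Nat.rec α (fun _ x => N x) n
    have ha : ∀ n, a n < κ.ord := by
      intro n
      induction n with
      | zero => exact hα
      | succ n ih => exact (hN _ ih).1
    have hstep : ∀ n, a n < a (n+1) := fun n => (hN _ (ha n)).2.1
    have hH' : ∀ n, ∀ γ ≤ a n, H γ < a (n+1) := fun n => (hN _ (ha n)).2.2
    let f : ULift.{u} ℕ → Ordinal.{u} := fun n => a n.down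
    have hle : ∀ n, a n ≤ ⨆ i, f i := fun n => Ordinal.le_iSup f ⟨n⟩
    have hlt : ∀ n, a n < ⨆ i, f i := fun n => (hstep n).trans_le (hle (n+1))
    have hex : ∀ γ < ⨆ i, f i, ∃ n, γ < a n := by
      intro γ hγ
      obtain ⟨i, hi⟩ := Ordinal.lt_iSup_iff.mp hγ
      exact ⟨i.down, hi⟩
    refine ⟨⨆ i, f i, ⟨?_, ?_, ?_⟩, hlt 0⟩
    · apply Ordinal.iSup_lt_of_lt_cof
      · rw [hκ.cof_ord]
        simpa using hκ'
      · intro i
        exact ha i.down
    · apply isSuccLimit_of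
      · exact ((bot_le : (⊥ : Ordinal.{u}) ≤ α).trans_lt (hlt 0)).ne'
      · intro γ hγ
        obtain ⟨n, hn⟩ := hex γ hγ
        exact (Order.add_one_le_iff.mpr hn).trans_lt (hlt n)
    · intro γ hγ
      obtain ⟨n, hn⟩ := hex γ hγ
      exact (hH' n γ hn.le).trans (hlt (n+1))
  closed := by
    intro δ hδ h0 h
    refine ⟨hδ, ?_, ?_⟩
    · apply isSuccLimit_of h0
      intro α hα
      obtain ⟨γ, _, h2, h3⟩ := h α hα
      exact (Order.add_one_le_iff.mpr h2).trans_lt h3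
    · intro α hα
      obtain ⟨γ, h1, h2, h3⟩ := h α hα
      exact (h1.2.2 α h2).trans h3

end Run7.h632
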