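import Pool.Agent.Run7.h632.GoodTree

/-!
# Diagonalisation against all increasing maps from the tree of good transversals
-/

open Ordinal Cardinal Set Order

universe u

namespace Run7.h632

section

variable {S T : Type u} [PartialOrder S] [PartialOrder T] {σ : S → Ordinal.{u}}
  {ρ : T → Ordinal.{u}}

/-- A strictly increasing map does not decrease levels. -/
theorem Ranked.le_map (hS : Ranked S σ) (hT : Ranked T ρ) (f : S → T)
    (hf : ∀ x y, x < y → f x < f y) : ∀ (α : Ordinal.{u}) (x : S), σ x = α → σ x ≤ ρ (f x) := by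
  intro α
  induction α using WellFoundedLT.induction with
  | _ α ih =>
    intro x hx
    by_contra hcon
    push Not at hcon
    obtain ⟨y, hy, hy'⟩ := hS.pred hcon
    have h1 := ih (σ y) (by rw [← hx]; exact hS.mono hy) y rfl
    have h2 := hT.mono (hf y x hy)
    rw [← hy'] at h2
    exact absurd h2 (not_lt.mpr h1)

/-- The level-preserving version of a strictly increasing map. -/
theorem Ranked.exists_level (hS : Ranked S σ) (hT : Ranked T ρ) (f : S → T)
    (hf : ∀ x y, x < y → f x < f y) :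
    ∃ F : S → T, (∀ x, ρ (F x) = σ x) ∧ (∀ x, F x ≤ f x) ∧ ∀ x y, x < y → F x < F y := by
  have key : ∀ x : S, ∃ w : T, w ≤ f x ∧ ρ w = σ x := by
    intro x
    rcases (hS.le_map hT f hf _ x rfl).eq_or_lt with h | h
    · exact ⟨f x, le_rfl, h.symm⟩
    · obtain ⟨w, hw, hw'⟩ := hT.pred h
      exact ⟨w, hw.le, hw'⟩
  choose F hF using key
  refine ⟨F, fun x => (hF x).2, fun x => (hF x).1, ?_⟩
  intro x y hxy
  refine hT.lt_of ((hF x).1.trans (hf x y hxy).le) (hF y).1 ?_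
  rw [(hF x).2, (hF y).2]
  exact hS.mono hxy

end

section

variable {T : Type u} [PartialOrder T] {κ : Cardinal.{u}} {ρ : T → Ordinal.{u}}
  {D : Set Ordinal.{u}} {g : Ordinal.{u} → Set T}

/-- The nodes `u` which are predicted by `F` from their own predecessors above the level of the
good transversal `x`. -/
def Pred (F : GT ρ D g → T) (x : GT ρ D g) : Set T :=
  {u | lv x ≤ ρ u ∧ ∃ y : GT ρ D g, y.1 = x.1 ∪ {v | v < u ∧ lv x ≤ ρ v} ∧ F y = u}

theorem pred_aux (hT : Ranked T ρ) (hg : LocChain κ ρ D g) (F : GT ρ D g → T)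
    (hF1 : ∀ x, ρ (F x) = lv x) (hF2 : ∀ x y, x < y → F x < F y) (x : GT ρ D g) {u w : T}
    (hu : u ∈ Pred F x) (hwu : w ≤ u) (hw : lv x ≤ ρ w) : w ∈ Pred F x := by
  obtain ⟨h1, y, hy, hyu⟩ := hu
  rcases hwu.eq_or_lt with rfl | hlt
  · exact ⟨h1, y, hy, hyu⟩
  have hgood := (lv_spec x).node' hT hw
  let z : GT ρ D g := ⟨_, _, hgood⟩
  have hz : lv z = ρ w := lv_eq hT hg hgood
  have hyl : lv y = ρ u := by rw [← hF1 y, hyu]
  have hzy : z < y := by
    refine lt_of_le_of_ne ?_ ?_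
    · intro v hv
      rw [hy]
      rcases hv with hv | hv
      · exact Or.inl hv
      · exact Or.inr ⟨hv.1.trans hlt, hv.2⟩
    · intro h
      have := hT.mono hlt
      rw [← hz, h, hyl] at this
      exact lt_irrefl _ this
  refine ⟨hw, z, rfl, ?_⟩
  have h3 := hF2 z y hzy
  rw [hyu] at h3
  exact hT.eq_of h3.le hlt.le (by rw [hF1, hz])

theorem pred_unique (hT : Ranked T ρ) (hg : LocChain κ ρ D g) (F : GT ρ D g → T)
    (hF1 : ∀ x, ρ (F x) = lv x) (hF2 : ∀ x y, x < y → F x < F y) (x : GT ρ D g) :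
    ∀ (α : Ordinal.{u}) (u w : T), u ∈ Pred F x → w ∈ Pred F x → ρ u = α → ρ w = α → u = w := by
  intro α
  induction α using WellFoundedLT.induction with
  | _ α ih =>
    intro u w hu hw hu' hw'
    have hset : {v | v < u ∧ lv x ≤ ρ v} = {v | v < w ∧ lv x ≤ ρ v} := by
      ext v
      simp only [Set.mem_ofPred_eq]
      constructor
      · rintro ⟨hv, hv'⟩
        have h1 : ρ v < ρ w := by rw [hw', ← hu']; exact hT.mono hv
        obtain ⟨v', h2, h3⟩ := hT.pred h1
        have h4 := pred_aux hT hg F hF1 hF2 x hu hv.le hv'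
        have h5 := pred_aux hT hg F hF1 hF2 x hw h2.le (by rw [h3]; exact hv')
        have := ih (ρ v) (by rw [← hw']; exact h1) v v' h4 h5 rfl h3
        rw [this]
        exact ⟨h2, by rw [h3]; exact hv'⟩
      · rintro ⟨hv, hv'⟩
        have h1 : ρ v < ρ u := by rw [hu', ← hw']; exact hT.mono hv
        obtain ⟨v', h2, h3⟩ := hT.pred h1
        have h4 := pred_aux hT hg F hF1 hF2 x hw hv.le hv'
        have h5 := pred_aux hT hg F hF1 hF2 x hu h2.le (by rw [h3]; exact hv')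
        have := ih (ρ v) (by rw [← hu']; exact h1) v v' h4 h5 rfl h3
        rw [this]
        exact ⟨h2, by rw [h3]; exact hv'⟩
    obtain ⟨_, y, hy, hyu⟩ := hu
    obtain ⟨_, z, hz, hzw⟩ := hw
    have : y = z := Subtype.ext (by rw [hy, hz, hset])
    rw [← hyu, ← hzw, this]

theorem pred_small (hT : NA κ T ρ) (hg : LocChain κ ρ D g) (F : GT ρ D g → T)
    (hF1 : ∀ x, ρ (F x) = lv x) (hF2 : ∀ x y, x < y → F x < F y) (x : GT ρ D g) :
    #(Pred F x) < κ := by
  apply hT.nochain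
  have key : ∀ u ∈ Pred F x, ∀ w ∈ Pred F x, ρ u ≤ ρ w → u ≤ w := by
    intro u hu w hw huw
    have hw' : ∃ w' ≤ w, ρ w' = ρ u := by
      rcases huw.eq_or_lt with h | h
      · exact ⟨w, le_rfl, h.symm⟩
      · obtain ⟨w', h1, h2⟩ := hT.pred h
        exact ⟨w', h1.le, h2⟩
    obtain ⟨w', h1, h2⟩ := hw'
    have h3 := pred_aux hT.toRanked hg F hF1 hF2 x hw h1 (by rw [h2]; exact hu.1)
    rw [pred_unique hT.toRanked hg F hF1 hF2 x (ρ u) u w' hu h3 rfl h2]
    exact h1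
  intro u hu w hw
  rcases le_total (ρ u) (ρ w) with h | h
  · exact Or.inl (key u hu w hw h)
  · exact Or.inr (key w hw u hu h)

/-- **Diagonalisation.** For every strictly increasing map `f` from the tree of good transversals
to `T` there is a club `C` of limit ordinals such that for every `δ ∈ C ∩ D` there is a node `u` of
level `δ` in `T` below which `g δ` is, on no final segment of any `γ ∈ C ∩ δ`, equal to the
branch of `u`. -/
theorem diag (hκ : κ.IsRegular) (hκ' : ℵ₀ < κ) (hT : NA κ T ρ) (hg : LocChain κ ρ D g)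
    (f : GT ρ D g → T) (hf : ∀ x y, x < y → f x < f y) :
    ∃ C : Set Ordinal.{u}, IsClubIn κ.ord C ∧ (∀ γ ∈ C, IsSuccLimit γ) ∧
      ∀ δ ∈ C, δ ∈ D → ∃ u, ρ u = δ ∧ ∀ γ ∈ C, γ < δ → ∀ η < γ,
        ¬ ∀ v, η ≤ ρ v → ρ v < γ → (v ∈ g δ ↔ v < u) := by
  have hS := na_GT hκ hκ' hT hg
  obtain ⟨F, hF1, -, hF2⟩ := hS.toRanked.exists_level hT.toRanked f hf
  have hlim : IsSuccLimit κ.ord := isSuccLimit_ord hκ.aleph0_le
  -- bounds for the sets `Pred F x`
  have hb : ∀ x : GT ρ D g, ∃ β < κ.ord, ∀ u ∈ Pred F x, ρ u < β := by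
    intro x
    obtain ⟨β, hβ, hβ'⟩ := exists_bound hκ (pred_small hT hg F hF1 hF2 x)
      (fun u => ρ u.1) (fun u => hT.lt u.1)
    exact ⟨β, hβ, fun u hu => hβ' ⟨u, hu⟩⟩
  choose b hb1 hb2 using hb
  have hH : ∀ β : Ordinal.{u}, ∃ γ : Ordinal.{u}, β < κ.ord →
      (γ < κ.ord ∧ ∀ x : GT ρ D g, lv x = β → b x < γ) := by
    intro β
    by_cases hβ : β < κ.ord
    · obtain ⟨γ, hγ, hγ'⟩ := exists_bound hκ (hS.small β hβ)
        (fun x => b x.1) (fun x => hb1 x.1)
      exact ⟨γ, fun _ => ⟨hγ, fun x hx => hγ' ⟨x, hx⟩⟩⟩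
    · exact ⟨0, fun h => absurd h hβ⟩
  choose H hH using hH
  refine ⟨_, isClubIn_closure hκ hκ' H (fun α hα => (hH α hα).1), fun γ hγ => hγ.2.1, ?_⟩
  intro δ hδ hδD
  have hgood : Good ρ D g (∅ ∪ {v | v ∈ g δ ∧ 0 ≤ ρ v}) δ :=
    Good.lim Good.zero (hg.lim δ hδD).bot_lt hδD
  let y : GT ρ D g := ⟨_, δ, hgood⟩
  have hy : lv y = δ := lv_eq hT.toRanked hg hgood
  have hyg : y.1 = g δ := by
    simp only [y]
    ext v
    simp
  refine ⟨F y, by rw [hF1, hy], ?_⟩
  intro γ hγ hγδ η hη hagree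
  -- the restrictions of `g δ`
  have hx := (lv_spec y).restr hT.toRanked hg (ξ := η) (by rw [hy]; exact (hη.trans hγδ).le)
  let x : GT ρ D g := ⟨_, η, hx⟩
  have hxl : lv x = η := lv_eq hT.toRanked hg hx
  have hz := (lv_spec y).restr hT.toRanked hg (ξ := γ) (by rw [hy]; exact hγδ.le)
  let z : GT ρ D g := ⟨_, γ, hz⟩
  have hzl : lv z = γ := lv_eq hT.toRanked hg hz
  have hzy : z < y := by
    refine lt_of_le_of_ne (fun v hv => hv.1) ?_
    intro h
    rw [← hzl, h, hy] at hγδ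
    exact lt_irrefl _ hγδ
  have hFz := hF2 z y hzy
  have hFzl : ρ (F z) = γ := by rw [hF1, hzl]
  have hmem : F z ∈ Pred F x := by
    refine ⟨by rw [hxl, hFzl]; exact hη.le, z, ?_, rfl⟩
    rw [hxl]
    ext v
    simp only [z, x, Set.mem_union, Set.mem_ofPred_eq]
    constructor
    · rintro ⟨hv, hv'⟩
      by_cases hc : ρ v < η
      · exact Or.inl ⟨hv, hc⟩
      · push Not at hc
        rw [hyg] at hv
        have h1 := (hagree v hc hv').mp hv
        exact Or.inr ⟨hT.lt_of h1.le hFz.le (by rw [hFzl]; exact hv'), hc⟩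
    · rintro (⟨hv, hv'⟩ | ⟨hv, hv'⟩)
      · exact ⟨hv, hv'.trans hη⟩
      · have h1 : ρ v < γ := by rw [← hFzl]; exact hT.mono hv
        refine ⟨?_, h1⟩
        rw [hyg]
        exact (hagree v hv' h1).mpr (hv.trans hFz)
  have h1 := hb2 x (F z) hmem
  rw [hFzl] at h1
  have h2 := (hH η (hη.trans (hγδ.trans (hg.lt δ hδD)))).2 x hxl
  have h3 := hγ.2.2 η hη
  exact absurd (h1.trans (h2.trans h3)) (lt_irrefl _)

end

end Run7.h632
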