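import Pool.Agent.Run7.h632.HL
import Pool.Agent.Run7.h632.Diag

/-!
# Large continuum together with diamond refutes universal narrow `θ⁺⁺`-Aronszajn trees
-/

open Ordinal Cardinal Set Order

universe u

namespace Run7.h632

section

variable {T : Type u} [PartialOrder T] {κ : Cardinal.{u}} {ρ : T → Ordinal.{u}}
  {D : Set Ordinal.{u}} {g : Ordinal.{u} → Set T}

theorem locChain_limHL (hT : Ranked T ρ)
    (hD : ∀ δ ∈ D, δ < κ.ord ∧ IsSuccLimit δ ∧ ∃ l : ℕ → List T, (∀ n, Inc ρ (l n)) ∧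
      (∀ n, ∃ m, l (n + 1) = m ++ l n) ∧ (∀ n, top ρ (l n) < δ) ∧
      (∀ β < δ, ∃ n, β < top ρ (l n)) ∧ g δ = limHL ρ l) : LocChain κ ρ D g where
  lt := fun δ hδ => (hD δ hδ).1
  lim := fun δ hδ => (hD δ hδ).2.1
  mem_lt := by
    intro δ hδ v hv
    obtain ⟨-, -, l, h1, h2, h3, h4, h5⟩ := hD δ hδ
    rw [h5] at hv
    obtain ⟨n, hn⟩ := hv
    exact ((h1 n).mem_lt hT hn).trans (h3 n)
  loc := by
    intro δ hδ ξ hξ h0
    obtain ⟨-, -, l, h1, h2, h3, h4, h5⟩ := hD δ hδ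
    obtain ⟨n, hn⟩ := h4 ξ hξ
    obtain ⟨η, hη, w, hw, hloc⟩ := (h1 n).loc hT hn.le h0
    refine ⟨η, hη, w, hw, ?_⟩
    intro v hv1 hv2
    rw [h5, limHL_iff h1 h2 n (hv2.trans hn)]
    exact hloc v hv1 hv2

theorem mk_lists {θ : Cardinal.{u}} (hθ : ℵ₀ ≤ θ) (hT : NA (succ (succ θ)) T ρ)
    {α : Ordinal.{u}} (hα : α < (succ (succ θ)).ord) :
    #{p : List T × T | max (mx ρ p.1) (ρ p.2) < α} ≤ succ θ := by
  have hθ1 : ℵ₀ ≤ succ θ := hθ.trans (Order.le_succ θ)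
  have hreg := reg_kappa hθ
  let A := {t : T // ρ t < α}
  have hA : #A ≤ succ θ := by
    have h1 : #A ≤ #(Σ i : α.ToType, {t | ρ t = ((Ordinal.ToType.mk.symm i : Iio α) : Ordinal)}) := by
      refine Cardinal.mk_le_of_injective
        (f := fun t => ⟨Ordinal.ToType.mk ⟨ρ t.1, t.2⟩, ⟨t.1, by simp⟩⟩) ?_
      rintro ⟨t, ht⟩ ⟨t', ht'⟩ h
      simp only [Sigma.mk.injEq] at h
      obtain ⟨h3, h4⟩ := h
      have h5 : ρ t = ρ t' := by
        have := Ordinal.ToType.mk.injective h3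
        exact congrArg Subtype.val this
      have h6 : ∀ (a b : α.ToType) (hab : a = b)
          (x : {t | ρ t = ((Ordinal.ToType.mk.symm a : Iio α) : Ordinal)})
          (y : {t | ρ t = ((Ordinal.ToType.mk.symm b : Iio α) : Ordinal)}), HEq x y → x.1 = y.1 := by
        rintro a b rfl x y hxy
        rw [eq_of_heq hxy]
      exact Subtype.ext (h6 _ _ h3 _ _ h4)
    refine h1.trans ?_
    rw [Cardinal.mk_sigma]
    refine Order.lt_succ_iff.mp (Cardinal.sum_lt_of_isRegular hreg (mk_toType_lt hα) ?_)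
    intro i
    exact hT.small _ ((Ordinal.ToType.mk.symm i).2.trans hα)
  have key : ∀ l : List T, mx ρ l < α → ∃ l' : List A, l'.map Subtype.val = l := by
    intro l
    induction l with
    | nil => exact fun _ => ⟨[], rfl⟩
    | cons u l ih =>
      intro h
      obtain ⟨l', hl'⟩ := ih ((le_max_right _ _).trans_lt h)
      refine ⟨⟨u, (le_max_left _ _).trans_lt h⟩ :: l', ?_⟩
      simp [hl']
  have h2 : #{p : List T × T | max (mx ρ p.1) (ρ p.2) < α} ≤ #(List A × A) := by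
    have hch : ∀ p : {p : List T × T | max (mx ρ p.1) (ρ p.2) < α}, ∃ q : List A × A,
        q.1.map Subtype.val = p.1.1 ∧ q.2.1 = p.1.2 := by
      rintro ⟨⟨l, t⟩, hp⟩
      obtain ⟨l', hl'⟩ := key l ((le_max_left _ _).trans_lt hp)
      exact ⟨⟨l', ⟨t, (le_max_right _ _).trans_lt hp⟩⟩, hl', rfl⟩
    choose q hq1 hq2 using hch
    refine Cardinal.mk_le_of_injective (f := q) ?_
    intro p p' h
    apply Subtype.ext
    apply Prod.ext
    · rw [← hq1, ← hq1, h]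
    · rw [← hq2, ← hq2, h]
  refine h2.trans ?_
  rw [Cardinal.mk_prod, Cardinal.lift_id, Cardinal.lift_id]
  refine (mul_le_mul' (Cardinal.mk_list_le_max A) hA).trans ?_
  refine (mul_le_mul' (max_le hθ1 hA) le_rfl).trans ?_
  rw [Cardinal.mul_eq_self hθ1]

end

end Run7.h632
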