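import Pool.Agent.Run7.h632.AbsDiag

/-!
# Unions of fewer than `κ` systems of good transversals
-/

open Ordinal Cardinal Set Order

universe u

namespace Run7.h632

section

variable {T : Type u} [PartialOrder T] {κ : Cardinal.{u}} {ρ : T → Ordinal.{u}}
  {ι : Type u} {D : ι → Set Ordinal.{u}} {g : ι → Ordinal.{u} → Set T}

/-- The union of the systems of good transversals. -/
def UG (ρ : T → Ordinal.{u}) (D : ι → Set Ordinal.{u}) (g : ι → Ordinal.{u} → Set T)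
    (x : Set T) (α : Ordinal.{u}) : Prop := ∃ i, Good ρ (D i) (g i) x α

theorem goodSys_UG (hκ : κ.IsRegular) (hT : NA κ T ρ) (hι : #ι < κ)
    (hg : ∀ i, LocChain κ ρ (D i) (g i)) : GoodSys κ ρ (UG ρ D g) where
  trans := by
    rintro x α ⟨i, h⟩
    exact h.trans hT.toRanked (hg i)
  restr := by
    rintro x α ⟨i, h⟩ ξ hξ
    exact ⟨i, h.restr hT.toRanked (hg i) hξ⟩
  node := by
    rintro x β ⟨i, h⟩ u hu
    exact ⟨i, h.node' hT.toRanked hu⟩
  lt := by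
    rintro x α ⟨i, h⟩
    exact h.lt hT (hg i) (isSuccLimit_ord hκ.aleph0_le).bot_lt
  small := by
    intro α hα
    have hsub : {x : Set T | UG ρ D g x α} ⊆ ⋃ i, {x : Set T | Good ρ (D i) (g i) x α} := by
      rintro x ⟨i, h⟩
      exact Set.mem_iUnion.mpr ⟨i, h⟩
    refine (Cardinal.mk_le_mk_of_subset hsub).trans_lt ?_
    refine (Cardinal.mk_iUnion_le_sum_mk).trans_lt ?_
    exact Cardinal.sum_lt_of_isRegular hκ hι (fun i => small_GT hκ hT (hg i) α hα)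

theorem na_UG (hκ : κ.IsRegular) (hκ' : ℵ₀ < κ) (hT : NA κ T ρ) (hι : #ι < κ) [Nonempty ι]
    (hg : ∀ i, LocChain κ ρ (D i) (g i)) : NA κ (AT (UG ρ D g)) (lw (G := UG ρ D g)) where
  toRanked := ranked_AT (goodSys_UG hκ hT hι hg)
  lt := fun x => (goodSys_UG hκ hT hι hg).lt (lw_spec x)
  ex := by
    intro α hα
    have hG := goodSys_UG hκ hT hι hg
    obtain ⟨i⟩ := ‹Nonempty ι›
    rcases eq_or_ne α 0 with h0 | h0
    · subst h0
      exact ⟨⟨∅, 0, i, Good.zero⟩, lw_eq hG ⟨i, Good.zero⟩⟩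
    · obtain ⟨u, hu⟩ := hT.ex α hα
      have h1 : Good ρ (D i) (g i) (∅ ∪ {v | v < u ∧ 0 ≤ ρ v}) (ρ u) :=
        Good.node u Good.zero (by rw [hu]; exact bot_lt_iff_ne_bot.mpr h0)
      exact ⟨⟨_, _, i, h1⟩, by rw [lw_eq hG ⟨i, h1⟩, hu]⟩
  small := fun α hα => small_AT (goodSys_UG hκ hT hι hg) α hα
  nochain := by
    intro c hc
    by_contra hcard
    push Not at hcard
    have hG := goodSys_UG hκ hT hι hg
    obtain ⟨s, hs⟩ := union_AT hG c hc hcard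
    have hlim : IsSuccLimit κ.ord := isSuccLimit_ord hκ.aleph0_le
    -- one of the systems contains all the restrictions of `s`
    have hi : ∃ i, ∀ ξ < κ.ord, Good ρ (D i) (g i) {v | v ∈ s ∧ ρ v < ξ} ξ := by
      by_contra hcon
      push Not at hcon
      choose ξ hξ1 hξ2 using hcon
      obtain ⟨β, hβ, hβ'⟩ := exists_bound hκ hι ξ hξ1
      obtain ⟨i, hi⟩ := hs β hβ
      have h1 := hi.restr hT.toRanked (hg i) (hβ' i).le
      apply hξ2 i
      convert h1 using 1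
      ext v
      simp only [Set.mem_ofPred_eq]
      constructor
      · rintro ⟨h2, h3⟩
        exact ⟨⟨h2, h3.trans (hβ' i)⟩, h3⟩
      · rintro ⟨⟨h2, _⟩, h3⟩
        exact ⟨h2, h3⟩
    obtain ⟨i, hi⟩ := hi
    let y : Ordinal.{u} → Set T := fun ξ => {v | v ∈ s ∧ ρ v < ξ}
    let c' : Set (GT ρ (D i) (g i)) := {x | ∃ ξ < κ.ord, x.1 = y ξ}
    have h1 := nochain_GT hκ hκ' hT (hg i) c' (by
      rintro x ⟨ξ, _, hx⟩ x' ⟨ξ', _, hx'⟩
      rcases le_total ξ ξ' with h | h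
      · left
        intro v hv
        rw [hx] at hv
        rw [hx']
        exact ⟨hv.1, hv.2.trans_le h⟩
      · right
        intro v hv
        rw [hx'] at hv
        rw [hx]
        exact ⟨hv.1, hv.2.trans_le h⟩)
    have h2 : κ ≤ #c' := by
      apply large_of_unbounded (ρ := lv (ρ := ρ) (D := D i) (g := g i)) hκ
        (fun x => (lv_spec x).lt hT (hg i) hlim.bot_lt)
      intro α hα
      refine ⟨⟨y α, α, hi α hα⟩, ⟨α, hα, rfl⟩, ?_⟩
      rw [lv_eq hT.toRanked (hg i) (hi α hα)]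
    exact absurd h1 (not_lt.mpr h2)

theorem isAronszajn_UG (hκ : κ.IsRegular) (hκ' : ℵ₀ < κ) (hT : NA κ T ρ) (hι : #ι < κ)
    [Nonempty ι] (hg : ∀ i, LocChain κ ρ (D i) (g i)) : IsAronszajn κ (AT (UG ρ D g)) := by
  apply (na_UG hκ hκ' hT hι hg).isAronszajn
  obtain ⟨i⟩ := ‹Nonempty ι›
  exact ⟨⟨∅, 0, i, Good.zero⟩, fun x => Set.empty_subset x.1⟩

/-- **Diagonalisation**, with the level-preserving map made explicit. -/
theorem diagB {G : Set T → Ordinal.{u} → Prop}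
    (hκ : κ.IsRegular) (hκ' : ℵ₀ < κ) (hT : NA κ T ρ) (hG : GoodSys κ ρ G)
    (f : AT G → T) (hf : ∀ x y, x < y → f x < f y) :
    ∃ F : AT G → T, (∀ x, ρ (F x) = lw x) ∧ (∀ x y, x < y → F x < F y) ∧
      ∃ C : Set Ordinal.{u}, IsClubIn κ.ord C ∧ (∀ γ ∈ C, IsSuccLimit γ) ∧
        ∀ y : AT G, ∀ γ ∈ C, γ < lw y → ∀ η < γ,
          ¬ ∀ v, η ≤ ρ v → ρ v < γ → (v ∈ y.1 ↔ v < F y) := by
  have hS := ranked_AT hG
  obtain ⟨F, hF1, -, hF2⟩ := hS.exists_level hT.toRanked f hf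
  refine ⟨F, hF1, hF2, ?_⟩
  have hb : ∀ x : AT G, ∃ β < κ.ord, ∀ u ∈ PredA ρ F x, ρ u < β := by
    intro x
    obtain ⟨β, hβ, hβ'⟩ := exists_bound hκ (predA_small hT hG F hF1 hF2 x)
      (fun u => ρ u.1) (fun u => hT.lt u.1)
    exact ⟨β, hβ, fun u hu => hβ' ⟨u, hu⟩⟩
  choose b hb1 hb2 using hb
  have hH : ∀ β : Ordinal.{u}, ∃ γ : Ordinal.{u}, β < κ.ord →
      (γ < κ.ord ∧ ∀ x : AT G, lw x = β → b x < γ) := by
    intro β
    by_cases hβ : β < κ.ord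
    · obtain ⟨γ, hγ, hγ'⟩ := exists_bound hκ (small_AT hG β hβ)
        (fun x => b x.1) (fun x => hb1 x.1)
      exact ⟨γ, fun _ => ⟨hγ, fun x hx => hγ' ⟨x, hx⟩⟩⟩
    · exact ⟨0, fun h => absurd h hβ⟩
  choose H hH using hH
  refine ⟨_, isClubIn_closure hκ hκ' H (fun α hα => (hH α hα).1), fun γ hγ => hγ.2.1, ?_⟩
  intro y γ hγ hγδ η hη hagree
  have hx := hG.restr (lw_spec y) (hη.trans hγδ).le
  let x : AT G := ⟨_, η, hx⟩
  have hxl : lw x = η := lw_eq hG hx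
  have hz := hG.restr (lw_spec y) hγδ.le
  let z : AT G := ⟨_, γ, hz⟩
  have hzl : lw z = γ := lw_eq hG hz
  have hzy : z < y := by
    refine lt_of_le_of_ne (fun v hv => hv.1) ?_
    intro h
    rw [← hzl, h] at hγδ
    exact lt_irrefl _ hγδ
  have hFz := hF2 z y hzy
  have hFzl : ρ (F z) = γ := by rw [hF1, hzl]
  have hmem : F z ∈ PredA ρ F x := by
    refine ⟨by rw [hxl, hFzl]; exact hη.le, z, ?_, rfl⟩
    rw [hxl]
    ext v
    simp only [z, x, Set.mem_union, Set.mem_ofPred_eq]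
    constructor
    · rintro ⟨hv, hv'⟩
      by_cases hc : ρ v < η
      · exact Or.inl ⟨hv, hc⟩
      · push Not at hc
        have h1 := (hagree v hc hv').mp hv
        exact Or.inr ⟨hT.lt_of h1.le hFz.le (by rw [hFzl]; exact hv'), hc⟩
    · rintro (⟨hv, hv'⟩ | ⟨hv, hv'⟩)
      · exact ⟨hv, hv'.trans hη⟩
      · have h1 : ρ v < γ := by rw [← hFzl]; exact hT.mono hv
        exact ⟨(hagree v hv' h1).mpr (hv.trans hFz), h1⟩
  have h1 := hb2 x (F z) hmem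
  rw [hFzl] at h1
  have h2 := (hH η (hη.trans (hγδ.trans (hG.lt (lw_spec y))))).2 x hxl
  have h3 := hγ.2.2 η hη
  exact absurd (h1.trans (h2.trans h3)) (lt_irrefl _)

end

end Run7.h632
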