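import Pool.Agent.Run7.h632.PG2
import Pool.Agent.Run7.h632.UG
import Pool.Agent.Run7.h632.H4

/-!
# The codes of the test sequences along a pattern
-/

open Ordinal Cardinal Set Order

universe u v

namespace Run7.h632

/-- Codes of nodes. -/
abbrev Cd : Type u := LL.{u} × ℕ × ℕ × ℕ

section

variable {T : Type u} [PartialOrder T] {ρ : T → Ordinal.{u}}

/-- The node of a code. -/
def dec (e : Ordinal.{u} → LL.{u} → T) (rst : T → Ordinal.{u} → T) (γ : ℕ → ℕ → Ordinal.{u}) :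
    Cd.{u} → T := fun c => rst (e (γ c.2.1 0) c.1) (γ c.2.2.1 c.2.2.2)

/-- The codes of the tests number `0, …, k - 1` in the block `m`. -/
def blk (en : ℕ → LL.{u}) (m : ℕ) (c : List Cd.{u}) : ℕ → List Cd.{u}
  | 0 => c
  | k + 1 => (en k, m + 1, m, k + 1) :: blk en m c k

/-- The codes of the whole sequence. -/
def cl (en : ℕ → LL.{u}) (h : ℕ → ℕ) : ℕ → List Cd.{u}
  | 0 => [(en 0, 0, 0, 0)]
  | m + 1 => (en 0, m + 1, m + 1, 0) :: blk en m (cl en h m) (h m)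

theorem blk_append (en : ℕ → LL.{u}) (m : ℕ) (c : List Cd.{u}) (k k' : ℕ) :
    ∃ c', blk en m c (k + k') = c' ++ blk en m c k := by
  induction k' with
  | zero => exact ⟨[], rfl⟩
  | succ k' ih =>
    obtain ⟨c', hc'⟩ := ih
    refine ⟨(en (k + k'), m + 1, m, k + k' + 1) :: c', ?_⟩
    rw [← add_assoc]
    show (en (k + k'), m + 1, m, k + k' + 1) :: blk en m c (k + k') = _
    rw [hc']
    rfl

theorem blk_fst {en : ℕ → LL.{u}} {x : LL.{u}} (hen : ∀ k, en k < x) (m : ℕ) {c : List Cd.{u}}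
    (hc : ∀ p ∈ c, p.1 < x) (k : ℕ) : ∀ p ∈ blk en m c k, p.1 < x := by
  induction k with
  | zero => exact hc
  | succ k ih =>
    intro p hp
    rcases List.mem_cons.mp hp with h1 | h1
    · rw [h1]
      exact hen k
    · exact ih p h1

theorem cl_fst {en : ℕ → LL.{u}} {x : LL.{u}} (hen : ∀ k, en k < x) (h : ℕ → ℕ) (m : ℕ) :
    ∀ p ∈ cl en h m, p.1 < x := by
  induction m with
  | zero =>
    intro p hp
    rw [List.mem_singleton.mp hp]
    exact hen 0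
  | succ m ih =>
    intro p hp
    rcases List.mem_cons.mp hp with h1 | h1
    · rw [h1]
      exact hen 0
    · exact blk_fst hen m ih (h m) p h1

variable {e : Ordinal.{u} → LL.{u} → T} {rst : T → Ordinal.{u} → T} {κ : Cardinal.{u}}
  {δ : Ordinal.{u}} {γ : ℕ → ℕ → Ordinal.{u}}

theorem Pat.mono (h : Pat δ γ) (m : ℕ) {k k' : ℕ} (hk : k ≤ k') : γ m k ≤ γ m k' := by
  induction hk with
  | refl => exact le_rfl
  | step _ ih => exact ih.trans (h.2.1 _ _).le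

theorem dec_level (he : ∀ ε < κ.ord, ∀ i, ρ (e ε i) = ε)
    (hr : ∀ v ξ, ξ ≤ ρ v → rst v ξ ≤ v ∧ ρ (rst v ξ) = ξ) (hδ : δ < κ.ord) (h : Pat δ γ)
    (i : LL.{u}) {m m' k : ℕ} (hm : γ m' k ≤ γ m 0) :
    ρ (dec e rst γ (i, m, m', k)) = γ m' k := by
  apply (hr _ _ _).2
  rw [he _ ((h.1 m 0).trans hδ)]
  exact hm

theorem blk_inc (he : ∀ ε < κ.ord, ∀ i, ρ (e ε i) = ε)
    (hr : ∀ v ξ, ξ ≤ ρ v → rst v ξ ≤ v ∧ ρ (rst v ξ) = ξ) (hδ : δ < κ.ord) (h : Pat δ γ)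
    (en : ℕ → LL.{u}) (m : ℕ) {c : List Cd.{u}}
    (hc : Inc ρ (c.map (dec e rst γ)) ∧ top ρ (c.map (dec e rst γ)) = γ m 0) (k : ℕ) :
    Inc ρ ((blk en m c k).map (dec e rst γ)) ∧
      top ρ ((blk en m c k).map (dec e rst γ)) = γ m k := by
  induction k with
  | zero => exact hc
  | succ k ih =>
    have h1 : ρ (dec e rst γ (en k, m + 1, m, k + 1)) = γ m (k + 1) :=
      dec_level he hr hδ h _ (h.2.2.1 m (k + 1)).le
    refine ⟨⟨ih.1, ?_⟩, h1⟩
    rw [h1, ih.2]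
    exact h.2.1 m k

theorem cl_inc (he : ∀ ε < κ.ord, ∀ i, ρ (e ε i) = ε)
    (hr : ∀ v ξ, ξ ≤ ρ v → rst v ξ ≤ v ∧ ρ (rst v ξ) = ξ) (hδ : δ < κ.ord) (h : Pat δ γ)
    (h0 : γ 0 0 ≠ 0) (en : ℕ → LL.{u}) (hh : ℕ → ℕ) (m : ℕ) :
    Inc ρ ((cl en hh m).map (dec e rst γ)) ∧
      top ρ ((cl en hh m).map (dec e rst γ)) = γ m 0 := by
  induction m with
  | zero =>
    have h1 : ρ (dec e rst γ (en 0, 0, 0, 0)) = γ 0 0 := dec_level he hr hδ h _ le_rfl
    refine ⟨⟨trivial, ?_⟩, h1⟩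
    rw [h1]
    exact bot_lt_iff_ne_bot.mpr h0
  | succ m ih =>
    have h1 : ρ (dec e rst γ (en 0, m + 1, m + 1, 0)) = γ (m + 1) 0 :=
      dec_level he hr hδ h _ le_rfl
    have h2 := blk_inc he hr hδ h en m ih (hh m)
    refine ⟨⟨h2.1, ?_⟩, h1⟩
    rw [h1]
    show top ρ ((blk en m (cl en hh m) (hh m)).map (dec e rst γ)) < _
    rw [h2.2]
    exact h.2.2.1 m _

omit [PartialOrder T] in
theorem cl_ext (en : ℕ → LL.{u}) (hh : ℕ → ℕ) (m : ℕ) :
    ∃ c, (cl en hh (m + 1)).map (dec e rst γ) = c ++ (cl en hh m).map (dec e rst γ) := by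
  obtain ⟨c', hc'⟩ := blk_append en m (cl en hh m) 0 (hh m)
  rw [Nat.zero_add] at hc'
  refine ⟨(((en 0, m + 1, m + 1, 0) :: c') : List Cd.{u}).map (dec e rst γ), ?_⟩
  rw [← List.map_append]
  show ((en 0, m + 1, m + 1, 0) :: blk en m (cl en hh m) (hh m)).map (dec e rst γ) = _
  rw [hc']
  rfl

/-- The limit transversal agrees on the interval number `k` of the block `m` with the node number
`k` of the level of the next limit point. -/
theorem limHL_test (hT : Ranked T ρ) (he : ∀ ε < κ.ord, ∀ i, ρ (e ε i) = ε)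
    (hr : ∀ v ξ, ξ ≤ ρ v → rst v ξ ≤ v ∧ ρ (rst v ξ) = ξ) (hδ : δ < κ.ord) (h : Pat δ γ)
    (h0 : γ 0 0 ≠ 0) (en : ℕ → LL.{u}) (hh : ℕ → ℕ) {m k : ℕ} (hk : k < hh m) {u : T}
    (hu : e (γ (m + 1) 0) (en k) ≤ u) {v : T} (hv1 : γ m k ≤ ρ v) (hv2 : ρ v < γ m (k + 1)) :
    v ∈ limHL ρ (fun n => (cl en hh n).map (dec e rst γ)) ↔ v < u := by
  have hi : ∀ n, Inc ρ ((fun n => (cl en hh n).map (dec e rst γ)) n) :=
    fun n => (cl_inc he hr hδ h h0 en hh n).1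
  have hcm := cl_inc he hr hδ h h0 en hh m
  have hcm1 := cl_inc he hr hδ h h0 en hh (m + 1)
  have hb := blk_inc he hr hδ h en m hcm k
  have hb1 := blk_inc he hr hδ h en m hcm (k + 1)
  rw [limHL_iff hi (cl_ext en hh) (m + 1)
    (by rw [hcm1.2]; exact hv2.trans (h.2.2.1 m _))]
  obtain ⟨c', hc'⟩ := blk_append en m (cl en hh m) (k + 1) (hh m - (k + 1))
  have hadd : k + 1 + (hh m - (k + 1)) = hh m := by omega
  rw [hadd] at hc'
  have heq : (cl en hh (m + 1)).map (dec e rst γ) =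
      (((en 0, m + 1, m + 1, 0) :: c') : List Cd.{u}).map (dec e rst γ) ++
        (blk en m (cl en hh m) (k + 1)).map (dec e rst γ) := by
    rw [← List.map_append]
    show ((en 0, m + 1, m + 1, 0) :: blk en m (cl en hh m) (hh m)).map (dec e rst γ) = _
    rw [hc']
    rfl
  show v ∈ HL ρ ((cl en hh (m + 1)).map (dec e rst γ)) ↔ _
  have hinc := hcm1.1
  rw [heq] at hinc ⊢
  rw [hinc.mem_append (by rw [hb1.2]; exact hv2)]
  have hlev : ρ (dec e rst γ (en k, m + 1, m, k + 1)) = γ m (k + 1) :=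
    dec_level he hr hδ h _ (h.2.2.1 m (k + 1)).le
  have hle : dec e rst γ (en k, m + 1, m, k + 1) ≤ u := by
    refine le_trans (hr _ _ ?_).1 hu
    show γ m (k + 1) ≤ ρ (e (γ (m + 1) 0) (en k))
    rw [he _ ((h.1 (m + 1) 0).trans hδ)]
    exact (h.2.2.1 m (k + 1)).le
  show v ∈ HL ρ ((blk en m (cl en hh m) k).map (dec e rst γ)) ∪
    {v | v < dec e rst γ (en k, m + 1, m, k + 1) ∧
      top ρ ((blk en m (cl en hh m) k).map (dec e rst γ)) ≤ ρ v} ↔ v < u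
  constructor
  · rintro (h1 | h1)
    · have h2 := hb.1.mem_lt hT h1
      rw [hb.2] at h2
      exact absurd h2 (not_lt.mpr hv1)
    · exact h1.1.trans_le hle
  · intro h1
    right
    refine ⟨hT.lt_of h1.le hle (by rw [hlev]; exact hv2), ?_⟩
    rw [hb.2]
    exact hv1

end

end Run7.h632
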