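import Pool.Agent.Run7.h632.DN

/-!
# A weakly universal narrow `ℵ₂`-Aronszajn tree yields a dominating family of size `ℵ₁`
-/

open Ordinal Cardinal Set Order

universe u v

namespace Run7.h632

theorem countable_codes (i : LL.{u}) : {c : List Cd.{u} | ∀ p ∈ c, p.1 ≤ i}.Countable := by
  have h1 : Countable (Set.Iic i) := (countable_Iic_LL i).to_subtype
  have h2 : (Set.range (fun c : List (Set.Iic i × ℕ × ℕ × ℕ) =>
      (c.map (fun p => ((p.1.1, p.2) : Cd.{u}))))).Countable := Set.countable_range _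
  refine h2.mono ?_
  intro c hc
  induction c with
  | nil => exact ⟨[], rfl⟩
  | cons p c ih =>
    obtain ⟨c', hc'⟩ := ih (fun q hq => hc q (List.mem_cons_of_mem _ hq))
    refine ⟨(⟨p.1, hc p List.mem_cons_self⟩, p.2) :: c', ?_⟩
    simp only at hc'
    simp [hc']

theorem exists_max_code {x : LL.{u}} (hx : ∃ i, i < x) {c : List Cd.{u}}
    (hc : ∀ p ∈ c, p.1 < x) : ∃ i < x, ∀ p ∈ c, p.1 ≤ i := by
  induction c with
  | nil =>
    obtain ⟨i, hi⟩ := hx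
    exact ⟨i, hi, fun p hp => absurd hp List.not_mem_nil⟩
  | cons p c ih =>
    obtain ⟨i, hi, hi'⟩ := ih (fun q hq => hc q (List.mem_cons_of_mem _ hq))
    refine ⟨max i p.1, max_lt hi (hc p List.mem_cons_self), ?_⟩
    intro q hq
    rcases List.mem_cons.mp hq with h1 | h1
    · rw [h1]
      exact le_max_right _ _
    · exact (hi' q h1).trans (le_max_left _ _)

theorem no_universal_dominating {T : Type u} [PartialOrder T] {ρ : T → Ordinal.{u}}
    (hT : NA (succ (succ ℵ₀)) T ρ)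
    (hdom : ¬ ∃ D : Set (ℕ → ℕ), #D ≤ ℵ₁ ∧ ∀ f : ℕ → ℕ, ∃ g ∈ D, ∀ n, f n ≤ g n) :
    ∃ (S : Type u) (_ : PartialOrder S), IsAronszajn (succ (succ ℵ₀)) S ∧
      ¬ ∃ f : S → T, ∀ x y, x < y → f x < f y := by
  classical
  have hreg : (succ (succ (ℵ₀ : Cardinal.{u}))).IsRegular := reg_kappa le_rfl
  have hunc : ℵ₀ < succ (succ (ℵ₀ : Cardinal.{u})) := unc_kappa le_rfl
  have hlim : IsSuccLimit (succ (succ (ℵ₀ : Cardinal.{u}))).ord := isSuccLimit_ord hreg.aleph0_le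
  obtain ⟨C, hC⟩ := pattern_guess.{u}
  -- enumerations of the levels
  have he : ∀ ε : Ordinal.{u}, ∃ e : LL.{u} → T, ε < (succ (succ (ℵ₀ : Cardinal.{u}))).ord →
      (∀ i, ρ (e i) = ε) ∧ ∀ u, ρ u = ε → ∃ i, e i = u := by
    intro ε
    by_cases hε : ε < (succ (succ (ℵ₀ : Cardinal.{u}))).ord
    · obtain ⟨t, ht⟩ := hT.ex ε hε
      have h1 : #{t | ρ t = ε} ≤ #LL.{u} := by
        rw [Cardinal.mk_ord_toType]
        exact Order.lt_succ_iff.mp (hT.small ε hε)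
      obtain ⟨em⟩ := Cardinal.le_def _ _ |>.mp h1
      have : Nonempty {t | ρ t = ε} := ⟨⟨t, ht⟩⟩
      refine ⟨fun i => (Function.invFun em i).1, fun _ => ⟨fun i => (Function.invFun em i).2, ?_⟩⟩
      intro u hu
      obtain ⟨i, hi⟩ := Function.invFun_surjective em.injective ⟨u, hu⟩
      exact ⟨i, congrArg Subtype.val hi⟩
    · obtain ⟨t, _⟩ := hT.ex 0 hlim.bot_lt
      exact ⟨fun _ => t, fun h => absurd h hε⟩
  choose e he using he
  have he1 : ∀ ε < (succ (succ (ℵ₀ : Cardinal.{u}))).ord, ∀ i, ρ (e ε i) = ε :=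
    fun ε hε => (he ε hε).1
  -- restrictions
  have hr : ∀ (v : T) (ξ : Ordinal.{u}), ∃ w, ξ ≤ ρ v → w ≤ v ∧ ρ w = ξ := by
    intro v ξ
    by_cases h : ξ ≤ ρ v
    · rcases h.eq_or_lt with h1 | h1
      · exact ⟨v, fun _ => ⟨le_rfl, h1.symm⟩⟩
      · obtain ⟨w, hw, hw'⟩ := hT.pred h1
        exact ⟨w, fun _ => ⟨hw.le, hw'⟩⟩
    · exact ⟨v, fun h' => absurd h' h⟩
  choose rst hr using hr
  -- enumerations of the countable initial segments of `ω₁`
  have hen : ∀ x : LL.{u}, ∃ en : ℕ → LL.{u}, (Set.Iio x).Nonempty → Set.range en = Set.Iio x := by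
    intro x
    by_cases h : (Set.Iio x).Nonempty
    · obtain ⟨f, hf⟩ := (countable_Iio_LL x).exists_eq_range h
      exact ⟨f, fun _ => hf.symm⟩
    · exact ⟨fun _ => x, fun h' => absurd h' h⟩
  choose en hen using hen
  -- the numbers of tests
  have hh : ∀ (δ : Ordinal.{u}) (j x : LL.{u}), ∃ h : ℕ → ℕ,
      δ < (succ (succ (ℵ₀ : Cardinal.{u}))).ord → ∀ u, ρ u = δ →
        ∃ n, sInf {k | e (C δ j (n + 1) 0) (en x k) ≤ u} < h n := by
    intro δ j x
    by_cases hδ : δ < (succ (succ (ℵ₀ : Cardinal.{u}))).ord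
    · by_contra hcon
      apply hdom
      let φ : {u | ρ u = δ} → ℕ → ℕ := fun u n => sInf {k | e (C δ j (n + 1) 0) (en x k) ≤ u.1}
      refine ⟨Set.range φ, ?_, ?_⟩
      · have h1 := Cardinal.mk_range_le_lift (f := φ)
        have h2 : #{u | ρ u = δ} ≤ ℵ₁ := by
          rw [← Cardinal.succ_aleph0]
          exact Order.lt_succ_iff.mp (hT.small δ hδ)
        have h3 : Cardinal.lift.{0} #{u | ρ u = δ} ≤ ℵ₁ := by
          rw [Cardinal.lift_uzero]
          exact h2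
        have h4 := h1.trans h3
        rw [← Cardinal.lift_le.{u}]
        simpa using h4
      · intro f
        by_contra hf
        push Not at hf
        apply hcon
        refine ⟨f, fun _ u hu => ?_⟩
        obtain ⟨n, hn⟩ := hf (φ ⟨u, hu⟩) ⟨_, rfl⟩
        exact ⟨n, hn⟩
    · exact ⟨fun _ => 0, fun h => absurd h hδ⟩
  choose hh hhh using hh
  -- the systems
  let D : LL.{u} × LL.{u} → Set Ordinal.{u} := fun i =>
    {δ | δ < (succ (succ (ℵ₀ : Cardinal.{u}))).ord ∧ IsSuccLimit δ ∧ Pat δ (C δ i.1) ∧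
      C δ i.1 0 0 ≠ 0}
  let lst : Ordinal.{u} → LL.{u} × LL.{u} → ℕ → List T := fun δ i n =>
    (cl (en i.2) (hh δ i.1 i.2) n).map (dec e rst (C δ i.1))
  let g : LL.{u} × LL.{u} → Ordinal.{u} → Set T := fun i δ => limHL ρ (lst δ i)
  have hcl : ∀ i, ∀ δ ∈ D i, ∀ n, Inc ρ (lst δ i n) ∧ top ρ (lst δ i n) = C δ i.1 n 0 := by
    intro i δ hδ n
    exact cl_inc he1 hr hδ.1 hδ.2.2.1 hδ.2.2.2 _ _ n
  have hg : ∀ i, LocChain (succ (succ (ℵ₀ : Cardinal.{u}))) ρ (D i) (g i) := by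
    intro i
    apply locChain_limHL hT.toRanked
    intro δ hδ
    refine ⟨hδ.1, hδ.2.1, lst δ i, fun n => (hcl i δ hδ n).1, fun n => cl_ext _ _ n, ?_, ?_, rfl⟩
    · intro n
      rw [(hcl i δ hδ n).2]
      exact hδ.2.2.1.1 n 0
    · intro β hβ
      obtain ⟨n, hn⟩ := hδ.2.2.1.2.2.2 β hβ
      exact ⟨n, by rw [(hcl i δ hδ n).2]; exact hn⟩
  have hι : #(LL.{u} × LL.{u}) < succ (succ (ℵ₀ : Cardinal.{u})) := by
    rw [Cardinal.mk_prod, Cardinal.lift_id, Cardinal.mk_ord_toType,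
      Cardinal.mul_eq_self (Order.le_succ ℵ₀)]
    exact Order.lt_succ _
  obtain ⟨i0⟩ := nonempty_L.{u} (θ := ℵ₀) le_rfl
  have : Nonempty (LL.{u} × LL.{u}) := ⟨(i0, i0)⟩
  have hG := goodSys_UG hreg hT hι hg
  refine ⟨AT (UG ρ D g), inferInstance, isAronszajn_UG hreg hunc hT hι hg, ?_⟩
  rintro ⟨f, hf⟩
  obtain ⟨F, hF1, hF2, E, hE, hElim, hEd⟩ := diagB hreg hunc hT hG f hf
  obtain ⟨δ, hδE, j, hpat, hjE⟩ := hC E hE
  have hδκ := hE.lt δ hδE
  have hδlim := hElim δ hδE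
  -- the node of a list
  let nd : List T → AT (UG ρ D g) := fun l =>
    if h : Inc ρ l then ⟨HL ρ l, top ρ l, (i0, i0), h.good⟩ else ⟨∅, 0, (i0, i0), Good.zero⟩
  have hnd : ∀ l, Inc ρ l → (nd l).1 = HL ρ l := by
    intro l hl
    simp only [nd, dif_pos hl]
  have hndl : ∀ l, Inc ρ l → lw (nd l) = top ρ l := by
    intro l hl
    apply lw_eq hG
    rw [hnd l hl]
    exact ⟨(i0, i0), hl.good⟩
  have hΦ : ∀ l, Inc ρ l → ρ (F (nd l)) = top ρ l := fun l hl => by rw [hF1, hndl l hl]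
  -- closing off the index `x`
  have hind : ∀ (c : List Cd.{u}) (m : ℕ), ∃ i : LL.{u},
      Inc ρ (c.map (dec e rst (C δ j))) → top ρ (c.map (dec e rst (C δ j))) = C δ j m 0 →
        e (C δ j m 0) i = F (nd (c.map (dec e rst (C δ j)))) := by
    intro c m
    by_cases h : Inc ρ (c.map (dec e rst (C δ j))) ∧
        top ρ (c.map (dec e rst (C δ j))) = C δ j m 0
    · obtain ⟨i, hi⟩ := (he (C δ j m 0) ((hpat.1 m 0).trans hδκ)).2
        (F (nd (c.map (dec e rst (C δ j))))) (by rw [hΦ _ h.1, h.2])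
      exact ⟨i, fun _ _ => hi⟩
    · exact ⟨i0, fun h1 h2 => absurd ⟨h1, h2⟩ h⟩
  choose ind hind using hind
  have hb : ∀ i : LL.{u}, ∃ b, ∀ c : List Cd.{u}, (∀ p ∈ c, p.1 ≤ i) → ∀ m, ind c m < b := by
    intro i
    have := (countable_codes i).to_subtype
    obtain ⟨b, hb⟩ := LL_bound (ι := {c : List Cd.{u} | ∀ p ∈ c, p.1 ≤ i} × ℕ)
      (fun q => ind q.1.1 q.2)
    exact ⟨b, fun c hc m => hb (⟨c, hc⟩, m)⟩
  choose b hb using hb
  obtain ⟨x, hx0, hx⟩ := exists_closed_LL b i0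
  have hxne : (Set.Iio x).Nonempty := ⟨i0, hx0⟩
  have henx := hen x hxne
  have henlt : ∀ k, en x k < x := by
    intro k
    have : en x k ∈ Set.Iio x := by rw [← henx]; exact ⟨k, rfl⟩
    exact this
  -- the limit node
  have h00 : C δ j 0 0 ≠ 0 := (hElim _ (hjE 0 0)).ne_bot
  have hδD : δ ∈ D (j, x) := ⟨hδκ, hδlim, hpat, h00⟩
  have hgood : UG ρ D g (∅ ∪ {v | v ∈ g (j, x) δ ∧ 0 ≤ ρ v}) δ :=
    ⟨(j, x), Good.lim Good.zero hδlim.bot_lt hδD⟩
  let y : AT (UG ρ D g) := ⟨_, δ, hgood⟩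
  have hy : lw y = δ := lw_eq hG hgood
  have hyg : ∀ v, v ∈ y.1 ↔ v ∈ g (j, x) δ := by
    intro v
    simp only [y]
    constructor
    · rintro (h | h)
      · exact h.elim
      · exact h.1
    · intro h
      exact Or.inr ⟨h, bot_le⟩
  have hFy : ρ (F y) = δ := by rw [hF1, hy]
  have hlt : ∀ m, F (nd (lst δ (j, x) m)) < F y := by
    intro m
    apply hF2
    have h1 := hcl (j, x) δ hδD m
    refine lt_of_le_of_ne ?_ ?_
    · intro v hv
      rw [hnd _ h1.1] at hv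
      rw [hyg]
      exact ⟨m, hv⟩
    · intro h
      have h2 := hndl _ h1.1
      rw [h, hy, h1.2] at h2
      exact absurd (hpat.1 m 0) (by rw [← h2]; exact lt_irrefl _)
  have hidx : ∀ m, ∃ k, e (C δ j m 0) (en x k) ≤ F y := by
    intro m
    have h1 := hcl (j, x) δ hδD m
    have h2 := hind (cl (en x) (hh δ j x) m) m h1.1 h1.2
    obtain ⟨i, hi, hi'⟩ := exists_max_code ⟨i0, hx0⟩ (cl_fst henlt (hh δ j x) m)
    have h3 : ind (cl (en x) (hh δ j x) m) m < x := (hb i _ hi' m).trans (hx i hi)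
    have h4 : ind (cl (en x) (hh δ j x) m) m ∈ Set.range (en x) := by rw [henx]; exact h3
    obtain ⟨k, hk⟩ := h4
    refine ⟨k, ?_⟩
    rw [hk, h2]
    exact (hlt m).le
  obtain ⟨m, hm⟩ := hhh δ j x hδκ (F y) hFy
  have hmem : sInf {k | e (C δ j (m + 1) 0) (en x k) ≤ F y} ∈
      {k | e (C δ j (m + 1) 0) (en x k) ≤ F y} := Nat.sInf_mem (hidx (m + 1))
  refine hEd y (C δ j m (sInf {k | e (C δ j (m + 1) 0) (en x k) ≤ F y} + 1)) (hjE _ _) ?_
    (C δ j m (sInf {k | e (C δ j (m + 1) 0) (en x k) ≤ F y})) (hpat.2.1 _ _) ?_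
  · rw [hy]
    exact hpat.1 _ _
  · intro v hv1 hv2
    rw [hyg]
    exact limHL_test hT.toRanked he1 hr hδκ hpat h00 (en x) (hh δ j x) hm hmem hv1 hv2

end Run7.h632
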