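import Pool.Agent.Run7.h632.BT3

/-!
# No universal narrow Aronszajn tree on double successors `θ⁺⁺` with `2 ^ θ = θ⁺`
-/

open Ordinal Cardinal Set Order

universe u

namespace Run7.h632

theorem no_universal_double_succ {θ : Cardinal.{u}} (hθ : ℵ₀ ≤ θ)
    (h2θ : (2 : Cardinal.{u}) ^ θ = succ θ) (T : Type u) [PartialOrder T]
    (hT : IsAronszajn (succ (succ θ)) T) :
    ∃ (S : Type u) (_ : PartialOrder S), IsAronszajn (succ (succ θ)) S ∧
      ¬ ∃ f : S → T, ∀ x y, x < y → f x < f y := by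
  classical
  obtain ⟨ρ, hρ⟩ := hT.exists_na
  have hreg := reg_kappa hθ
  have hunc := unc_kappa hθ
  have hlim : IsSuccLimit (succ (succ θ)).ord := isSuccLimit_ord hreg.aleph0_le
  obtain ⟨C, hC, hguess⟩ := club_guess (θ := θ) hθ
  obtain ⟨φ, hφ⟩ := sierpinski hθ h2θ
  -- enumerations of the levels
  have he : ∀ δ : Ordinal.{u}, ∃ e : (succ θ).ord.ToType → T, δ < (succ (succ θ)).ord →
      (∀ l, ρ (e l) = δ) ∧ ∀ u, ρ u = δ → ∃ l, e l = u := by
    intro δ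
    by_cases hδ : δ < (succ (succ θ)).ord
    · obtain ⟨t, ht⟩ := hρ.ex δ hδ
      have h1 : #{t | ρ t = δ} ≤ #(succ θ).ord.ToType := by
        rw [Cardinal.mk_ord_toType]
        exact Order.lt_succ_iff.mp (hρ.small δ hδ)
      rw [Cardinal.le_def] at h1
      obtain ⟨g⟩ := h1
      have : Nonempty {t | ρ t = δ} := ⟨⟨t, ht⟩⟩
      refine ⟨fun l => (Function.invFun g l : {t | ρ t = δ}), fun _ => ⟨fun l => ?_, ?_⟩⟩
      · exact (Function.invFun g l : {t | ρ t = δ}).2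
      · intro u hu
        have hu' : u ∈ {t | ρ t = δ} := hu
        refine ⟨g ⟨u, hu'⟩, ?_⟩
        have h3 : Function.invFun g (g ⟨u, hu'⟩) = ⟨u, hu'⟩ :=
          Function.leftInverse_invFun g.injective _
        exact congrArg Subtype.val h3
    · obtain ⟨t, _⟩ := hρ.ex 0 hlim.bot_lt
      exact ⟨fun _ => t, fun h => absurd h hδ⟩
  choose e he using he
  -- indices of ladder points
  have hidx : ∀ δ a : Ordinal.{u}, ∃ i, (∃ i', C δ i' = a) → C δ i = a := by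
    intro δ a
    by_cases h : ∃ i', C δ i' = a
    · obtain ⟨i, hi⟩ := h
      exact ⟨i, fun _ => hi⟩
    · obtain ⟨i⟩ := nonempty_L hθ
      exact ⟨i, fun h' => absurd h' h⟩
  choose ix hix using hidx
  -- the nodes
  have hW : ∀ (j : θ.ord.ToType) (δ a : Ordinal.{u}), ∃ w : T,
      a < ρ (e δ (φ j (ix δ a))) → (w < e δ (φ j (ix δ a)) ∧ ρ w = a) := by
    intro j δ a
    by_cases h : a < ρ (e δ (φ j (ix δ a)))
    · obtain ⟨w, hw⟩ := hρ.pred h
      exact ⟨w, fun _ => hw⟩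
    · exact ⟨e δ (φ j (ix δ a)), fun h' => absurd h' h⟩
  choose W hW using hW
  have hWlt : ∀ δ < (succ (succ θ)).ord, ∀ j a, a < δ →
      (W j δ a < e δ (φ j (ix δ a)) ∧ ρ (W j δ a) = a) := by
    intro δ hδ j a ha
    apply hW
    rw [(he δ hδ).1]
    exact ha
  have hWOK : WOK ρ C W := fun δ hδ hlad j i => (hWlt δ hδ j _ (hlad.lt i)).2
  have hG := goodSys_GB hθ h2θ hρ hWOK
  refine ⟨AT (GB ρ C W), inferInstance, isAronszajn_GB hθ h2θ hρ hWOK, ?_⟩
  rintro ⟨f, hf⟩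
  obtain ⟨E, hE, -, hdiag⟩ := diagA hreg hunc hρ hG f hf
  obtain ⟨δ, hδE, hlad', hgu⟩ := hguess E hE
  have hlad : IsLad θ δ (C δ) := hC δ hlad'
  have hδ : δ < (succ (succ θ)).ord := hE.lt _ hδE
  -- the set of guessed indices is large
  let Y : Set (succ θ).ord.ToType := {l | C δ l ∈ E ∧ ix δ (C δ l) = l ∧
    ∃ η < C δ l, ∀ j, C δ j < C δ l → C δ j ≤ η}
  have hY : θ < #Y := by
    by_contra hcon
    push Not at hcon
    obtain ⟨β, hβ, hβ'⟩ := hlad.bound hθ hcon (fun l : Y => C δ l) (fun l => hlad.lt _)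
    obtain ⟨i, hi1, hi2, hi3⟩ := hgu β hβ
    have h1 : C δ (ix δ (C δ i)) = C δ i := hix δ (C δ i) ⟨i, rfl⟩
    have h2 : ix δ (C δ i) ∈ Y := by
      refine ⟨?_, ?_, ?_⟩
      · rw [h1]; exact hi1
      · rw [h1]
      · rw [h1]; exact hi3
    have h3 := hβ' ⟨_, h2⟩
    simp only [h1] at h3
    exact lt_asymm h3 hi2
  obtain ⟨j, hj⟩ := hφ Y hY
  have hgood : GB ρ C W (gg ρ C W j δ) δ := GB_gg hθ hρ hWOK hδ hlad j
  obtain ⟨u, hu, hno⟩ := hdiag ⟨_, δ, hgood⟩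
  have hlw : lw (⟨_, δ, hgood⟩ : AT (GB ρ C W)) = δ := lw_eq hG hgood
  rw [hlw] at hu hno
  obtain ⟨l, hl⟩ := (he δ hδ).2 u hu
  obtain ⟨l', ⟨hl'1, hl'2, η, hη, hη'⟩, hl'3⟩ := hj l
  set a := C δ l' with ha
  have haδ : a < δ := hlad.lt l'
  obtain ⟨hw1, hw2⟩ := hWlt δ hδ j a haδ
  rw [hl'2, hl'3, hl] at hw1
  apply hno a hl'1 haδ η hη
  intro v hv1 hv2
  have hnx : nx C δ (ρ v) = a := by
    apply le_antisymm
    · rw [ha]
      exact nx_le hv2
    · obtain ⟨i, hi, hi'⟩ := nx_spec hlad (hv2.trans haδ)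
      by_contra hcon
      push Not at hcon
      rw [← hi] at hcon hi'
      exact absurd hi' (not_lt.mpr ((hη' i hcon).trans hv1))
  constructor
  · rintro ⟨_, h2⟩
    rw [hnx] at h2
    exact h2.trans hw1
  · intro h2
    refine ⟨hv2.trans haδ, ?_⟩
    rw [hnx]
    exact hρ.lt_of h2.le hw1.le (by rw [hw2]; exact hv2)

end Run7.h632
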