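import Mathlib

/-!
# Trees, levels, heights and narrow Aronszajn trees

The definitions follow the problem file `MP_b51432_lc`.
-/

open Ordinal Cardinal Set

universe u

namespace Run7.h632

/-- A tree: a partial order with a least element in which the set of strict predecessors
of every element is well-ordered. -/
structure IsTree (T : Type u) [PartialOrder T] : Prop where
  exists_least : ∃ r : T, ∀ t : T, r ≤ t
  wo : ∀ t : T, IsWellOrder (Iio t) (fun x y => x < y)

/-- The subset `b` of `T` is well-ordered by `<` (hence linearly ordered) of order type `α`. -/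
def HasOrderType {T : Type u} [PartialOrder T] (b : Set T) (α : Ordinal.{u}) : Prop :=
  ∃ _ : IsWellOrder b (fun x y => x < y), Ordinal.type (fun x y : b => x < y) = α

/-- The `α`-th level: the elements whose set of strict predecessors has order type `α`. -/
def Lev (T : Type u) [PartialOrder T] (α : Ordinal.{u}) : Set T :=
  {t | HasOrderType (Iio t) α}

/-- The height: the least ordinal `κ` for which the level `κ` is empty. -/
noncomputable def height (T : Type u) [PartialOrder T] : Ordinal.{u} :=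
  sInf {α | Lev T α = ∅}

/-- A (narrow) `κ`-Aronszajn tree (to be used for regular uncountable `κ`): a tree of height `κ`
with all levels of size less than `κ` and without cofinal branch. -/
structure IsAronszajn (κ : Cardinal.{u}) (T : Type u) [PartialOrder T] : Prop where
  tree : IsTree T
  height_eq : height T = κ.ord
  card_lev : ∀ α < κ.ord, #(Lev T α) < κ
  no_branch : ¬ ∃ b : Set T, HasOrderType b κ.ord

/-- `C` is a closed unbounded subset of the limit ordinal `Ω`. -/
structure IsClubIn (Ω : Ordinal.{u}) (C : Set Ordinal.{u}) : Prop where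
  lt : ∀ γ ∈ C, γ < Ω
  unbounded : ∀ α < Ω, ∃ γ ∈ C, α < γ
  closed : ∀ δ < Ω, δ ≠ 0 → (∀ α < δ, ∃ γ ∈ C, α < γ ∧ γ < δ) → δ ∈ C

/-! ## Ranked orders -/

/-- `ρ` is the rank function of the tree order `T`. -/
structure Ranked (T : Type u) [PartialOrder T] (ρ : T → Ordinal.{u}) : Prop where
  mono : ∀ {s t : T}, s < t → ρ s < ρ t
  chain : ∀ {s s' t : T}, s ≤ t → s' ≤ t → s ≤ s' ∨ s' ≤ s
  pred : ∀ {t : T} {α : Ordinal.{u}}, α < ρ t → ∃ s, s < t ∧ ρ s = α

namespace Ranked

variable {T : Type u} [PartialOrder T] {ρ : T → Ordinal.{u}}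

theorem mono_le (h : Ranked T ρ) {s t : T} (hst : s ≤ t) : ρ s ≤ ρ t := by
  rcases hst.eq_or_lt with rfl | h1
  · exact le_rfl
  · exact (h.mono h1).le

theorem eq_of (h : Ranked T ρ) {s s' t : T} (h1 : s ≤ t) (h2 : s' ≤ t) (h3 : ρ s = ρ s') :
    s = s' := by
  rcases h.chain h1 h2 with h4 | h4
  · rcases h4.eq_or_lt with h5 | h5
    · exact h5
    · exact absurd h3 (h.mono h5).ne
  · rcases h4.eq_or_lt with h5 | h5
    · exact h5.symm
    · exact absurd h3.symm (h.mono h5).ne

theorem lt_of (h : Ranked T ρ) {s s' t : T} (h1 : s ≤ t) (h2 : s' ≤ t) (h3 : ρ s < ρ s') :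
    s < s' := by
  rcases h.chain h1 h2 with h4 | h4
  · exact lt_of_le_of_ne h4 (fun h5 => by simp [h5] at h3)
  · exact absurd (h.mono_le h4) (not_le.mpr h3)

theorem le_of (h : Ranked T ρ) {s s' t : T} (h1 : s ≤ t) (h2 : s' ≤ t) (h3 : ρ s ≤ ρ s') :
    s ≤ s' := by
  rcases h3.eq_or_lt with h4 | h4
  · exact (h.eq_of h1 h2 h4).le
  · exact (h.lt_of h1 h2 h4).le

theorem wellFounded (h : Ranked T ρ) : WellFounded (fun x y : T => x < y) :=
  Subrelation.wf (r := fun x y => ρ x < ρ y) (fun hxy => h.mono hxy)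
    (InvImage.wf ρ Ordinal.lt_wf)

theorem chain_wo (h : Ranked T ρ) {b : Set T} (hb : ∀ x ∈ b, ∀ y ∈ b, x ≤ y ∨ y ≤ x) :
    IsWellOrder b (fun x y => x < y) where
  trichotomous := by
    rintro ⟨x, hx⟩ ⟨y, hy⟩ h1 h2
    rcases hb x hx y hy with h3 | h3
    · rcases h3.eq_or_lt with h4 | h4
      · exact Subtype.ext h4
      · exact absurd h4 h1
    · rcases h3.eq_or_lt with h4 | h4
      · exact Subtype.ext h4.symm
      · exact absurd h4 h2
  wf := InvImage.wf (fun x : b => (x : T)) h.wellFounded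

theorem hasOrderType (h : Ranked T ρ) (t : T) : HasOrderType (Iio t) (ρ t) := by
  have hwo : IsWellOrder (Iio t) (fun x y => x < y) :=
    h.chain_wo (fun x hx y hy => h.chain (le_of_lt hx) (le_of_lt hy))
  refine ⟨hwo, ?_⟩
  rw [← Ordinal.type_toType (ρ t)]
  let F : Iio t → (ρ t).ToType := fun s => Ordinal.ToType.mk ⟨ρ s, h.mono s.2⟩
  have hF : ∀ a b : Iio t, F a < F b ↔ a < b := by
    intro a b
    simp only [F, OrderIso.lt_iff_lt]
    constructor
    · intro h1
      exact h.lt_of (le_of_lt a.2) (le_of_lt b.2) h1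
    · intro h1
      exact h.mono h1
  have hinj : Function.Injective F := by
    intro a b hab
    have : ρ a = ρ b := by
      have := Ordinal.ToType.mk.injective hab
      exact congrArg Subtype.val this
    exact Subtype.ext (h.eq_of (le_of_lt a.2) (le_of_lt b.2) this)
  have hsurj : Function.Surjective F := by
    intro y
    obtain ⟨⟨α, hα⟩, rfl⟩ := Ordinal.ToType.mk.surjective y
    obtain ⟨s, hs, hs'⟩ := h.pred hα
    refine ⟨⟨s, hs⟩, ?_⟩
    simp only [F]
    congr 1
    exact Subtype.ext hs'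
  exact RelIso.ordinalType_congr
    (⟨Equiv.ofBijective F ⟨hinj, hsurj⟩, fun {a b} => hF a b⟩ : RelIso _ _)

theorem mem_lev (h : Ranked T ρ) {t : T} {α : Ordinal.{u}} : t ∈ Lev T α ↔ ρ t = α := by
  constructor
  · rintro ⟨w, hw⟩
    obtain ⟨w', hw'⟩ := h.hasOrderType t
    rw [← hw, ← hw']
  · rintro rfl
    exact h.hasOrderType t

theorem lev_eq (h : Ranked T ρ) (α : Ordinal.{u}) : Lev T α = {t | ρ t = α} := by
  ext t
  exact h.mem_lev

theorem isTree (h : Ranked T ρ) (hr : ∃ r : T, ∀ t : T, r ≤ t) : IsTree T where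
  exists_least := hr
  wo := fun t => (h.hasOrderType t).1

theorem height_eq (h : Ranked T ρ) {κ : Ordinal.{u}} (h1 : ∀ t, ρ t < κ)
    (h2 : ∀ α < κ, ∃ t, ρ t = α) : height T = κ := by
  unfold height
  apply le_antisymm
  · apply csInf_le'
    simp only [mem_ofPred_eq, h.lev_eq]
    ext t
    simp only [mem_ofPred_eq, mem_empty_iff_false, iff_false]
    exact (h1 t).ne
  · apply le_csInf
    · refine ⟨κ, ?_⟩
      simp only [mem_ofPred_eq, h.lev_eq]
      ext t
      simp only [mem_ofPred_eq, mem_empty_iff_false, iff_false]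
      exact (h1 t).ne
    · intro α hα
      by_contra hlt
      push Not at hlt
      obtain ⟨t, ht⟩ := h2 α hlt
      have : t ∈ Lev T α := h.mem_lev.mpr ht
      rw [hα] at this
      exact this

end Ranked

/-- Every tree has a rank function. -/
theorem IsTree.exists_ranked {T : Type u} [PartialOrder T] (h : IsTree T) :
    ∃ ρ : T → Ordinal.{u}, Ranked T ρ := by
  classical
  let ρ : T → Ordinal.{u} := fun t => @Ordinal.type (Iio t) (fun x y => x < y) (h.wo t)
  have key : ∀ {s t : T} (hst : s < t), ρ s =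
      @Ordinal.typein (Iio t) (fun x y => x < y) (h.wo t) ⟨s, hst⟩ := by
    intro s t hst
    have := h.wo t
    have := h.wo s
    rw [← Ordinal.type_subrel]
    apply RelIso.ordinalType_congr
    refine ⟨⟨fun x => ⟨⟨x.1, lt_trans x.2 hst⟩, x.2⟩, fun y => ⟨y.1.1, y.2⟩,
      fun x => rfl, fun y => rfl⟩, ?_⟩
    intro a b
    rfl
  refine ⟨ρ, ⟨?_, ?_, ?_⟩⟩
  · intro s t hst
    have := h.wo t
    rw [key hst]
    exact Ordinal.typein_lt_type _ _
  · intro s s' t h1 h2
    rcases h1.eq_or_lt with rfl | h3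
    · exact Or.inr h2
    rcases h2.eq_or_lt with rfl | h4
    · exact Or.inl h1
    have := h.wo t
    rcases trichotomous_of (fun x y : Iio t => x < y) ⟨s, h3⟩ ⟨s', h4⟩ with h5 | h5 | h5
    · exact Or.inl (le_of_lt h5)
    · exact Or.inl (le_of_eq (congrArg Subtype.val h5))
    · exact Or.inr (le_of_lt h5)
  · intro t α hα
    have := h.wo t
    obtain ⟨⟨s, hs⟩, hs'⟩ := Ordinal.typein_surj (fun x y : Iio t => x < y) hα
    exact ⟨s, hs, by rw [key hs, hs']⟩

end Run7.h632
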