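import Pool.Agent.Run7.h632.CG

/-!
# Diamond on the points of countable cofinality below `θ⁺⁺` from `2 ^ θ⁺ = θ⁺⁺` (Shelah)
-/

open Ordinal Cardinal Set Order

universe u

namespace Run7.h632

/-- `δ` has countable cofinality (and is a limit). -/
def CofOmega (δ : Ordinal.{u}) : Prop :=
  ∃ d : ℕ → Ordinal.{u}, (∀ n, d n < δ) ∧ ∀ β < δ, ∃ n, β < d n

section

variable {κ : Cardinal.{u}}

theorem club_iInter (hκ : κ.IsRegular) (hκ' : ℵ₀ < κ) {ι : Type u} (hι : #ι < κ)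
    (E : ι → Set Ordinal.{u}) (hE : ∀ n, IsClubIn κ.ord (E n)) :
    ∃ E' : Set Ordinal.{u}, IsClubIn κ.ord E' ∧ ∀ n, E' ⊆ E n := by
  have hN : ∀ (n : ι) (β : Ordinal.{u}), ∃ γ, β < κ.ord → (γ ∈ E n ∧ β < γ) := by
    intro n β
    by_cases hβ : β < κ.ord
    · obtain ⟨γ, h1, h2⟩ := (hE n).unbounded β hβ
      exact ⟨γ, fun _ => ⟨h1, h2⟩⟩
    · exact ⟨0, fun h => absurd h hβ⟩
  choose N hN using hN
  have hH : ∀ β : Ordinal.{u}, ∃ γ, β < κ.ord → (γ < κ.ord ∧ ∀ n, N n β < γ) := by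
    intro β
    by_cases hβ : β < κ.ord
    · obtain ⟨γ, h1, h2⟩ := exists_bound hκ hι
        (fun n => N n β) (fun n => (hE _).lt _ (hN n β hβ).1)
      exact ⟨γ, fun _ => ⟨h1, fun n => h2 n⟩⟩
    · exact ⟨0, fun h => absurd h hβ⟩
  choose H hH using hH
  refine ⟨_, isClubIn_closure hκ hκ' H (fun α hα => (hH α hα).1), ?_⟩
  intro n δ hδ
  apply (hE n).closed δ hδ.1 hδ.2.1.ne_bot
  intro α hα
  have h1 := hN n α (hα.trans hδ.1)
  have h2 := (hH α (hα.trans hδ.1)).2 n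
  exact ⟨N n α, h1.1, h1.2, h2.trans (hδ.2.2 α hα)⟩

/-- Every club contains points of countable cofinality. -/
theorem club_cofOmega (hκ : κ.IsRegular) (hκ' : ℵ₀ < κ) {E : Set Ordinal.{u}}
    (hE : IsClubIn κ.ord E) : ∃ δ ∈ E, CofOmega δ := by
  have hN : ∀ (β : Ordinal.{u}), ∃ γ, β < κ.ord → (γ ∈ E ∧ β < γ) := by
    intro β
    by_cases hβ : β < κ.ord
    · obtain ⟨γ, h1, h2⟩ := hE.unbounded β hβ
      exact ⟨γ, fun _ => ⟨h1, h2⟩⟩
    · exact ⟨0, fun h => absurd h hβ⟩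
  choose N hN using hN
  obtain ⟨x0, hx0, _⟩ := hE.unbounded 0 (isSuccLimit_ord hκ.aleph0_le).bot_lt
  let a : ℕ → Ordinal.{u} := fun n => Nat.rec x0 (fun _ x => N x) n
  have ha : ∀ n, a n ∈ E := by
    intro n
    induction n with
    | zero => exact hx0
    | succ n ih => exact (hN _ (hE.lt _ ih)).1
  have hstep : ∀ n, a n < a (n + 1) := fun n => (hN _ (hE.lt _ (ha n))).2
  let f : ULift.{u} ℕ → Ordinal.{u} := fun n => a n.down
  have hle : ∀ n, a n ≤ ⨆ i, f i := fun n => Ordinal.le_iSup f ⟨n⟩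
  have hlt : ∀ n, a n < ⨆ i, f i := fun n => (hstep n).trans_le (hle (n + 1))
  have hex : ∀ γ < ⨆ i, f i, ∃ n, γ < a n := by
    intro γ hγ
    obtain ⟨i, hi⟩ := Ordinal.lt_iSup_iff.mp hγ
    exact ⟨i.down, hi⟩
  refine ⟨⨆ i, f i, ?_, a, hlt, hex⟩
  apply hE.closed
  · apply Ordinal.iSup_lt_of_lt_cof
    · rw [hκ.cof_ord]
      simpa using hκ'
    · exact fun i => hE.lt _ (ha i.down)
  · exact ((bot_le : (⊥ : Ordinal.{u}) ≤ a 0).trans_lt (hlt 0)).ne'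
  · intro γ hγ
    obtain ⟨n, hn⟩ := hex γ hγ
    exact ⟨a n, ha n, hn, hlt n⟩

end

section

variable {θ : Cardinal.{u}}

/-- At most `θ` many elements of `θ⁺` are bounded. -/
theorem L_bound (hθ : ℵ₀ ≤ θ) {ι : Type u} (hι : #ι ≤ θ) (f : ι → (succ θ).ord.ToType) :
    ∃ j, ∀ i, f i < j := by
  by_contra hcon
  push Not at hcon
  have hcover : (Set.univ : Set (succ θ).ord.ToType) ⊆ ⋃ i : ι, Set.Iic (f i) := by
    intro l _
    obtain ⟨i, hi⟩ := hcon l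
    exact Set.mem_iUnion.mpr ⟨i, hi⟩
  have h1 : #(Set.univ : Set (succ θ).ord.ToType) = succ θ := by
    rw [Cardinal.mk_univ]
    exact Cardinal.mk_ord_toType _
  have h2 : #(⋃ i : ι, Set.Iic (f i) : Set (succ θ).ord.ToType) ≤ θ := by
    refine (Cardinal.mk_iUnion_le _).trans ?_
    calc #ι * ⨆ i, #(Set.Iic (f i)) ≤ θ * θ := by
          refine mul_le_mul' hι ?_
          refine ciSup_le' (fun i => Order.lt_succ_iff.mp ?_)
          exact mk_Iic_toType_ord_lt (hθ.trans (Order.le_succ θ)) _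
      _ = θ := Cardinal.mul_eq_self hθ
  have h3 := (Cardinal.mk_le_mk_of_subset hcover).trans h2
  rw [h1] at h3
  exact absurd h3 (not_le.mpr (Order.lt_succ θ))

end

end Run7.h632
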