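import Pool.Agent.Run7.h632.Dia

/-!
# Diamond on the points of countable cofinality below `θ⁺⁺` from `2 ^ θ⁺ = θ⁺⁺` (Shelah)
-/

open Ordinal Cardinal Set Order

universe u

namespace Run7.h632

section

variable {θ : Cardinal.{u}}

theorem exists_pi {δ : Ordinal.{u}} (h0 : δ ≠ 0) (hδ : δ < (succ (succ θ)).ord) :
    ∃ π : (succ θ).ord.ToType → Ordinal.{u}, (∀ j, π j < δ) ∧ ∀ β < δ, ∃ j, π j = β := by
  have h1 : #(δ.ToType) ≤ #((succ θ).ord.ToType) := by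
    rw [Cardinal.mk_ord_toType]
    exact Order.lt_succ_iff.mp (mk_toType_lt hδ)
  obtain ⟨e⟩ := Cardinal.le_def _ _ |>.mp h1
  have hne : Nonempty δ.ToType := by
    refine ⟨Ordinal.ToType.mk ⟨0, ?_⟩⟩
    exact bot_lt_iff_ne_bot.mpr h0
  refine ⟨fun j => ((Ordinal.ToType.mk.symm (Function.invFun e j) : Iio δ) : Ordinal), ?_, ?_⟩
  · intro j
    exact (Ordinal.ToType.mk.symm (Function.invFun e j)).2
  · intro β hβ
    obtain ⟨j, hj⟩ := Function.invFun_surjective e.injective (Ordinal.ToType.mk ⟨β, hβ⟩)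
    refine ⟨j, ?_⟩
    simp only [hj]
    simp

/-- Bounded `θ⁺ × θ⁺`-indexed families of subsets of `P`. -/
abbrev Bd (θ : Cardinal.{u}) {P : Type u} (r : P → Ordinal.{u}) : Type u :=
  Σ a : (succ (succ θ)).ord.ToType,
    ({p : P // r p < ((Ordinal.ToType.mk.symm a : Iio (succ (succ θ)).ord) : Ordinal)} →
      (succ θ).ord.ToType → (succ θ).ord.ToType → Prop)

theorem mk_Bd (hθ : ℵ₀ ≤ θ) (h2 : (2 : Cardinal.{u}) ^ succ θ = succ (succ θ)) {P : Type u}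
    (r : P → Ordinal.{u}) (hsmall : ∀ α < (succ (succ θ)).ord, #{p | r p < α} ≤ succ θ) :
    #(Bd θ r) ≤ #((succ (succ θ)).ord.ToType) := by
  have hθ1 : ℵ₀ ≤ succ θ := hθ.trans (Order.le_succ θ)
  have hθ2 : ℵ₀ ≤ succ (succ θ) := hθ1.trans (Order.le_succ _)
  rw [Cardinal.mk_ord_toType, Cardinal.mk_sigma]
  refine (Cardinal.sum_le_mk_mul_iSup _).trans ?_
  rw [Cardinal.mk_ord_toType]
  calc succ (succ θ) * _ ≤ succ (succ θ) * succ (succ θ) := by
        refine mul_le_mul' le_rfl ?_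
        refine ciSup_le' ?_
        intro a
        have hP : #((succ θ).ord.ToType → Prop) = 2 ^ succ θ := by
          have h3 : #(Set (succ θ).ord.ToType) = 2 ^ #((succ θ).ord.ToType) := Cardinal.mk_set
          rw [Cardinal.mk_ord_toType] at h3
          exact h3
        rw [← Cardinal.power_def, ← Cardinal.power_def, hP, Cardinal.mk_ord_toType]
        rw [← Cardinal.power_mul, ← Cardinal.power_mul, ← mul_assoc, Cardinal.mul_eq_self hθ1]
        refine le_trans ?_ h2.le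
        refine Cardinal.power_le_power_left two_ne_zero ?_
        refine (mul_le_mul' le_rfl (hsmall _ (Ordinal.ToType.mk.symm a).2)).trans ?_
        rw [Cardinal.mul_eq_self hθ1]
    _ = succ (succ θ) := Cardinal.mul_eq_self hθ2

/-- **Shelah's diamond.** If `2 ^ θ⁺ = θ⁺⁺` then the subsets of `P` are guessed at points of
countable cofinality. -/
theorem diamond (hθ : ℵ₀ ≤ θ) (h2 : (2 : Cardinal.{u}) ^ succ θ = succ (succ θ)) {P : Type u}
    (r : P → Ordinal.{u}) (hsmall : ∀ α < (succ (succ θ)).ord, #{p | r p < α} ≤ succ θ) :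
    ∃ G : Ordinal.{u} → Set P, ∀ (Z : Set P) (E : Set Ordinal.{u}),
      IsClubIn (succ (succ θ)).ord E → ∃ δ ∈ E, CofOmega δ ∧ {p | p ∈ Z ∧ r p < δ} = G δ := by
  classical
  have hθ1 : ℵ₀ ≤ succ θ := hθ.trans (Order.le_succ θ)
  have hreg := reg_kappa hθ
  have hunc := unc_kappa hθ
  by_contra hcon
  push Not at hcon
  choose ZZ EE hEE hZZ using hcon
  -- enumerations of initial segments
  have hpi : ∀ δ : Ordinal.{u}, ∃ π : (succ θ).ord.ToType → Ordinal.{u},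
      δ ≠ 0 → δ < (succ (succ θ)).ord → (∀ j, π j < δ) ∧ ∀ β < δ, ∃ j, π j = β := by
    intro δ
    by_cases hδ : δ ≠ 0 ∧ δ < (succ (succ θ)).ord
    · obtain ⟨π, hπ⟩ := exists_pi hδ.1 hδ.2
      exact ⟨π, fun _ _ => hπ⟩
    · exact ⟨fun _ => 0, fun h1 h2 => absurd ⟨h1, h2⟩ hδ⟩
  choose π hπ using hpi
  obtain ⟨code⟩ := Cardinal.le_def _ _ |>.mp (mk_Bd hθ h2 r hsmall)
  let o : (succ (succ θ)).ord.ToType → Ordinal.{u} :=
    fun a => ((Ordinal.ToType.mk.symm a : Iio (succ (succ θ)).ord) : Ordinal)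
  have ho : ∀ a, o a < (succ (succ θ)).ord := fun a => (Ordinal.ToType.mk.symm a).2
  have hoinj : Function.Injective o := by
    intro a b hab
    exact Ordinal.ToType.mk.symm.injective (Subtype.ext hab)
  let A : Ordinal.{u} → (succ θ).ord.ToType → Set Ordinal.{u} := fun δ j => π δ '' Set.Iio j
  -- the guessing functions
  let Gf : ∀ (_ τ : (succ θ).ord.ToType), (∀ τ', τ' < τ → Set P) → Ordinal.{u} → Set P :=
    fun j τ X δ => {p | ∃ Y : Bd θ r, o Y.1 ∈ A δ j ∧ o (code Y) ∈ A δ j ∧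
      (∀ τ' (h : τ' < τ), ∀ q (hq : r q < o Y.1), Y.2 ⟨q, hq⟩ j τ' ↔ q ∈ X τ' h) ∧
      ∃ h : r p < o Y.1, Y.2 ⟨p, h⟩ j τ}
  let X : (succ θ).ord.ToType → (succ θ).ord.ToType → Set P := fun j =>
    WellFounded.fix (IsWellFounded.wf (r := fun x y : (succ θ).ord.ToType => x < y))
      (fun τ ih => ZZ (Gf j τ ih))
  have hX : ∀ j τ, X j τ = ZZ (Gf j τ (fun τ' _ => X j τ')) :=
    fun j τ => WellFounded.fix_eq _ _ _
  let Es : (succ θ).ord.ToType × (succ θ).ord.ToType → Set Ordinal.{u} :=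
    fun q => EE (Gf q.1 q.2 (fun τ' _ => X q.1 τ'))
  have hcard : #((succ θ).ord.ToType × (succ θ).ord.ToType) < succ (succ θ) := by
    rw [Cardinal.mk_prod, Cardinal.lift_id, Cardinal.mk_ord_toType, Cardinal.mul_eq_self hθ1]
    exact Order.lt_succ _
  obtain ⟨E1, hE1, hE1'⟩ := club_iInter hreg hunc hcard Es (fun q => hEE _)
  -- the codes of the restrictions
  let Y : (succ (succ θ)).ord.ToType → Bd θ r := fun a => ⟨a, fun p j τ => p.1 ∈ X j τ⟩
  let H : Ordinal.{u} → Ordinal.{u} := fun α =>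
    if h : α < (succ (succ θ)).ord then o (code (Y (Ordinal.ToType.mk ⟨α, h⟩))) else 0
  have hH : ∀ α < (succ (succ θ)).ord, H α < (succ (succ θ)).ord := by
    intro α hα
    simp only [H, dif_pos hα]
    exact ho _
  have hE2 := isClubIn_closure hreg hunc H hH
  obtain ⟨E, hE, hEsub⟩ : ∃ E, IsClubIn (succ (succ θ)).ord E ∧ ∀ δ ∈ E, δ ∈ E1 ∧
      (IsSuccLimit δ ∧ ∀ α < δ, H α < δ) := by
    refine ⟨_, club_inter hreg hunc hE1 hE2, ?_⟩
    rintro δ ⟨h1, h3⟩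
    exact ⟨h1, h3.2.1, h3.2.2⟩
  obtain ⟨δ, hδE, d, hd, hd'⟩ := club_cofOmega hreg hunc hE
  obtain ⟨hδ1, hδlim, hδH⟩ := hEsub δ hδE
  have hδκ : δ < (succ (succ θ)).ord := hE.lt δ hδE
  have hδ0 : δ ≠ 0 := hδlim.ne_bot
  obtain ⟨hπ1, hπ2⟩ := hπ δ hδ0 hδκ
  -- bounding the codes
  have hi : ∀ n, ∃ i, π δ i = d n := fun n => hπ2 _ (hd n)
  have hi' : ∀ n, ∃ i, π δ i = H (d n) := fun n => hπ2 _ (hδH _ (hd n))
  choose i hi using hi
  choose i' hi' using hi'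
  obtain ⟨j, hj⟩ := L_bound hθ (ι := ULift.{u} (ℕ ⊕ ℕ)) (by simpa using hθ)
    (fun x => Sum.elim i i' x.down)
  have hj1 : ∀ n, d n ∈ A δ j := fun n => ⟨i n, hj ⟨Sum.inl n⟩, hi n⟩
  have hj2 : ∀ n, H (d n) ∈ A δ j := fun n => ⟨i' n, hj ⟨Sum.inr n⟩, hi' n⟩
  have hA : ∀ x ∈ A δ j, x < δ := by
    rintro _ ⟨l, _, rfl⟩
    exact hπ1 l
  -- the witnesses
  have hw : ∀ τ, ∃ Y : Bd θ r, o (code Y) ∈ A δ j ∧
      (∀ τ', τ' < τ → ∀ q (hq : r q < o Y.1), Y.2 ⟨q, hq⟩ j τ' ↔ q ∈ X j τ') ∧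
      ∃ p, ∃ h : r p < o Y.1, Y.2 ⟨p, h⟩ j τ ∧ p ∉ X j τ := by
    intro τ
    have h1 : δ ∈ Es (j, τ) := hE1' (j, τ) hδ1
    have h3 := hZZ _ δ h1 ⟨d, hd, hd'⟩
    have h4 : {p | p ∈ X j τ ∧ r p < δ} ⊆ Gf j τ (fun τ' _ => X j τ') δ := by
      rintro p ⟨hp, hp'⟩
      obtain ⟨n, hn⟩ := hd' _ hp'
      have hdκ : d n < (succ (succ θ)).ord := (hd n).trans hδκ
      have hoa : o (Ordinal.ToType.mk ⟨d n, hdκ⟩) = d n := by
        simp [o]
      refine ⟨Y (Ordinal.ToType.mk ⟨d n, hdκ⟩), ?_, ?_, ?_, ?_, ?_⟩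
      · show o (Ordinal.ToType.mk ⟨d n, hdκ⟩) ∈ A δ j
        rw [hoa]
        exact hj1 n
      · have := hj2 n
        simp only [H, dif_pos hdκ] at this
        exact this
      · intro τ' _ q hq
        exact Iff.rfl
      · show r p < o (Ordinal.ToType.mk ⟨d n, hdκ⟩)
        rw [hoa]
        exact hn
      · exact hp
    have h5 : ¬ Gf j τ (fun τ' _ => X j τ') δ ⊆ {p | p ∈ X j τ ∧ r p < δ} := by
      intro h6
      apply h3
      show {p | p ∈ ZZ (Gf j τ (fun τ' _ => X j τ')) ∧ r p < δ} = Gf j τ (fun τ' _ => X j τ') δ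
      rw [← hX j τ]
      exact Set.Subset.antisymm h4 h6
    rw [Set.not_subset] at h5
    obtain ⟨p, ⟨Y, hY1, hY2, hY3, hY4, hY5⟩, hp⟩ := h5
    refine ⟨Y, hY2, hY3, p, hY4, hY5, ?_⟩
    intro hpX
    exact hp ⟨hpX, hY4.trans (hA _ hY1)⟩
  choose W hW1 hW2 pp hpp hW3 hW4 using hw
  have hinj : Function.Injective W := by
    have key : ∀ τ' τ, τ' < τ → W τ' ≠ W τ := by
      intro τ' τ hlt heq
      have h1 : ∀ q (hq : r q < o (W τ').1), (W τ').2 ⟨q, hq⟩ j τ' ↔ q ∈ X j τ' := by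
        rw [heq]
        exact hW2 τ τ' hlt
      exact hW4 τ' ((h1 _ (hpp τ')).mp (hW3 τ'))
    intro τ τ' h
    rcases lt_trichotomy τ τ' with h1 | h1 | h1
    · exact absurd h (key _ _ h1)
    · exact h1
    · exact absurd h.symm (key _ _ h1)
  choose l hl1 hl2 using hW1
  have hf : Function.Injective (fun τ => (⟨l τ, hl1 τ⟩ : Set.Iio j)) := by
    intro τ τ' h
    have h1 : l τ = l τ' := congrArg Subtype.val h
    have h3 : o (code (W τ)) = o (code (W τ')) := by rw [← hl2 τ, ← hl2 τ', h1]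
    exact hinj (code.injective (hoinj h3))
  have h7 := Cardinal.mk_le_of_injective hf
  rw [Cardinal.mk_ord_toType] at h7
  have h8 := h7.trans_lt (Cardinal.mk_Iio_toType_ord_lt j)
  exact lt_irrefl _ h8

end

end Run7.h632
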