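import Pool.Agent.Run7.h632.NA

/-!
# The tree of good transversals
-/

open Ordinal Cardinal Set Order

universe u

namespace Run7.h632

/-- Good transversals: finitely many pieces, each one a segment of a node or of some `g δ`. -/
inductive Good {T : Type u} [PartialOrder T] (ρ : T → Ordinal.{u}) (D : Set Ordinal.{u})
    (g : Ordinal.{u} → Set T) : Set T → Ordinal.{u} → Prop
  | zero : Good ρ D g ∅ 0
  | node {x : Set T} {β : Ordinal.{u}} (u : T) : Good ρ D g x β → β < ρ u →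
      Good ρ D g (x ∪ {v | v < u ∧ β ≤ ρ v}) (ρ u)
  | lim {x : Set T} {β δ : Ordinal.{u}} : Good ρ D g x β → β < δ → δ ∈ D →
      Good ρ D g (x ∪ {v | v ∈ g δ ∧ β ≤ ρ v}) δ

/-- `g δ` (for `δ ∈ D`) is a transversal of the levels below `δ` which is locally a chain. -/
structure LocChain {T : Type u} [PartialOrder T] (κ : Cardinal.{u}) (ρ : T → Ordinal.{u})
    (D : Set Ordinal.{u}) (g : Ordinal.{u} → Set T) : Prop where
  lt : ∀ δ ∈ D, δ < κ.ord
  lim : ∀ δ ∈ D, IsSuccLimit δ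
  mem_lt : ∀ δ ∈ D, ∀ v ∈ g δ, ρ v < δ
  loc : ∀ δ ∈ D, ∀ ξ < δ, ξ ≠ 0 → ∃ η < ξ, ∃ w, ρ w = ξ ∧
    ∀ v, η ≤ ρ v → ρ v < ξ → (v ∈ g δ ↔ v < w)

section

variable {T : Type u} [PartialOrder T] {κ : Cardinal.{u}} {ρ : T → Ordinal.{u}}
  {D : Set Ordinal.{u}} {g : Ordinal.{u} → Set T}

theorem LocChain.ex (hg : LocChain κ ρ D g) (hT : Ranked T ρ) {δ : Ordinal.{u}} (hδ : δ ∈ D)
    {ξ : Ordinal.{u}} (hξ : ξ < δ) : ∃ v ∈ g δ, ρ v = ξ := by
  obtain ⟨η, hη, w, hw, h⟩ := hg.loc δ hδ (ξ + 1) ((hg.lim δ hδ).add_one_lt hξ)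
    (Order.succ_ne_bot ξ)
  have : ξ < ρ w := by rw [hw]; exact lt_add_one ξ
  obtain ⟨v, hv, hv'⟩ := hT.pred this
  refine ⟨v, ?_, hv'⟩
  rw [h v (by rw [hv']; exact Order.lt_add_one_iff.mp hη) (by rw [hv']; exact lt_add_one ξ)]
  exact hv

theorem LocChain.uniq (hg : LocChain κ ρ D g) (hT : Ranked T ρ) {δ : Ordinal.{u}} (hδ : δ ∈ D)
    {v v' : T} (hv : v ∈ g δ) (hv' : v' ∈ g δ) (h : ρ v = ρ v') : v = v' := by
  have hξ := hg.mem_lt δ hδ v hv
  obtain ⟨η, hη, w, hw, h1⟩ := hg.loc δ hδ (ρ v + 1) ((hg.lim δ hδ).add_one_lt hξ)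
    (Order.succ_ne_bot _)
  have h2 := (h1 v (Order.lt_add_one_iff.mp hη) (lt_add_one _)).mp hv
  have h3 := (h1 v' (by rw [← h]; exact Order.lt_add_one_iff.mp hη)
    (by rw [← h]; exact lt_add_one _)).mp hv'
  exact hT.eq_of h2.le h3.le h

theorem Good.trans (hT : Ranked T ρ) (hg : LocChain κ ρ D g) {x : Set T} {α : Ordinal.{u}}
    (h : Good ρ D g x α) : (∀ v ∈ x, ρ v < α) ∧ (∀ ξ < α, ∃ v ∈ x, ρ v = ξ) ∧
      (∀ v ∈ x, ∀ v' ∈ x, ρ v = ρ v' → v = v') := by
  induction h with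
  | zero =>
    refine ⟨fun v hv => hv.elim, fun ξ hξ => ?_, fun v hv => hv.elim⟩
    exact absurd hξ (not_lt_bot)
  | @node x β u hx hβ ih =>
    obtain ⟨h1, h2, h3⟩ := ih
    refine ⟨?_, ?_, ?_⟩
    · rintro v (hv | hv)
      · exact (h1 v hv).trans hβ
      · exact hT.mono hv.1
    · intro ξ hξ
      by_cases hc : ξ < β
      · obtain ⟨v, hv, hv'⟩ := h2 ξ hc
        exact ⟨v, Or.inl hv, hv'⟩
      · push Not at hc
        obtain ⟨v, hv, hv'⟩ := hT.pred hξ
        exact ⟨v, Or.inr ⟨hv, by rw [hv']; exact hc⟩, hv'⟩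
    · rintro v (hv | hv) v' (hv' | hv') hvv
      · exact h3 v hv v' hv' hvv
      · exact absurd (h1 v hv) (not_lt.mpr (by rw [hvv]; exact hv'.2))
      · exact absurd (h1 v' hv') (not_lt.mpr (by rw [← hvv]; exact hv.2))
      · exact hT.eq_of hv.1.le hv'.1.le hvv
  | @lim x β δ hx hβ hδ ih =>
    obtain ⟨h1, h2, h3⟩ := ih
    refine ⟨?_, ?_, ?_⟩
    · rintro v (hv | hv)
      · exact (h1 v hv).trans hβ
      · exact hg.mem_lt δ hδ v hv.1
    · intro ξ hξ
      by_cases hc : ξ < β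
      · obtain ⟨v, hv, hv'⟩ := h2 ξ hc
        exact ⟨v, Or.inl hv, hv'⟩
      · push Not at hc
        obtain ⟨v, hv, hv'⟩ := hg.ex hT hδ hξ
        exact ⟨v, Or.inr ⟨hv, by rw [hv']; exact hc⟩, hv'⟩
    · rintro v (hv | hv) v' (hv' | hv') hvv
      · exact h3 v hv v' hv' hvv
      · exact absurd (h1 v hv) (not_lt.mpr (by rw [hvv]; exact hv'.2))
      · exact absurd (h1 v' hv') (not_lt.mpr (by rw [← hvv]; exact hv.2))
      · exact hg.uniq hT hδ hv.1 hv'.1 hvv

/-- Adding a segment of a node, the degenerate case `β = ρ u` included. -/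
theorem Good.node' (hT : Ranked T ρ) {x : Set T} {β : Ordinal.{u}} (h : Good ρ D g x β)
    {u : T} (hu : β ≤ ρ u) : Good ρ D g (x ∪ {v | v < u ∧ β ≤ ρ v}) (ρ u) := by
  rcases hu.eq_or_lt with h1 | h1
  · have : {v | v < u ∧ β ≤ ρ v} = ∅ := by
      rw [Set.eq_empty_iff_forall_notMem]
      rintro v ⟨hv, hv'⟩
      exact absurd (hT.mono hv) (not_lt.mpr (h1 ▸ hv'))
    rw [this, Set.union_empty, ← h1]
    exact h
  · exact Good.node u h h1

theorem Good.lim_restr (hT : Ranked T ρ) (hg : LocChain κ ρ D g) {x : Set T}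
    {β δ : Ordinal.{u}} (h : Good ρ D g x β) (hδ : δ ∈ D) (ξ : Ordinal.{u}) :
    β ≤ ξ → ξ < δ → Good ρ D g (x ∪ {v | v ∈ g δ ∧ β ≤ ρ v ∧ ρ v < ξ}) ξ := by
  induction ξ using Ordinal.induction with
  | h ξ ih =>
    intro hβξ hξ
    rcases hβξ.eq_or_lt with h1 | h1
    · have : {v | v ∈ g δ ∧ β ≤ ρ v ∧ ρ v < ξ} = ∅ := by
        rw [Set.eq_empty_iff_forall_notMem]
        rintro v ⟨_, hv, hv'⟩
        exact absurd hv' (not_lt.mpr (h1 ▸ hv))
      rw [this, Set.union_empty, ← h1]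
      exact h
    · have h0 : ξ ≠ 0 := by
        rintro rfl
        exact absurd h1 not_lt_bot
      obtain ⟨η', hη', w, hw, hloc⟩ := hg.loc δ hδ ξ hξ h0
      have hη : max η' β < ξ := max_lt hη' h1
      have h2 := ih (max η' β) hη (le_max_right _ _) (hη.trans hξ)
      have h3 := h2.node' hT (u := w) (by rw [hw]; exact hη.le)
      rw [hw] at h3
      convert h3 using 1
      ext v
      simp only [Set.mem_union, Set.mem_ofPred_eq]
      constructor
      · rintro (hv | ⟨hv1, hv2, hv3⟩)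
        · exact Or.inl (Or.inl hv)
        · by_cases hc : ρ v < max η' β
          · exact Or.inl (Or.inr ⟨hv1, hv2, hc⟩)
          · push Not at hc
            refine Or.inr ⟨?_, hc⟩
            exact (hloc v ((le_max_left _ _).trans hc) hv3).mp hv1
      · rintro ((hv | ⟨hv1, hv2, hv3⟩) | ⟨hv1, hv2⟩)
        · exact Or.inl hv
        · exact Or.inr ⟨hv1, hv2, hv3.trans hη⟩
        · have hv3 : ρ v < ξ := by rw [← hw]; exact hT.mono hv1
          exact Or.inr ⟨(hloc v ((le_max_left _ _).trans hv2) hv3).mpr hv1,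
            (le_max_right _ _).trans hv2, hv3⟩

theorem Good.restr (hT : Ranked T ρ) (hg : LocChain κ ρ D g) {x : Set T} {α : Ordinal.{u}}
    (h : Good ρ D g x α) {ξ : Ordinal.{u}} (hξ : ξ ≤ α) : Good ρ D g {v | v ∈ x ∧ ρ v < ξ} ξ := by
  induction h generalizing ξ with
  | zero =>
    have h0 : ξ = 0 := le_antisymm hξ bot_le
    subst h0
    have : {v : T | v ∈ (∅ : Set T) ∧ ρ v < 0} = ∅ := by
      rw [Set.eq_empty_iff_forall_notMem]
      rintro v ⟨hv, _⟩
      exact hv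
    rw [this]
    exact Good.zero
  | @node x β u hx hβ ih =>
    have htr := hx.trans hT hg
    by_cases hc : ξ ≤ β
    · have : {v | v ∈ x ∪ {v | v < u ∧ β ≤ ρ v} ∧ ρ v < ξ} = {v | v ∈ x ∧ ρ v < ξ} := by
        ext v
        simp only [Set.mem_union, Set.mem_ofPred_eq]
        constructor
        · rintro ⟨hv | hv, hv'⟩
          · exact ⟨hv, hv'⟩
          · exact absurd (hv'.trans_le hc) (not_lt.mpr hv.2)
        · rintro ⟨hv, hv'⟩
          exact ⟨Or.inl hv, hv'⟩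
      rw [this]
      exact ih hc
    · push Not at hc
      have hw : ∃ w, w ≤ u ∧ ρ w = ξ := by
        rcases hξ.eq_or_lt with h1 | h1
        · exact ⟨u, le_rfl, h1.symm⟩
        · obtain ⟨w, hw, hw'⟩ := hT.pred h1
          exact ⟨w, hw.le, hw'⟩
      obtain ⟨w, hwu, hw⟩ := hw
      have h3 := hx.node' hT (u := w) (by rw [hw]; exact hc.le)
      rw [hw] at h3
      convert h3 using 1
      ext v
      simp only [Set.mem_union, Set.mem_ofPred_eq]
      constructor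
      · rintro ⟨hv | hv, hv'⟩
        · exact Or.inl hv
        · exact Or.inr ⟨hT.lt_of hv.1.le hwu (by rw [hw]; exact hv'), hv.2⟩
      · rintro (hv | ⟨hv1, hv2⟩)
        · exact ⟨Or.inl hv, (htr.1 v hv).trans hc⟩
        · exact ⟨Or.inr ⟨hv1.trans_le hwu, hv2⟩, by rw [← hw]; exact hT.mono hv1⟩
  | @lim x β δ hx hβ hδ ih =>
    have htr := hx.trans hT hg
    by_cases hc : ξ ≤ β
    · have : {v | v ∈ x ∪ {v | v ∈ g δ ∧ β ≤ ρ v} ∧ ρ v < ξ} = {v | v ∈ x ∧ ρ v < ξ} := by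
        ext v
        simp only [Set.mem_union, Set.mem_ofPred_eq]
        constructor
        · rintro ⟨hv | hv, hv'⟩
          · exact ⟨hv, hv'⟩
          · exact absurd (hv'.trans_le hc) (not_lt.mpr hv.2)
        · rintro ⟨hv, hv'⟩
          exact ⟨Or.inl hv, hv'⟩
      rw [this]
      exact ih hc
    · push Not at hc
      rcases hξ.eq_or_lt with h1 | h1
      · subst h1
        have : {v | v ∈ x ∪ {v | v ∈ g ξ ∧ β ≤ ρ v} ∧ ρ v < ξ} =
            x ∪ {v | v ∈ g ξ ∧ β ≤ ρ v} := by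
          ext v
          simp only [Set.mem_union, Set.mem_ofPred_eq]
          constructor
          · rintro ⟨hv, _⟩
            exact hv
          · rintro (hv | hv)
            · exact ⟨Or.inl hv, (htr.1 v hv).trans hc⟩
            · exact ⟨Or.inr hv, hg.mem_lt ξ hδ v hv.1⟩
        rw [this]
        exact Good.lim hx hβ hδ
      · have h2 := hx.lim_restr hT hg hδ ξ hc.le h1
        convert h2 using 1
        ext v
        simp only [Set.mem_union, Set.mem_ofPred_eq]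
        constructor
        · rintro ⟨hv | hv, hv'⟩
          · exact Or.inl hv
          · exact Or.inr ⟨hv.1, hv.2, hv'⟩
        · rintro (hv | ⟨hv1, hv2, hv3⟩)
          · exact ⟨Or.inl hv, (htr.1 v hv).trans hc⟩
          · exact ⟨Or.inr ⟨hv1, hv2⟩, hv3⟩

end

end Run7.h632
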