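import Pool.Agent.Run7.h632.Good

/-!
# The tree of good transversals is a narrow Aronszajn tree
-/

open Ordinal Cardinal Set Order

universe u

namespace Run7.h632

/-- The tree of good transversals, ordered by inclusion. -/
abbrev GT {T : Type u} [PartialOrder T] (ρ : T → Ordinal.{u}) (D : Set Ordinal.{u})
    (g : Ordinal.{u} → Set T) : Type u :=
  {x : Set T // ∃ α, Good ρ D g x α}

/-- The level of a good transversal. -/
noncomputable def lv {T : Type u} [PartialOrder T] {ρ : T → Ordinal.{u}} {D : Set Ordinal.{u}}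
    {g : Ordinal.{u} → Set T} (x : GT ρ D g) : Ordinal.{u} :=
  Classical.choose x.2

section

variable {T : Type u} [PartialOrder T] {κ : Cardinal.{u}} {ρ : T → Ordinal.{u}}
  {D : Set Ordinal.{u}} {g : Ordinal.{u} → Set T}

theorem lv_spec (x : GT ρ D g) : Good ρ D g x.1 (lv x) :=
  Classical.choose_spec x.2

theorem Good.level_unique (hT : Ranked T ρ) (hg : LocChain κ ρ D g) {x : Set T}
    {α β : Ordinal.{u}} (h : Good ρ D g x α) (h' : Good ρ D g x β) : α = β := by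
  rcases lt_trichotomy α β with h1 | h1 | h1
  · obtain ⟨v, hv, hv'⟩ := (h'.trans hT hg).2.1 α h1
    exact absurd ((h.trans hT hg).1 v hv) (by rw [hv']; exact lt_irrefl _)
  · exact h1
  · obtain ⟨v, hv, hv'⟩ := (h.trans hT hg).2.1 β h1
    exact absurd ((h'.trans hT hg).1 v hv) (by rw [hv']; exact lt_irrefl _)

theorem lv_eq (hT : Ranked T ρ) (hg : LocChain κ ρ D g) {x : GT ρ D g}
    {α : Ordinal.{u}} (h : Good ρ D g x.1 α) : lv x = α :=
  (lv_spec x).level_unique hT hg h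

theorem ranked_GT (hT : Ranked T ρ) (hg : LocChain κ ρ D g) :
    Ranked (GT ρ D g) (lv (ρ := ρ) (D := D) (g := g)) where
  mono := by
    intro x y hxy
    have hx := (lv_spec x).trans hT hg
    have hy := (lv_spec y).trans hT hg
    by_contra hcon
    push Not at hcon
    have hsub : x.1 ⊆ y.1 := hxy.le
    have : y.1 ⊆ x.1 := by
      intro v hv
      obtain ⟨v', hv', h1⟩ := hx.2.1 (ρ v) ((hy.1 v hv).trans_le hcon)
      have := hy.2.2 v' (hsub hv') v hv h1
      rw [← this]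
      exact hv'
    exact absurd hxy (not_lt_of_ge this)
  chain := by
    intro x y z hx hy
    have hx' := (lv_spec x).trans hT hg
    have hy' := (lv_spec y).trans hT hg
    have hz' := (lv_spec z).trans hT hg
    rcases le_total (lv x) (lv y) with h | h
    · left
      intro v hv
      obtain ⟨v', hv', h1⟩ := hy'.2.1 (ρ v) ((hx'.1 v hv).trans_le h)
      have := hz'.2.2 v' (hy hv') v (hx hv) h1
      rw [← this]
      exact hv'
    · right
      intro v hv
      obtain ⟨v', hv', h1⟩ := hx'.2.1 (ρ v) ((hy'.1 v hv).trans_le h)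
      have := hz'.2.2 v' (hx hv') v (hy hv) h1
      rw [← this]
      exact hv'
  pred := by
    intro y α hα
    have hr := (lv_spec y).restr hT hg hα.le
    let x : GT ρ D g := ⟨_, α, hr⟩
    have hx : lv x = α := lv_eq hT hg hr
    refine ⟨x, lt_of_le_of_ne ?_ ?_, hx⟩
    · intro v hv
      exact hv.1
    · intro h
      rw [← h, hx] at hα
      exact lt_irrefl _ hα

theorem Good.lt (hT : NA κ T ρ) (hg : LocChain κ ρ D g) (hκ : 0 < κ.ord) {x : Set T}
    {α : Ordinal.{u}} (h : Good ρ D g x α) : α < κ.ord := by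
  cases h with
  | zero => exact hκ
  | node u _ _ => exact hT.lt u
  | lim _ _ hδ => exact hg.lt _ hδ

/-- Heights of large chains are unbounded. -/
theorem Ranked.unbounded_of_large (hT : Ranked T ρ) {c : Set T}
    (hc : ∀ x ∈ c, ∀ y ∈ c, x ≤ y ∨ y ≤ x) (hcard : κ ≤ #c) {α : Ordinal.{u}}
    (hα : α < κ.ord) : ∃ x ∈ c, α ≤ ρ x := by
  by_contra hcon
  push Not at hcon
  let F : c → α.ToType := fun s => Ordinal.ToType.mk ⟨ρ s, hcon s s.2⟩
  have hinj : Function.Injective F := by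
    intro a b hab
    have h1 : ρ a = ρ b := by
      have := Ordinal.ToType.mk.injective hab
      exact congrArg Subtype.val this
    rcases hc a a.2 b b.2 with h2 | h2
    · exact Subtype.ext (hT.eq_of h2 le_rfl h1)
    · exact Subtype.ext (hT.eq_of le_rfl h2 h1)
  have := Cardinal.mk_le_of_injective hinj
  exact absurd (hcard.trans this) (not_le.mpr (mk_toType_lt hα))

/-- A family of nodes with unbounded heights is large. -/
theorem large_of_unbounded (hκ : κ.IsRegular) (hT : ∀ t, ρ t < κ.ord) {c : Set T}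
    (h : ∀ α < κ.ord, ∃ x ∈ c, α ≤ ρ x) : κ ≤ #c := by
  by_contra hcon
  push Not at hcon
  obtain ⟨β, hβ, hβ'⟩ := exists_bound hκ hcon (fun x : c => ρ x) (fun x => hT x)
  obtain ⟨x, hx, hx'⟩ := h β hβ
  exact absurd (hβ' ⟨x, hx⟩) (not_lt.mpr hx')

theorem small_GT (hκ : κ.IsRegular) (hT : NA κ T ρ) (hg : LocChain κ ρ D g)
    (α : Ordinal.{u}) : α < κ.ord → #{x : Set T | Good ρ D g x α} < κ := by
  induction α using WellFoundedLT.induction with
  | _ α ih =>
    intro hα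
    classical
    let G : Ordinal.{u} → Set (Set T) := fun β => {x : Set T | Good ρ D g x β}
    let o : α.ToType → Ordinal.{u} := fun i => ((Ordinal.ToType.mk.symm i : Iio α) : Ordinal)
    have ho : ∀ i, o i < α := fun i => (Ordinal.ToType.mk.symm i).2
    let I := Σ i : α.ToType, (G (o i)) × Option {t | ρ t = α}
    have hI : #I < κ := by
      rw [Cardinal.mk_sigma]
      apply Cardinal.sum_lt_of_isRegular hκ (mk_toType_lt hα)
      intro i
      rw [Cardinal.mk_prod, Cardinal.lift_id, Cardinal.lift_id]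
      apply Cardinal.mul_lt_of_lt hκ.aleph0_le
      · exact ih (o i) (ho i) ((ho i).trans hα)
      · rw [Cardinal.mk_option]
        exact Cardinal.add_lt_of_lt hκ.aleph0_le (hT.small α hα)
          (Cardinal.one_lt_aleph0.trans_le hκ.aleph0_le)
    let F : Option I → Set T := fun p =>
      match p with
      | none => ∅
      | some ⟨i, x, none⟩ => x.1 ∪ {v | v ∈ g α ∧ o i ≤ ρ v}
      | some ⟨i, x, some u⟩ => x.1 ∪ {v | v < u.1 ∧ o i ≤ ρ v}
    have hsub : {x : Set T | Good ρ D g x α} ⊆ Set.range F := by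
      rintro x hx
      change Good ρ D g x α at hx
      cases hx with
      | zero => exact ⟨none, rfl⟩
      | @node x β u hx hβ =>
        refine ⟨some ⟨Ordinal.ToType.mk ⟨β, hβ⟩, ⟨x, ?_⟩, some ⟨u, rfl⟩⟩, ?_⟩
        · simpa [G, o] using hx
        · simp [F, o]
      | @lim x β _ hx hβ hδ =>
        refine ⟨some ⟨Ordinal.ToType.mk ⟨β, hβ⟩, ⟨x, ?_⟩, none⟩, ?_⟩
        · simpa [G, o] using hx
        · simp [F, o]
    calc #{x : Set T | Good ρ D g x α} ≤ #(Set.range F) := Cardinal.mk_le_mk_of_subset hsub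
      _ ≤ #(Option I) := Cardinal.mk_range_le
      _ < κ := by
        rw [Cardinal.mk_option]
        exact Cardinal.add_lt_of_lt hκ.aleph0_le hI
          (Cardinal.one_lt_aleph0.trans_le hκ.aleph0_le)

theorem nochain_GT (hκ : κ.IsRegular) (hκ' : ℵ₀ < κ) (hT : NA κ T ρ)
    (hg : LocChain κ ρ D g) (c : Set (GT ρ D g))
    (hc : ∀ x ∈ c, ∀ y ∈ c, x ≤ y ∨ y ≤ x) : #c < κ := by
  by_contra hcard
  push Not at hcard
  have hR := ranked_GT (κ := κ) hT.toRanked hg
  have hlim : IsSuccLimit κ.ord := isSuccLimit_ord hκ.aleph0_le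
  have hunb : ∀ α < κ.ord, ∃ x ∈ c, α ≤ lv x := fun α hα =>
    hR.unbounded_of_large hc hcard hα
  let s : Set T := {v | ∃ x ∈ c, v ∈ x.1}
  have hs : ∀ ξ < κ.ord, Good ρ D g {v | v ∈ s ∧ ρ v < ξ} ξ := by
    intro ξ hξ
    obtain ⟨x, hx, hx'⟩ := hunb ξ hξ
    have h1 := (lv_spec x).restr hT.toRanked hg hx'
    convert h1 using 1
    ext v
    simp only [Set.mem_ofPred_eq]
    constructor
    · rintro ⟨⟨y, hy, hvy⟩, hv⟩
      refine ⟨?_, hv⟩
      rcases hc x hx y hy with h2 | h2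
      · obtain ⟨v', hv', h3⟩ := ((lv_spec x).trans hT.toRanked hg).2.1 (ρ v) (hv.trans_le hx')
        have := ((lv_spec y).trans hT.toRanked hg).2.2 v' (h2 hv') v hvy h3
        rw [← this]
        exact hv'
      · exact h2 hvy
    · rintro ⟨hv, hv'⟩
      exact ⟨⟨x, hx, hv⟩, hv'⟩
  have hs_mem : ∀ v ∈ s, ∀ ξ, ρ v < ξ → v ∈ {v | v ∈ s ∧ ρ v < ξ} := fun v hv ξ h => ⟨hv, h⟩
  -- `s` is not a chain above any level
  have hnc : ∀ β : Ordinal.{u}, ∃ p : T × T, β < κ.ord → (p.1 ∈ s ∧ p.2 ∈ s ∧ β ≤ ρ p.1 ∧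
      β ≤ ρ p.2 ∧ ¬ (p.1 ≤ p.2 ∨ p.2 ≤ p.1)) := by
    intro β
    by_cases hβ : β < κ.ord
    swap
    · obtain ⟨t, _⟩ := hT.ex 0 hlim.bot_lt
      exact ⟨(t, t), fun h => absurd h hβ⟩
    by_contra hcon
    have hch : ∀ v ∈ {v | v ∈ s ∧ β ≤ ρ v}, ∀ w ∈ {v | v ∈ s ∧ β ≤ ρ v}, v ≤ w ∨ w ≤ v := by
      rintro v ⟨hv, hv'⟩ w ⟨hw, hw'⟩
      by_contra h
      exact hcon ⟨(v, w), fun _ => ⟨hv, hw, hv', hw', h⟩⟩
    have h1 := hT.nochain _ hch
    have h2 : κ ≤ #{v | v ∈ s ∧ β ≤ ρ v} := by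
      apply large_of_unbounded hκ hT.lt
      intro α hα
      have hmax : max α β < κ.ord := max_lt hα hβ
      obtain ⟨v, hv, hv'⟩ := ((hs _ (hlim.add_one_lt hmax)).trans hT.toRanked hg).2.1
        (max α β) (lt_add_one _)
      exact ⟨v, ⟨hv.1, by rw [hv']; exact le_max_right _ _⟩, by rw [hv']; exact le_max_left _ _⟩
    exact absurd h1 (not_lt.mpr h2)
  choose p hp using hnc
  let H : Ordinal.{u} → Ordinal.{u} := fun β => max (ρ (p β).1) (ρ (p β).2)
  have hA := isClubIn_closure hκ hκ' H (fun α _ => max_lt (hT.lt _) (hT.lt _))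
  have hN : ∀ β : Ordinal.{u}, ∃ γ : Ordinal.{u}, β < κ.ord →
      (γ ∈ {δ | δ < κ.ord ∧ IsSuccLimit δ ∧ ∀ α < δ, H α < δ} ∧ β < γ) := by
    intro β
    by_cases hβ : β < κ.ord
    · obtain ⟨γ, h1, h2⟩ := hA.unbounded β hβ
      exact ⟨γ, fun _ => ⟨h1, h2⟩⟩
    · exact ⟨0, fun h => absurd h hβ⟩
  choose N hN using hN
  obtain ⟨α, ⟨hα, hαlim, hαN⟩, _⟩ :=
    (isClubIn_closure hκ hκ' N (fun α hα => (hN α hα).1.1)).unbounded 0 hlim.bot_lt
  have hgood := hs α hα
  generalize hx : {v | v ∈ s ∧ ρ v < α} = x at hgood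
  cases hgood with
  | zero => exact hαlim.ne_bot rfl
  | @node x' β u hx' hβ =>
    have hβκ := hβ.trans hα
    obtain ⟨h1, h2, h3, h4, h5⟩ := hp β hβκ
    have hH : H β < ρ u := ((hN β hβκ).1.2.2 β (hN β hβκ).2).trans (hαN β hβ)
    have hx'tr := hx'.trans hT.toRanked hg
    have m1 : (p β).1 ∈ x' ∪ {v | v < u ∧ β ≤ ρ v} := by
      rw [← hx]
      exact ⟨h1, (le_max_left _ _).trans_lt hH⟩
    have m2 : (p β).2 ∈ x' ∪ {v | v < u ∧ β ≤ ρ v} := by
      rw [← hx]
      exact ⟨h2, (le_max_right _ _).trans_lt hH⟩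
    rcases m1 with m1 | m1
    · exact absurd (hx'tr.1 _ m1) (not_lt.mpr h3)
    rcases m2 with m2 | m2
    · exact absurd (hx'tr.1 _ m2) (not_lt.mpr h4)
    exact h5 (hT.chain m1.1.le m2.1.le)
  | @lim x' β _ hx' hβ hδ =>
    have hβκ := hβ.trans hα
    have hα' := (hN β hβκ).1
    have hβα' := (hN β hβκ).2
    have hα'α := hαN β hβ
    obtain ⟨η', hη', w, hw, hloc⟩ := hg.loc α hδ (N β) hα'α hα'.2.1.ne_bot
    have hη : max η' β < N β := max_lt hη' hβα'
    obtain ⟨h1, h2, h3, h4, h5⟩ := hp (max η' β) (hη.trans hα'.1)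
    have hH : H (max η' β) < N β := hα'.2.2 _ hη
    have r1 : ρ (p (max η' β)).1 < N β := (le_max_left _ _).trans_lt hH
    have r2 : ρ (p (max η' β)).2 < N β := (le_max_right _ _).trans_lt hH
    have hx'tr := hx'.trans hT.toRanked hg
    have m1 : (p (max η' β)).1 ∈ x' ∪ {v | v ∈ g α ∧ β ≤ ρ v} := by
      rw [← hx]
      exact ⟨h1, r1.trans hα'α⟩
    have m2 : (p (max η' β)).2 ∈ x' ∪ {v | v ∈ g α ∧ β ≤ ρ v} := by
      rw [← hx]
      exact ⟨h2, r2.trans hα'α⟩
    rcases m1 with m1 | m1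
    · exact absurd (hx'tr.1 _ m1) (not_lt.mpr ((le_max_right _ _).trans h3))
    rcases m2 with m2 | m2
    · exact absurd (hx'tr.1 _ m2) (not_lt.mpr ((le_max_right _ _).trans h4))
    have q1 := (hloc _ ((le_max_left _ _).trans h3) r1).mp m1.1
    have q2 := (hloc _ ((le_max_left _ _).trans h4) r2).mp m2.1
    exact h5 (hT.chain q1.le q2.le)

theorem na_GT (hκ : κ.IsRegular) (hκ' : ℵ₀ < κ) (hT : NA κ T ρ) (hg : LocChain κ ρ D g) :
    NA κ (GT ρ D g) (lv (ρ := ρ) (D := D) (g := g)) where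
  toRanked := ranked_GT hT.toRanked hg
  lt := fun x => (lv_spec x).lt hT hg (isSuccLimit_ord hκ.aleph0_le).bot_lt
  ex := by
    intro α hα
    rcases eq_or_ne α 0 with h0 | h0
    · subst h0
      exact ⟨⟨∅, 0, Good.zero⟩, lv_eq hT.toRanked hg Good.zero⟩
    · obtain ⟨u, hu⟩ := hT.ex α hα
      have h1 : Good ρ D g (∅ ∪ {v | v < u ∧ 0 ≤ ρ v}) (ρ u) :=
        Good.node u Good.zero (by rw [hu]; exact bot_lt_iff_ne_bot.mpr h0)
      refine ⟨⟨_, _, h1⟩, ?_⟩
      rw [lv_eq hT.toRanked hg h1, hu]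
  small := by
    intro α hα
    refine lt_of_le_of_lt ?_ (small_GT hκ hT hg α hα)
    refine Cardinal.mk_le_of_injective (f := fun x => ⟨x.1.1, ?_⟩) ?_
    · have := lv_spec x.1
      rw [x.2] at this
      exact this
    · intro x y hxy
      have := congrArg Subtype.val hxy
      exact Subtype.ext (Subtype.ext this)
  nochain := nochain_GT hκ hκ' hT hg

theorem isAronszajn_GT (hκ : κ.IsRegular) (hκ' : ℵ₀ < κ) (hT : NA κ T ρ)
    (hg : LocChain κ ρ D g) : IsAronszajn κ (GT ρ D g) :=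
  (na_GT hκ hκ' hT hg).isAronszajn
    ⟨⟨∅, 0, Good.zero⟩, fun x => Set.empty_subset x.1⟩

end

end Run7.h632
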