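import Pool.Agent.Run7.h632.Dia2

/-!
# Finite increasing lists of nodes and the transversals they define
-/

open Ordinal Cardinal Set Order

universe u

namespace Run7.h632

section

set_option linter.unusedSectionVars false

variable {T : Type u} [PartialOrder T] {κ : Cardinal.{u}} {ρ : T → Ordinal.{u}}
  {D : Set Ordinal.{u}} {g : Ordinal.{u} → Set T}

/-- The level of a list. -/
noncomputable def top (ρ : T → Ordinal.{u}) : List T → Ordinal.{u}
  | [] => 0
  | u :: _ => ρ u

/-- The transversal of a list. -/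
def HL (ρ : T → Ordinal.{u}) : List T → Set T
  | [] => ∅
  | u :: l => HL ρ l ∪ {v | v < u ∧ top ρ l ≤ ρ v}

/-- Increasing lists. -/
def Inc (ρ : T → Ordinal.{u}) : List T → Prop
  | [] => True
  | u :: l => Inc ρ l ∧ top ρ l < ρ u

/-- The maximum of the levels in a list. -/
noncomputable def mx (ρ : T → Ordinal.{u}) : List T → Ordinal.{u}
  | [] => 0
  | u :: l => max (ρ u) (mx ρ l)

theorem Inc.mx_le {l : List T} (h : Inc ρ l) : mx ρ l ≤ top ρ l := by
  induction l with
  | nil => exact le_rfl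
  | cons u l ih => exact max_le le_rfl ((ih h.1).trans h.2.le)

theorem Inc.good {l : List T} (h : Inc ρ l) : Good ρ D g (HL ρ l) (top ρ l) := by
  induction l with
  | nil => exact Good.zero
  | cons u l ih => exact Good.node u (ih h.1) h.2

theorem Inc.of_append {m l : List T} (h : Inc ρ (m ++ l)) : Inc ρ l ∧ top ρ l ≤ top ρ (m ++ l) := by
  induction m with
  | nil => exact ⟨h, le_rfl⟩
  | cons u m ih =>
    have h' : Inc ρ (m ++ l) ∧ top ρ (m ++ l) < ρ u := h
    exact ⟨(ih h'.1).1, (ih h'.1).2.trans h'.2.le⟩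

theorem Inc.mem_append {m l : List T} (h : Inc ρ (m ++ l)) {v : T} (hv : ρ v < top ρ l) :
    v ∈ HL ρ (m ++ l) ↔ v ∈ HL ρ l := by
  induction m with
  | nil => exact Iff.rfl
  | cons u m ih =>
    have h' : Inc ρ (m ++ l) ∧ top ρ (m ++ l) < ρ u := h
    rw [← ih h'.1]
    show v ∈ HL ρ (m ++ l) ∪ {v | v < u ∧ top ρ (m ++ l) ≤ ρ v} ↔ _
    constructor
    · rintro (h1 | h1)
      · exact h1
      · exact absurd (h1.2.trans_lt hv) (not_lt.mpr h'.1.of_append.2)
    · exact fun h1 => Or.inl h1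

theorem HL_subset_append {m l : List T} : HL ρ l ⊆ HL ρ (m ++ l) := by
  induction m with
  | nil => exact fun v h => h
  | cons u m ih => exact fun v h => Or.inl (ih h)

theorem Inc.mem_lt (hT : Ranked T ρ) {l : List T} (h : Inc ρ l) {v : T} (hv : v ∈ HL ρ l) :
    ρ v < top ρ l := by
  induction l with
  | nil => exact hv.elim
  | cons u l ih =>
    rcases hv with hv | hv
    · exact (ih h.1 hv).trans h.2
    · exact hT.mono hv.1

theorem Inc.loc (hT : Ranked T ρ) {l : List T} (h : Inc ρ l) {ξ : Ordinal.{u}}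
    (hξ : ξ ≤ top ρ l) (h0 : ξ ≠ 0) : ∃ η < ξ, ∃ w, ρ w = ξ ∧
    ∀ v, η ≤ ρ v → ρ v < ξ → (v ∈ HL ρ l ↔ v < w) := by
  induction l with
  | nil => exact absurd (le_antisymm hξ bot_le) h0
  | cons u l ih =>
    by_cases hc : ξ ≤ top ρ l
    · obtain ⟨η, hη, w, hw, hloc⟩ := ih h.1 hc
      refine ⟨η, hη, w, hw, ?_⟩
      intro v h1 h2
      rw [← hloc v h1 h2]
      exact Inc.mem_append (m := [u]) h (h2.trans_le hc)
    · push Not at hc
      have hw : ∃ w, w ≤ u ∧ ρ w = ξ := by
        rcases hξ.eq_or_lt with h1 | h1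
        · exact ⟨u, le_rfl, h1.symm⟩
        · obtain ⟨w, hw, hw'⟩ := hT.pred h1
          exact ⟨w, hw.le, hw'⟩
      obtain ⟨w, hwu, hw⟩ := hw
      refine ⟨top ρ l, hc, w, hw, ?_⟩
      intro v h1 h2
      constructor
      · rintro (h3 | h3)
        · exact absurd (h.1.mem_lt hT h3) (not_lt.mpr h1)
        · exact hT.lt_of h3.1.le hwu (by rw [hw]; exact h2)
      · intro h3
        exact Or.inr ⟨h3.trans_le hwu, h1⟩

/-- The limit of a sequence of increasing lists. -/
def limHL (ρ : T → Ordinal.{u}) (l : ℕ → List T) : Set T := {v | ∃ n, v ∈ HL ρ (l n)}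

theorem limHL_iff {l : ℕ → List T} (hinc : ∀ n, Inc ρ (l n))
    (hext : ∀ n, ∃ m, l (n + 1) = m ++ l n) (n : ℕ) {v : T} (hv : ρ v < top ρ (l n)) :
    v ∈ limHL ρ l ↔ v ∈ HL ρ (l n) := by
  have hext' : ∀ n k, ∃ m, l (n + k) = m ++ l n := by
    intro n k
    induction k with
    | zero => exact ⟨[], rfl⟩
    | succ k ih =>
      obtain ⟨m, hm⟩ := ih
      obtain ⟨m', hm'⟩ := hext (n + k)
      refine ⟨m' ++ m, ?_⟩
      rw [← add_assoc, hm', hm, List.append_assoc]
  constructor
  · rintro ⟨k, hk⟩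
    rcases le_total n k with h | h
    · obtain ⟨j, rfl⟩ := Nat.exists_eq_add_of_le h
      obtain ⟨m, hm⟩ := hext' n j
      rw [hm] at hk
      exact (Inc.mem_append (by rw [← hm]; exact hinc _) hv).mp hk
    · obtain ⟨j, rfl⟩ := Nat.exists_eq_add_of_le h
      obtain ⟨m, hm⟩ := hext' k j
      rw [hm]
      exact HL_subset_append hk
  · exact fun h => ⟨n, h⟩

end

end Run7.h632
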