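import Mathlib

/-!
# Sierpinski's functions from `2 ^ θ = θ⁺`
-/

open Ordinal Cardinal Set Order

universe u

namespace Run7.h632

theorem mk_Iic_toType_ord_lt {c : Cardinal.{u}} (hc : ℵ₀ ≤ c) (i : c.ord.ToType) :
    #(Set.Iic i) < c := by
  have h1 : Set.Iic i = Set.Iio i ∪ {i} := by
    ext x
    simp only [Set.mem_Iic, Set.mem_union, Set.mem_Iio, Set.mem_singleton_iff]
    exact le_iff_lt_or_eq
  rw [h1]
  refine (Cardinal.mk_union_le _ _).trans_lt ?_
  apply Cardinal.add_lt_of_lt hc (Cardinal.mk_Iio_toType_ord_lt i)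
  rw [Cardinal.mk_singleton]
  exact Cardinal.one_lt_aleph0.trans_le hc

/-- Under `2 ^ θ = θ⁺` there are `θ` many functions `φ j : θ⁺ → θ⁺` such that every subset `Y` of
`θ⁺` of size `θ⁺` is mapped onto `θ⁺` by one of them. -/
theorem sierpinski {θ : Cardinal.{u}} (hθ : ℵ₀ ≤ θ) (h2 : (2 : Cardinal.{u}) ^ θ = succ θ) :
    ∃ φ : θ.ord.ToType → (succ θ).ord.ToType → (succ θ).ord.ToType,
      ∀ Y : Set (succ θ).ord.ToType, θ < #Y → ∃ j, ∀ l, ∃ y ∈ Y, φ j y = l := by
  classical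
  have hθ' : ℵ₀ ≤ succ θ := hθ.trans (le_succ θ)
  have hmkΘ : #θ.ord.ToType = θ := Cardinal.mk_ord_toType θ
  have hmkL : #(succ θ).ord.ToType = succ θ := Cardinal.mk_ord_toType _
  have hne : Nonempty (succ θ).ord.ToType := by
    rw [← Cardinal.mk_ne_zero_iff, hmkL]
    exact (Cardinal.aleph0_pos.trans_le hθ').ne'
  -- enumerate all functions `θ → θ⁺`
  have hcard : #(θ.ord.ToType → (succ θ).ord.ToType) ≤ #(succ θ).ord.ToType := by
    rw [← Cardinal.power_def, hmkΘ, hmkL, ← h2, ← Cardinal.power_mul, Cardinal.mul_eq_self hθ]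
  have hne2 : Nonempty (θ.ord.ToType → (succ θ).ord.ToType) := inferInstance
  obtain ⟨E, hE⟩ : ∃ E : (succ θ).ord.ToType → (θ.ord.ToType → (succ θ).ord.ToType),
      Function.Surjective E := by
    rw [Cardinal.le_def] at hcard
    obtain ⟨g⟩ := hcard
    exact ⟨Function.invFun g, Function.invFun_surjective g.injective⟩
  -- enumerate the proper initial segments
  have hs : ∀ ζ : (succ θ).ord.ToType, ∃ s : θ.ord.ToType → (succ θ).ord.ToType,
      ∀ η < ζ, ∃ j, s j = η := by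
    intro ζ
    have h1 : #(Set.Iio ζ) ≤ #θ.ord.ToType := by
      rw [hmkΘ]
      exact Order.lt_succ_iff.mp (Cardinal.mk_Iio_toType_ord_lt ζ)
    rw [Cardinal.le_def] at h1
    obtain ⟨g⟩ := h1
    by_cases hem : Nonempty (Set.Iio ζ)
    · refine ⟨fun j => (Function.invFun g j : Set.Iio ζ), ?_⟩
      intro η hη
      have hη' : η ∈ Set.Iio ζ := hη
      refine ⟨g ⟨η, hη'⟩, ?_⟩
      have h3 : Function.invFun g (g ⟨η, hη'⟩) = ⟨η, hη'⟩ :=
        Function.leftInverse_invFun g.injective _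
      exact congrArg Subtype.val h3
    · refine ⟨fun _ => Classical.arbitrary _, ?_⟩
      intro η hη
      exact absurd ⟨⟨η, hη⟩⟩ hem
  choose s hs using hs
  refine ⟨fun j ζ => E (s ζ j) j, ?_⟩
  intro Y hY
  by_contra hcon
  push Not at hcon
  choose i hi using hcon
  obtain ⟨η, hη⟩ := hE i
  have hex : ∃ ζ ∈ Y, η < ζ := by
    by_contra h
    push Not at h
    have h1 : Y ⊆ Set.Iic η := fun y hy => h y hy
    have h3 := (Cardinal.mk_le_mk_of_subset h1).trans_lt (mk_Iic_toType_ord_lt hθ' η)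
    exact absurd (Order.lt_succ_iff.mp h3) (not_le.mpr hY)
  obtain ⟨ζ, hζ, hηζ⟩ := hex
  obtain ⟨j, hj⟩ := hs ζ η hηζ
  apply hi j ζ hζ
  rw [hj, hη]

end Run7.h632
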