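import Pool.Agent.Run7.h632.AbsDiag
import Pool.Agent.Run7.h632.Sier

/-!
# Ladders of length `θ⁺` in ordinals below `θ⁺⁺`
-/

open Ordinal Cardinal Set Order

universe u

namespace Run7.h632

/-- `c` is cofinal in `δ` and all its proper initial segments are of size at most `θ`. -/
structure IsLad (θ : Cardinal.{u}) (δ : Ordinal.{u}) (c : (succ θ).ord.ToType → Ordinal.{u}) :
    Prop where
  lt : ∀ i, c i < δ
  cof : ∀ β < δ, ∃ i, β < c i
  small : ∀ ξ < δ, #{i | c i < ξ} ≤ θ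

section

variable {θ : Cardinal.{u}} {δ : Ordinal.{u}} {c : (succ θ).ord.ToType → Ordinal.{u}}

theorem IsLad.add_one_lt (hc : IsLad θ δ c) {β : Ordinal.{u}} (hβ : β < δ) : β + 1 < δ := by
  obtain ⟨i, hi⟩ := hc.cof β hβ
  exact (Order.add_one_le_iff.mpr hi).trans_lt (hc.lt i)

/-- At most `θ` many ordinals below `δ` are bounded below `δ`. -/
theorem IsLad.bound (hθ : ℵ₀ ≤ θ) (hc : IsLad θ δ c) {ι : Type u} (hι : #ι ≤ θ)
    (f : ι → Ordinal.{u}) (hf : ∀ i, f i < δ) : ∃ β < δ, ∀ i, f i < β := by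
  by_contra hcon
  push Not at hcon
  choose j hj using fun i => hc.cof (f i) (hf i)
  have hcover : (Set.univ : Set (succ θ).ord.ToType) ⊆ ⋃ i : ι, {l | c l < c (j i)} := by
    intro l _
    obtain ⟨i, hi⟩ := hcon (c l) (hc.lt l)
    exact Set.mem_iUnion.mpr ⟨i, hi.trans_lt (hj i)⟩
  have h1 : #(Set.univ : Set (succ θ).ord.ToType) = succ θ := by
    rw [Cardinal.mk_univ]
    exact Cardinal.mk_ord_toType _
  have h2 : #(⋃ i : ι, {l | c l < c (j i)} : Set (succ θ).ord.ToType) ≤ θ := by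
    refine (Cardinal.mk_iUnion_le _).trans ?_
    calc #ι * ⨆ i, #{l | c l < c (j i)} ≤ θ * θ := by
          refine mul_le_mul' hι ?_
          exact ciSup_le' (fun i => hc.small _ (hc.lt _))
      _ = θ := Cardinal.mul_eq_self hθ
  have h3 := (Cardinal.mk_le_mk_of_subset hcover).trans h2
  rw [h1] at h3
  exact absurd h3 (not_le.mpr (Order.lt_succ θ))

theorem mk_L_lt : #(succ θ).ord.ToType < succ (succ θ) := by
  rw [Cardinal.mk_ord_toType]
  exact Order.lt_succ _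

theorem reg_kappa (hθ : ℵ₀ ≤ θ) : (succ (succ θ)).IsRegular :=
  Cardinal.isRegular_succ (hθ.trans (Order.le_succ θ))

theorem unc_kappa (hθ : ℵ₀ ≤ θ) : ℵ₀ < succ (succ θ) :=
  (hθ.trans (Order.le_succ θ)).trans_lt (Order.lt_succ _)

/-- Fast increasing sequences of length `θ⁺` in a club of `θ⁺⁺`. -/
theorem exists_seq (hθ : ℵ₀ ≤ θ) {E : Set Ordinal.{u}} (hE : IsClubIn (succ (succ θ)).ord E)
    (H : Ordinal.{u} → Ordinal.{u}) (hH : ∀ α < (succ (succ θ)).ord, H α < (succ (succ θ)).ord)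
    {β : Ordinal.{u}} (hβ : β < (succ (succ θ)).ord) :
    ∃ a : (succ θ).ord.ToType → Ordinal.{u}, (∀ l, a l ∈ E) ∧ (∀ l, β < a l) ∧
      ∀ l' l, l' < l → H (a l') < a l ∧ a l' < a l := by
  classical
  have hreg := reg_kappa hθ
  -- one step
  have hstep : ∀ (l : (succ θ).ord.ToType) (p : ∀ l', l' < l → E), ∃ x : E, β < x.1 ∧
      ∀ l' (h : l' < l), H (p l' h) < x.1 ∧ (p l' h).1 < x.1 := by
    intro l p
    have hcard : #(Set.Iio l) < succ (succ θ) := by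
      refine lt_of_le_of_lt (Cardinal.mk_set_le _) mk_L_lt
    obtain ⟨γ, hγ, hγ'⟩ := exists_bound hreg hcard
      (fun l' : Set.Iio l => max (H (p l'.1 l'.2)) (p l'.1 l'.2).1)
      (fun l' => max_lt (hH _ (hE.lt _ (p l'.1 l'.2).2)) (hE.lt _ (p l'.1 l'.2).2))
    obtain ⟨x, hx, hx'⟩ := hE.unbounded (max β γ) (max_lt hβ hγ)
    refine ⟨⟨x, hx⟩, (le_max_left _ _).trans_lt hx', ?_⟩
    intro l' h
    have h1 := (hγ' ⟨l', h⟩).trans ((le_max_right β γ).trans_lt hx')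
    exact ⟨(le_max_left _ _).trans_lt h1, (le_max_right _ _).trans_lt h1⟩
  choose F hF1 hF2 using hstep
  let a : (succ θ).ord.ToType → E :=
    WellFounded.fix (IsWellFounded.wf (r := fun x y : (succ θ).ord.ToType => x < y)) F
  have ha : ∀ l, a l = F l (fun l' _ => a l') := fun l => WellFounded.fix_eq _ _ _
  refine ⟨fun l => (a l).1, fun l => (a l).2, ?_, ?_⟩
  · intro l
    show β < (a l).1
    rw [ha l]
    exact hF1 l _
  · intro l' l h
    show H (a l').1 < (a l).1 ∧ (a l').1 < (a l).1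
    rw [ha l]
    exact hF2 l _ l' h

theorem nonempty_L (hθ : ℵ₀ ≤ θ) : Nonempty (succ θ).ord.ToType := by
  rw [← Cardinal.mk_ne_zero_iff, Cardinal.mk_ord_toType]
  exact (Cardinal.aleph0_pos.trans_le (hθ.trans (Order.le_succ θ))).ne'

/-- There is no largest element in `θ⁺`. -/
theorem exists_gt_L (hθ : ℵ₀ ≤ θ) (l : (succ θ).ord.ToType) :
    ∃ l', l < l' := by
  by_contra hcon
  push Not at hcon
  have h1 : (Set.univ : Set (succ θ).ord.ToType) ⊆ Set.Iic l := fun x _ => hcon x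
  have h2 := (Cardinal.mk_le_mk_of_subset h1).trans_lt
    (mk_Iic_toType_ord_lt (hθ.trans (Order.le_succ θ)) l)
  rw [Cardinal.mk_univ, Cardinal.mk_ord_toType] at h2
  exact lt_irrefl _ h2

theorem seq_sup (hθ : ℵ₀ ≤ θ) {E : Set Ordinal.{u}} (hE : IsClubIn (succ (succ θ)).ord E)
    (a : (succ θ).ord.ToType → Ordinal.{u}) (haE : ∀ l, a l ∈ E)
    (ha : ∀ l' l, l' < l → a l' < a l) :
    (⨆ l, a l) < (succ (succ θ)).ord ∧ (⨆ l, a l) ∈ E ∧ (∀ l, a l < ⨆ l, a l) ∧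
      IsLad θ (⨆ l, a l) a := by
  have hreg := reg_kappa hθ
  have hlt : (⨆ l, a l) < (succ (succ θ)).ord := by
    apply Ordinal.iSup_lt_of_lt_cof
    · rw [hreg.cof_ord]
      exact mk_L_lt
    · exact fun l => hE.lt _ (haE l)
  have hle : ∀ l, a l ≤ ⨆ l, a l := fun l => Ordinal.le_iSup a l
  have hlt' : ∀ l, a l < ⨆ l, a l := by
    intro l
    obtain ⟨l', hl'⟩ := exists_gt_L hθ l
    exact (ha l l' hl').trans_le (hle l')
  have hcof : ∀ β < ⨆ l, a l, ∃ l, β < a l := fun β hβ => Ordinal.lt_iSup_iff.mp hβ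
  refine ⟨hlt, ?_, hlt', ?_⟩
  · apply hE.closed _ hlt
    · obtain ⟨l⟩ := nonempty_L hθ
      exact ((bot_le : (⊥ : Ordinal.{u}) ≤ a l).trans_lt (hlt' l)).ne'
    · intro α hα
      obtain ⟨l, hl⟩ := hcof α hα
      exact ⟨a l, haE l, hl, hlt' l⟩
  · refine ⟨hlt', hcof, ?_⟩
    intro ξ hξ
    obtain ⟨l, hl⟩ := hcof ξ hξ
    have hsub : {i | a i < ξ} ⊆ Set.Iio l := by
      intro i hi
      by_contra hcon
      have h1 : l ≤ i := not_lt.mp hcon
      rcases h1.eq_or_lt with h2 | h2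
      · subst h2
        exact lt_asymm hl hi
      · exact lt_asymm (hl.trans (ha l i h2)) hi
    refine (Cardinal.mk_le_mk_of_subset hsub).trans ?_
    exact Order.lt_succ_iff.mp (Cardinal.mk_Iio_toType_ord_lt l)

/-- Every club contains arbitrarily large points with a ladder. -/
theorem exists_lad_mem (hθ : ℵ₀ ≤ θ) {E : Set Ordinal.{u}}
    (hE : IsClubIn (succ (succ θ)).ord E) {β : Ordinal.{u}} (hβ : β < (succ (succ θ)).ord) :
    ∃ δ ∈ E, β < δ ∧ ∃ c, IsLad θ δ c := by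
  obtain ⟨a, ha1, ha2, ha3⟩ := exists_seq hθ hE (fun _ => 0)
    (fun _ _ => (isSuccLimit_ord (reg_kappa hθ).aleph0_le).bot_lt) hβ
  obtain ⟨_, h2, h3, h4⟩ := seq_sup hθ hE a ha1 (fun l' l h => (ha3 l' l h).2)
  obtain ⟨l⟩ := nonempty_L hθ
  exact ⟨_, h2, (ha2 l).trans (h3 l), a, h4⟩

end

end Run7.h632
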