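import Pool.Agent.Run7.h632.Club

/-!
# Narrow Aronszajn trees through their rank functions
-/

open Ordinal Cardinal Set Order

universe u

namespace Run7.h632

/-- The internal form of a narrow `κ`-Aronszajn tree with rank function `ρ`. -/
structure NA (κ : Cardinal.{u}) (T : Type u) [PartialOrder T] (ρ : T → Ordinal.{u}) : Prop
    extends Ranked T ρ where
  lt : ∀ t, ρ t < κ.ord
  ex : ∀ α < κ.ord, ∃ t, ρ t = α
  small : ∀ α < κ.ord, #{t | ρ t = α} < κ
  nochain : ∀ c : Set T, (∀ x ∈ c, ∀ y ∈ c, x ≤ y ∨ y ≤ x) → #c < κ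

theorem NA.isAronszajn {κ : Cardinal.{u}} {T : Type u} [PartialOrder T] {ρ : T → Ordinal.{u}}
    (h : NA κ T ρ) (hr : ∃ r : T, ∀ t : T, r ≤ t) : IsAronszajn κ T where
  tree := h.isTree hr
  height_eq := h.toRanked.height_eq h.lt h.ex
  card_lev := by
    intro α hα
    rw [h.lev_eq]
    exact h.small α hα
  no_branch := by
    rintro ⟨b, hb, hb'⟩
    have h1 : #b < κ := by
      apply h.nochain
      intro x hx y hy
      rcases trichotomous_of (fun x y : b => x < y) ⟨x, hx⟩ ⟨y, hy⟩ with h5 | h5 | h5
      · exact Or.inl (le_of_lt h5)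
      · exact Or.inl (le_of_eq (congrArg Subtype.val h5))
      · exact Or.inr (le_of_lt h5)
    have h2 : #b = κ := by
      rw [← Ordinal.card_type (fun x y : b => x < y), hb', Cardinal.card_ord]
    exact absurd h1 (by rw [h2]; exact lt_irrefl _)

theorem IsAronszajn.exists_na {κ : Cardinal.{u}} {T : Type u} [PartialOrder T]
    (h : IsAronszajn κ T) : ∃ ρ : T → Ordinal.{u}, NA κ T ρ := by
  obtain ⟨ρ, hρ⟩ := h.tree.exists_ranked
  have hne : {α | Lev T α = ∅}.Nonempty := by
    by_contra hcon
    rw [Set.not_nonempty_iff_eq_empty] at hcon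
    have hall : ∀ α : Ordinal.{u}, ∃ t : T, ρ t = α := by
      intro α
      have : α ∉ {α | Lev T α = ∅} := by rw [hcon]; exact Set.notMem_empty _
      have h2 : (Lev T α).Nonempty := Set.nonempty_iff_ne_empty.mpr this
      obtain ⟨t, ht⟩ := h2
      exact ⟨t, hρ.mem_lev.mp ht⟩
    have hsurj : Function.Surjective ρ := hall
    have : Small.{u} Ordinal.{u} := small_of_surjective hsurj
    exact _root_.not_small_ordinal this
  have hκ : Lev T κ.ord = ∅ := by
    have := csInf_mem hne
    rw [← h.height_eq]
    exact this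
  have hlt : ∀ t, ρ t < κ.ord := by
    intro t
    by_contra hcon
    push Not at hcon
    have hemp : ∀ s, s ∉ Lev T κ.ord := by
      intro s; rw [hκ]; exact Set.notMem_empty _
    rcases hcon.eq_or_lt with h1 | h1
    · exact hemp t (hρ.mem_lev.mpr h1.symm)
    · obtain ⟨s, _, hs⟩ := hρ.pred h1
      exact hemp s (hρ.mem_lev.mpr hs)
  refine ⟨ρ, ⟨hρ, hlt, ?_, ?_, ?_⟩⟩
  · intro α hα
    by_contra hcon
    push Not at hcon
    have : Lev T α = ∅ := by
      rw [Set.eq_empty_iff_forall_notMem]
      intro t ht
      exact hcon t (hρ.mem_lev.mp ht)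
    have h2 : height T ≤ α := csInf_le' this
    rw [h.height_eq] at h2
    exact absurd hα (not_lt.mpr h2)
  · intro α hα
    have := h.card_lev α hα
    rwa [hρ.lev_eq] at this
  · intro c hc
    by_contra hcon
    push Not at hcon
    apply h.no_branch
    have hwo : IsWellOrder c (fun x y => x < y) := hρ.chain_wo hc
    refine ⟨c, hwo, le_antisymm ?_ ?_⟩
    · conv_rhs => rw [← Ordinal.type_toType κ.ord]
      let F : c → κ.ord.ToType := fun s => Ordinal.ToType.mk ⟨ρ s, hlt s⟩
      have hF : ∀ a b : c, F a < F b ↔ a < b := by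
        intro a b
        simp only [F, OrderIso.lt_iff_lt]
        constructor
        · intro h1
          rcases hc a a.2 b b.2 with h2 | h2
          · rcases h2.eq_or_lt with h3 | h3
            · exfalso
              have h4 : ρ a < ρ b := h1
              rw [h3] at h4
              exact lt_irrefl _ h4
            · exact h3
          · exact absurd (hρ.mono_le h2) (not_le.mpr h1)
        · intro h1
          exact hρ.mono h1
      have hinj : Function.Injective F := by
        intro a b hab
        rcases hc a a.2 b b.2 with h2 | h2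
        · rcases h2.eq_or_lt with h3 | h3
          · exact Subtype.ext h3
          · exact absurd hab ((hF a b).mpr h3).ne
        · rcases h2.eq_or_lt with h3 | h3
          · exact Subtype.ext h3.symm
          · exact absurd hab.symm ((hF b a).mpr h3).ne
      exact RelEmbedding.ordinal_type_le
        (⟨⟨F, hinj⟩, fun {a b} => hF a b⟩ : RelEmbedding _ _)
    · rw [Cardinal.ord_le, Ordinal.card_type]
      exact hcon

end Run7.h632
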