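import Pool.Agent.Run7.h632.Dia

/-!
# Guessing clubs of `ℵ₂` by countable patterns of order type `ω²`

At every point `δ` of countable cofinality there are `ℵ₁` many candidates for the pattern.
-/

open Ordinal Cardinal Set Order

universe u v

namespace Run7.h632

/-- The well-ordered type `ω₁`. -/
abbrev LL : Type u := (succ (ℵ₀ : Cardinal.{u})).ord.ToType

theorem LL_bound {ι : Type v} [Countable ι] (f : ι → LL.{u}) : ∃ j, ∀ i, f i < j := by
  have h : #(Set.range f) ≤ ℵ₀ := by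
    rw [Cardinal.le_aleph0_iff_set_countable]
    exact Set.countable_range f
  obtain ⟨j, hj⟩ := L_bound le_rfl h (fun x => x.1)
  exact ⟨j, fun i => hj ⟨f i, i, rfl⟩⟩

theorem countable_Iic_LL (j : LL.{u}) : (Set.Iic j).Countable := by
  rw [← Cardinal.le_aleph0_iff_set_countable]
  exact Order.lt_succ_iff.mp (mk_Iic_toType_ord_lt (Order.le_succ ℵ₀) j)

theorem countable_Iio_LL (j : LL.{u}) : (Set.Iio j).Countable :=
  (countable_Iic_LL j).mono Set.Iio_subset_Iic_self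

/-- Closure points of functions on `ω₁`. -/
theorem exists_closed_LL (h : LL.{u} → LL.{u}) (j0 : LL.{u}) :
    ∃ j, j0 < j ∧ ∀ i < j, h i < j := by
  have hstep : ∀ j : LL.{u}, ∃ j', j < j' ∧ ∀ i ≤ j, h i < j' := by
    intro j
    have := (countable_Iic_LL j).to_subtype
    obtain ⟨j', hj'⟩ := LL_bound (ι := Option (Set.Iic j))
      (fun o => match o with
        | none => j
        | some i => h i.1)
    exact ⟨j', hj' none, fun i hi => hj' (some ⟨i, hi⟩)⟩
  choose N hN1 hN2 using hstep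
  let s : ℕ → LL.{u} := fun n => Nat.rec (N j0) (fun _ x => N x) n
  have hs : ∀ n, s (n + 1) = N (s n) := fun _ => rfl
  obtain ⟨b, hb⟩ := LL_bound s
  let B : Set LL.{u} := {b | ∀ n, s n < b}
  have hB : B.Nonempty := ⟨b, hb⟩
  let j := WellFounded.min (IsWellFounded.wf (r := fun x y : LL.{u} => x < y)) B hB
  have hj : ∀ n, s n < j :=
    WellFounded.min_mem (IsWellFounded.wf (r := fun x y : LL.{u} => x < y)) B hB
  refine ⟨j, (hN1 j0).trans (hj 0), ?_⟩
  intro i hi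
  have h1 : i ∉ B := fun hiB =>
    WellFounded.not_lt_min (IsWellFounded.wf (r := fun x y : LL.{u} => x < y)) B hiB hi
  have h2 : ∃ n, i ≤ s n := by
    by_contra hcon
    push Not at hcon
    exact h1 hcon
  obtain ⟨n, hn⟩ := h2
  exact ((hN2 (s n) i hn).trans_le (le_of_eq (hs n).symm)).trans (hj (n + 1))

/-- Eventually constant functions on `ω₁`. -/
def Stable {α : Type v} (f : LL.{u} → α) : Prop := ∃ i0, ∀ i, i0 ≤ i → f i = f i0

theorem Stable.common {ι : Type v} [Countable ι] {f : ι → LL.{u} → ℕ}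
    (h : ∀ n, Stable (f n)) : ∃ i0, ∀ n i, i0 ≤ i → f n i = f n i0 := by
  choose s hs using h
  obtain ⟨i0, hi0⟩ := LL_bound s
  refine ⟨i0, fun n i hi => ?_⟩
  rw [hs n i ((hi0 n).le.trans hi), hs n i0 (hi0 n).le]

theorem stable_sInf (P : LL.{u} → Set ℕ) (i0 : LL.{u})
    (hanti : ∀ i, i0 ≤ i → ∀ i', i ≤ i' → P i' ⊆ P i) (hne : ∀ i, i0 ≤ i → (P i).Nonempty) :
    Stable (fun i => sInf (P i)) := by
  have hmono : ∀ i, i0 ≤ i → ∀ i', i ≤ i' → sInf (P i) ≤ sInf (P i') := by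
    intro i hi i' hi'
    exact Nat.sInf_le (hanti i hi i' hi' (Nat.sInf_mem (hne i' (hi.trans hi'))))
  by_cases hb : ∃ B, ∀ i, i0 ≤ i → sInf (P i) ≤ B
  · -- the values are bounded
    obtain ⟨B, hB⟩ := hb
    have key : ∀ k, ∀ i, i0 ≤ i → B ≤ sInf (P i) + k → ∃ i1, i ≤ i1 ∧ ∀ i', i1 ≤ i' →
        sInf (P i') = sInf (P i1) := by
      intro k
      induction k with
      | zero =>
        intro i hi h
        refine ⟨i, le_rfl, fun i' hi' => ?_⟩
        exact le_antisymm ((hB i' (hi.trans hi')).trans h) (hmono i hi i' hi')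
      | succ k ih =>
        intro i hi h
        by_cases hc : ∀ i', i ≤ i' → sInf (P i') = sInf (P i)
        · exact ⟨i, le_rfl, hc⟩
        · push Not at hc
          obtain ⟨i', hi', hne'⟩ := hc
          have h1 := hmono i hi i' hi'
          have h2 : sInf (P i) < sInf (P i') := lt_of_le_of_ne h1 hne'.symm
          obtain ⟨i1, h3, h4⟩ := ih i' (hi.trans hi') (by omega)
          exact ⟨i1, hi'.trans h3, h4⟩
    obtain ⟨i1, h1, h2⟩ := key B i0 le_rfl (Nat.le_add_left _ _)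
    exact ⟨i1, h2⟩
  · push Not at hb
    choose s hs1 hs2 using hb
    obtain ⟨i1, hi1⟩ := LL_bound s
    have h3 : sInf (P i1) < sInf (P (s (sInf (P i1)))) := hs2 _
    have h4 := hmono _ (hs1 (sInf (P i1))) i1 (hi1 _).le
    exact absurd h4 (not_le.mpr h3)

/-- `a n` is in `E` and a limit of `E` relative to the range of `a`. -/
def RLim (E : Set Ordinal.{u}) (a : ℕ → Ordinal.{u}) (n : ℕ) : Prop :=
  a n ∈ E ∧ ∀ k, a k < a n → ∃ l, a l ∈ E ∧ a k < a l ∧ a l < a n

theorem RLim.anti {E E' : Set Ordinal.{u}} (h : E' ⊆ E) {a : ℕ → Ordinal.{u}} {n : ℕ}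
    (hn : RLim E' a n) : RLim E a n := by
  refine ⟨h hn.1, fun k hk => ?_⟩
  obtain ⟨l, h1, h2, h3⟩ := hn.2 k hk
  exact ⟨l, h h1, h2, h3⟩

/-- The indices of the limit points of the pattern. -/
noncomputable def NN (E : Set Ordinal.{u}) (a : ℕ → Ordinal.{u}) : ℕ → ℕ
  | 0 => sInf {n | RLim E a n}
  | m + 1 => sInf {n | RLim E a n ∧ a (NN E a m) < a n ∧ a m < a n}

/-- The indices of the points of the pattern. -/
noncomputable def KK (E : Set Ordinal.{u}) (a : ℕ → Ordinal.{u}) (m : ℕ) : ℕ → ℕ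
  | 0 => NN E a m
  | k + 1 => sInf {l | a l ∈ E ∧ a (KK E a m k) < a l ∧ a l < a (NN E a (m + 1))}

/-- The relative limits are cofinal. -/
def RCof (E : Set Ordinal.{u}) (a : ℕ → Ordinal.{u}) : Prop :=
  ∀ n, ∃ n', a n < a n' ∧ RLim E a n'

section

variable {E : Set Ordinal.{u}} {a : ℕ → Ordinal.{u}}

theorem RCof.nonempty_zero (h : RCof E a) : {n | RLim E a n}.Nonempty := by
  obtain ⟨n', _, h2⟩ := h 0
  exact ⟨n', h2⟩

theorem RCof.nonempty_succ (h : RCof E a) (p q : ℕ) :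
    {n | RLim E a n ∧ a p < a n ∧ a q < a n}.Nonempty := by
  rcases le_total (a p) (a q) with h1 | h1
  · obtain ⟨n', h2, h3⟩ := h q
    exact ⟨n', h3, h1.trans_lt h2, h2⟩
  · obtain ⟨n', h2, h3⟩ := h p
    exact ⟨n', h3, h2, h1.trans_lt h2⟩

theorem NN_lim (h : RCof E a) (m : ℕ) : RLim E a (NN E a m) := by
  cases m with
  | zero => exact Nat.sInf_mem h.nonempty_zero
  | succ m => exact (Nat.sInf_mem (h.nonempty_succ _ _)).1

theorem NN_lt (h : RCof E a) (m : ℕ) : a (NN E a m) < a (NN E a (m + 1)) :=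
  (Nat.sInf_mem (h.nonempty_succ (NN E a m) m)).2.1

theorem lt_NN (h : RCof E a) (m : ℕ) : a m < a (NN E a (m + 1)) :=
  (Nat.sInf_mem (h.nonempty_succ (NN E a m) m)).2.2

theorem KK_spec (h : RCof E a) (m k : ℕ) :
    a (KK E a m k) ∈ E ∧ a (KK E a m k) < a (NN E a (m + 1)) := by
  induction k with
  | zero => exact ⟨(NN_lim h m).1, NN_lt h m⟩
  | succ k ih =>
    have hne : {l | a l ∈ E ∧ a (KK E a m k) < a l ∧ a l < a (NN E a (m + 1))}.Nonempty :=
      (NN_lim h (m + 1)).2 _ ih.2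
    have h1 := Nat.sInf_mem hne
    exact ⟨h1.1, h1.2.2⟩

theorem KK_nonempty (h : RCof E a) (m k : ℕ) :
    {l | a l ∈ E ∧ a (KK E a m k) < a l ∧ a l < a (NN E a (m + 1))}.Nonempty :=
  (NN_lim h (m + 1)).2 _ (KK_spec h m k).2

theorem KK_lt (h : RCof E a) (m k : ℕ) : a (KK E a m k) < a (KK E a m (k + 1)) :=
  (Nat.sInf_mem (KK_nonempty h m k)).2.1

end

theorem stable_NN {E : LL.{u} → Set Ordinal.{u}} {a : ℕ → Ordinal.{u}}
    (hE : ∀ i i', i ≤ i' → E i' ⊆ E i) (h : ∀ i, RCof (E i) a) (m : ℕ) :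
    Stable (fun i => NN (E i) a m) := by
  induction m with
  | zero =>
    obtain ⟨i0⟩ := nonempty_L.{u} (θ := ℵ₀) le_rfl
    exact stable_sInf (fun i => {n | RLim (E i) a n}) i0
      (fun i _ i' hi' n hn => hn.anti (hE i i' hi')) (fun i _ => (h i).nonempty_zero)
  | succ m ih =>
    obtain ⟨i0, hi0⟩ := ih
    have h1 := stable_sInf
      (fun i => {n | RLim (E i) a n ∧ a (NN (E i0) a m) < a n ∧ a m < a n}) i0
      (fun i _ i' hi' n hn => ⟨hn.1.anti (hE i i' hi'), hn.2⟩)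
      (fun i _ => (h i).nonempty_succ _ _)
    obtain ⟨i1, hi1⟩ := h1
    refine ⟨max i0 i1, ?_⟩
    have h2 : ∀ i, max i0 i1 ≤ i → NN (E i) a (m + 1) =
        sInf {n | RLim (E i1) a n ∧ a (NN (E i0) a m) < a n ∧ a m < a n} := by
      intro i hi
      refine Eq.trans ?_ (hi1 i ((le_max_right _ _).trans hi))
      show sInf {n | RLim (E i) a n ∧ a (NN (E i) a m) < a n ∧ a m < a n} = _
      have h3 : NN (E i) a m = NN (E i0) a m := hi0 i ((le_max_left _ _).trans hi)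
      rw [h3]
    intro i hi
    show NN (E i) a (m + 1) = NN (E (max i0 i1)) a (m + 1)
    rw [h2 i hi, h2 _ le_rfl]

theorem stable_KK {E : LL.{u} → Set Ordinal.{u}} {a : ℕ → Ordinal.{u}}
    (hE : ∀ i i', i ≤ i' → E i' ⊆ E i) (h : ∀ i, RCof (E i) a) (m k : ℕ) :
    Stable (fun i => KK (E i) a m k) := by
  obtain ⟨j0, hj0⟩ := stable_NN hE h (m + 1)
  induction k with
  | zero => exact stable_NN hE h m
  | succ k ih =>
    obtain ⟨j1, hj1⟩ := ih
    have hj2 : ∀ i, max j0 j1 ≤ i → NN (E i) a (m + 1) = NN (E j0) a (m + 1) :=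
      fun i hi => hj0 i ((le_max_left _ _).trans hi)
    have hj3 : ∀ i, max j0 j1 ≤ i → KK (E i) a m k = KK (E j1) a m k :=
      fun i hi => hj1 i ((le_max_right _ _).trans hi)
    have h1 := stable_sInf
      (fun i => {l | a l ∈ E i ∧ a (KK (E j1) a m k) < a l ∧ a l < a (NN (E j0) a (m + 1))})
      (max j0 j1)
      (fun i _ i' hi' n hn => ⟨hE i i' hi' hn.1, hn.2⟩)
      (fun i hi => by
        have h4 := KK_nonempty (h i) m k
        rw [hj2 i hi, hj3 i hi] at h4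
        exact h4)
    obtain ⟨i1, hi1⟩ := h1
    refine ⟨max (max j0 j1) i1, ?_⟩
    have h2 : ∀ i, max (max j0 j1) i1 ≤ i → KK (E i) a m (k + 1) =
        sInf {l | a l ∈ E i1 ∧ a (KK (E j1) a m k) < a l ∧ a l < a (NN (E j0) a (m + 1))} := by
      intro i hi
      refine Eq.trans ?_ (hi1 i ((le_max_right _ _).trans hi))
      show sInf {l | a l ∈ E i ∧ a (KK (E i) a m k) < a l ∧ a l < a (NN (E i) a (m + 1))} = _
      rw [hj2 i ((le_max_left _ _).trans hi), hj3 i ((le_max_left _ _).trans hi)]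
    intro i hi
    show KK (E i) a m (k + 1) = KK (E (max (max j0 j1) i1)) a m (k + 1)
    rw [h2 i hi, h2 _ le_rfl]

end Run7.h632
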