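import Pool.Agent.Run7.h632.PG
import Pool.Agent.Run7.h632.Dia2

/-!
# Guessing clubs of `ℵ₂` by countable patterns of order type `ω²`: the guessing theorem
-/

open Ordinal Cardinal Set Order

universe u v

namespace Run7.h632

/-- `γ` is a pattern of order type `ω²` cofinal in `δ`. -/
def Pat (δ : Ordinal.{u}) (γ : ℕ → ℕ → Ordinal.{u}) : Prop :=
  (∀ m k, γ m k < δ) ∧ (∀ m k, γ m k < γ m (k + 1)) ∧ (∀ m k, γ m k < γ (m + 1) 0) ∧
    ∀ β < δ, ∃ m, β < γ m 0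

theorem isClubIn_iInter {κ : Cardinal.{u}} (hκ : κ.IsRegular) (hκ' : ℵ₀ < κ) {ι : Type u}
    (hι : #ι < κ) (E : ι → Set Ordinal.{u}) (hE : ∀ n, IsClubIn κ.ord (E n)) :
    IsClubIn κ.ord {δ | δ < κ.ord ∧ ∀ n, δ ∈ E n} where
  lt := fun γ hγ => hγ.1
  unbounded := by
    intro α hα
    obtain ⟨E', hE', hsub⟩ := club_iInter hκ hκ' hι E hE
    obtain ⟨γ, h1, h2⟩ := hE'.unbounded α hα
    exact ⟨γ, ⟨hE'.lt γ h1, fun n => hsub n h1⟩, h2⟩
  closed := by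
    intro δ hδ h0 h
    refine ⟨hδ, fun n => (hE n).closed δ hδ h0 ?_⟩
    intro α hα
    obtain ⟨γ, h1, h2, h3⟩ := h α hα
    exact ⟨γ, h1.2 n, h2, h3⟩

/-- **Pattern guessing.** -/
theorem pattern_guess : ∃ C : Ordinal.{u} → LL.{u} → ℕ → ℕ → Ordinal.{u},
    ∀ E : Set Ordinal.{u}, IsClubIn (succ (succ (ℵ₀ : Cardinal.{u}))).ord E →
      ∃ δ ∈ E, ∃ j, Pat δ (C δ j) ∧ ∀ m k, C δ j m k ∈ E := by
  classical
  have hreg : (succ (succ (ℵ₀ : Cardinal.{u}))).IsRegular := reg_kappa le_rfl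
  have hunc : ℵ₀ < succ (succ (ℵ₀ : Cardinal.{u})) := unc_kappa le_rfl
  -- enumerations of initial segments
  have hpi : ∀ δ : Ordinal.{u}, ∃ π : LL.{u} → Ordinal.{u},
      δ ≠ 0 → δ < (succ (succ (ℵ₀ : Cardinal.{u}))).ord →
        (∀ j, π j < δ) ∧ ∀ β < δ, ∃ j, π j = β := by
    intro δ
    by_cases hδ : δ ≠ 0 ∧ δ < (succ (succ (ℵ₀ : Cardinal.{u}))).ord
    · obtain ⟨π, hπ⟩ := exists_pi hδ.1 hδ.2
      exact ⟨π, fun _ _ => hπ⟩
    · exact ⟨fun _ => 0, fun h1 h2 => absurd ⟨h1, h2⟩ hδ⟩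
  choose π hπ using hpi
  have ha : ∀ (δ : Ordinal.{u}) (j : LL.{u}), ∃ a : ℕ → Ordinal.{u},
      (Set.Iio j).Nonempty → Set.range a = π δ '' Set.Iio j := by
    intro δ j
    by_cases h : (Set.Iio j).Nonempty
    · obtain ⟨f, hf⟩ := ((countable_Iio_LL j).image (π δ)).exists_eq_range (h.image (π δ))
      exact ⟨f, fun _ => hf.symm⟩
    · exact ⟨fun _ => 0, fun h' => absurd h' h⟩
  choose a ha using ha
  let sys : Set Ordinal.{u} → Ordinal.{u} → LL.{u} → ℕ → ℕ → Ordinal.{u} :=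
    fun E δ j m k => a δ j (KK E (a δ j) m k)
  by_contra hcon
  push Not at hcon
  choose BE hBE1 hBE2 using hcon
  let Es : LL.{u} → Set Ordinal.{u} :=
    WellFounded.fix (IsWellFounded.wf (r := fun x y : LL.{u} => x < y))
      (fun i ih => {δ | δ < (succ (succ (ℵ₀ : Cardinal.{u}))).ord ∧
        ∀ x : Set.Iio i, δ ∈ ih x.1 x.2 ∩ BE (sys (ih x.1 x.2))})
  have hEs : ∀ i, Es i = {δ | δ < (succ (succ (ℵ₀ : Cardinal.{u}))).ord ∧
      ∀ x : Set.Iio i, δ ∈ Es x.1 ∩ BE (sys (Es x.1))} := fun i => WellFounded.fix_eq _ _ _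
  have hEclub : ∀ i, IsClubIn (succ (succ (ℵ₀ : Cardinal.{u}))).ord (Es i) := by
    intro i
    induction i using WellFoundedLT.induction with
    | _ i ih =>
      rw [hEs i]
      apply isClubIn_iInter hreg hunc
      · refine lt_of_le_of_lt (Cardinal.mk_set_le _) mk_L_lt
      · intro x
        exact club_inter hreg hunc (ih x.1 x.2) (hBE1 _)
  have hanti : ∀ i i', i < i' → Es i' ⊆ Es i ∩ BE (sys (Es i)) := by
    intro i i' hii δ hδ
    rw [hEs i'] at hδ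
    exact hδ.2 ⟨i, hii⟩
  have hanti' : ∀ i i', i ≤ i' → Es i' ⊆ Es i := by
    intro i i' hii
    rcases hii.eq_or_lt with rfl | h
    · exact le_rfl
    · exact (hanti i i' h).trans Set.inter_subset_left
  -- the intersection and its limit points
  have hinf := isClubIn_iInter hreg hunc mk_L_lt Es hEclub
  have hnext : ∀ E : Set Ordinal.{u}, IsClubIn (succ (succ (ℵ₀ : Cardinal.{u}))).ord E →
      ∃ N : Ordinal.{u} → Ordinal.{u}, ∀ α < (succ (succ (ℵ₀ : Cardinal.{u}))).ord,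
        N α ∈ E ∧ α < N α := by
    intro E hE
    have : ∀ α : Ordinal.{u}, ∃ γ, α < (succ (succ (ℵ₀ : Cardinal.{u}))).ord → γ ∈ E ∧ α < γ := by
      intro α
      by_cases hα : α < (succ (succ (ℵ₀ : Cardinal.{u}))).ord
      · obtain ⟨γ, h1, h2⟩ := hE.unbounded α hα
        exact ⟨γ, fun _ => ⟨h1, h2⟩⟩
      · exact ⟨0, fun h => absurd h hα⟩
    choose N hN using this
    exact ⟨N, hN⟩
  obtain ⟨N1, hN1⟩ := hnext _ hinf
  have hE1 := isClubIn_closure hreg hunc N1 (fun α hα => (hN1 α hα).1.1)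
  obtain ⟨N2, hN2⟩ := hnext _ hE1
  have hE2 := isClubIn_closure hreg hunc (fun α => max (N1 α) (N2 α))
    (fun α hα => max_lt (hN1 α hα).1.1 (hN2 α hα).1.1)
  obtain ⟨δ, ⟨hδκ, hδlim, hδN⟩, d, hd, hd'⟩ := club_cofOmega hreg hunc hE2
  have hδ0 : δ ≠ 0 := hδlim.ne_bot
  obtain ⟨hπ1, hπ2⟩ := hπ δ hδ0 hδκ
  have hN1δ : ∀ α < δ, N1 α < δ := fun α hα => (le_max_left _ _).trans_lt (hδN α hα)
  have hN2δ : ∀ α < δ, N2 α < δ := fun α hα => (le_max_right _ _).trans_lt (hδN α hα)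
  have hδinf : ∀ i, δ ∈ Es i := by
    intro i
    apply (hEclub i).closed δ hδκ hδ0
    intro α hα
    exact ⟨N1 α, (hN1 α (hα.trans hδκ)).1.2 i, (hN1 α (hα.trans hδκ)).2, hN1δ α hα⟩
  -- closure of the index
  have hi1 : ∀ i : LL.{u}, ∃ i', π δ i' = N1 (π δ i) := fun i => hπ2 _ (hN1δ _ (hπ1 i))
  have hi2 : ∀ i : LL.{u}, ∃ i', π δ i' = N2 (π δ i) := fun i => hπ2 _ (hN2δ _ (hπ1 i))
  choose t1 ht1 using hi1
  choose t2 ht2 using hi2
  have hdi : ∀ n, ∃ i, π δ i = d n := fun n => hπ2 _ (hd n)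
  choose s hs using hdi
  obtain ⟨j0, hj0⟩ := LL_bound s
  obtain ⟨j, hj0j, hj⟩ := exists_closed_LL (fun i => max (t1 i) (t2 i)) j0
  have hne : (Set.Iio j).Nonempty := ⟨j0, hj0j⟩
  have hrange := ha δ j hne
  have hmem : ∀ i < j, ∃ n, a δ j n = π δ i := by
    intro i hi
    have : π δ i ∈ Set.range (a δ j) := by rw [hrange]; exact ⟨i, hi, rfl⟩
    exact this
  have hmem' : ∀ n, ∃ i < j, π δ i = a δ j n := by
    intro n
    have : a δ j n ∈ π δ '' Set.Iio j := by rw [← hrange]; exact ⟨n, rfl⟩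
    exact this
  have haδ : ∀ n, a δ j n < δ := by
    intro n
    obtain ⟨i, _, hi⟩ := hmem' n
    rw [← hi]
    exact hπ1 i
  have hcl1 : ∀ n, ∃ n', a δ j n' = N1 (a δ j n) := by
    intro n
    obtain ⟨i, hi, hi'⟩ := hmem' n
    obtain ⟨n', hn'⟩ := hmem (t1 i) ((le_max_left _ _).trans_lt (hj i hi))
    exact ⟨n', by rw [hn', ht1, hi']⟩
  have hcl2 : ∀ n, ∃ n', a δ j n' = N2 (a δ j n) := by
    intro n
    obtain ⟨i, hi, hi'⟩ := hmem' n
    obtain ⟨n', hn'⟩ := hmem (t2 i) ((le_max_right _ _).trans_lt (hj i hi))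
    exact ⟨n', by rw [hn', ht2, hi']⟩
  have hrc : ∀ i, RCof (Es i) (a δ j) := by
    intro i n
    obtain ⟨n', hn'⟩ := hcl2 n
    have h1 := hN2 (a δ j n) ((haδ n).trans hδκ)
    refine ⟨n', by rw [hn']; exact h1.2, ?_, ?_⟩
    · rw [hn']
      apply (hEclub i).closed _ h1.1.1 h1.1.2.1.ne_bot
      intro α hα
      have h2 := hN1 α (hα.trans h1.1.1)
      exact ⟨N1 α, h2.1.2 i, h2.2, h1.1.2.2 α hα⟩
    · intro k hk
      rw [hn'] at hk
      obtain ⟨l, hl⟩ := hcl1 k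
      have h2 := hN1 (a δ j k) ((haδ k).trans hδκ)
      refine ⟨l, by rw [hl]; exact h2.1.2 i, by rw [hl]; exact h2.2, ?_⟩
      rw [hl, hn']
      exact h1.1.2.2 _ hk
  -- stabilisation
  obtain ⟨i0, hi0⟩ := Stable.common (ι := ℕ × ℕ)
    (f := fun p i => KK (Es i) (a δ j) p.1 p.2)
    (fun p => stable_KK hanti' hrc p.1 p.2)
  obtain ⟨i1, hi1⟩ := exists_gt_L.{u} (θ := ℵ₀) le_rfl i0
  have hδBE : δ ∈ BE (sys (Es i0)) := (hanti i0 i1 hi1 (hδinf i1)).2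
  have hpat : Pat δ (sys (Es i0) δ j) := by
    refine ⟨fun m k => haδ _, fun m k => KK_lt (hrc i0) m k, fun m k => ?_, ?_⟩
    · exact (KK_spec (hrc i0) m k).2
    · intro β hβ
      obtain ⟨n, hn⟩ := hd' β hβ
      obtain ⟨n', hn'⟩ := hmem (s n) ((hj0 n).trans hj0j)
      refine ⟨n' + 1, hn.trans ?_⟩
      have h3 := lt_NN (hrc i0) n'
      rw [hn', hs] at h3
      exact h3
  obtain ⟨m, k, hmk⟩ := hBE2 (sys (Es i0)) δ hδBE j hpat
  apply hmk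
  have h4 : KK (Es i1) (a δ j) m k = KK (Es i0) (a δ j) m k := hi0 (m, k) i1 hi1.le
  show a δ j (KK (Es i0) (a δ j) m k) ∈ BE (sys (Es i0))
  rw [← h4]
  exact (hanti i0 i1 hi1 (KK_spec (hrc i1) m k).1).2

end Run7.h632
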